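import Pool.Agent.Helper71.HN.SheetO

/-! Project HO, row FINO: the final theorem (points near sparse squares at the places above `S`). -/

set_option autoImplicit false

namespace Pool.Agent.Helper2.HO

open Polynomial Filter Finset Pool.Agent.Helper70.SUB Pool.Agent.Helper77.SUBK
  Pool.Agent.Helper70.SUBL Pool.Agent.Helper70.SUBW Pool.Agent.Helper71.JN Pool.Agent.Helper71.HN
  Pool.Agent.Helper71.HZ Pool.Agent.Helper71.HE Pool.Agent.Helper71.HO

section
variable {M : Type} [Field M] [NumberField M] {S : Finset ℕ}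

/-- the size at a place outside `S₀` of an element with the denominator `m` -/
theorem nv_le_den (hS : ∀ p ∈ S, p.Prime) (P : PF S M) {S₀ : Finset ℕ} {m : ℕ} (hm : m ≠ 0)
    {x : M} (hx : SI S₀ ((m : M) * x)) {l : ℕ} (hl : l ∈ S) (hl0 : l ∉ S₀) (σ : M ≃ₐ[ℚ] M) :
    P.nv (some l) (σ x) ≤ m := by
  have hAV := Pool.Agent.Helper15.SUB.AV
  obtain ⟨n, ⟨hn0, hn⟩, hint⟩ := hx
  have hv := mem_some hl
  have h1 : IsIntegral ℤ ((n : M) * ((m : M) * σ x)) := by
    have h2 := hint.map (σ : M →+* M).toIntAlgHom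
    have e1 : (σ : M →+* M).toIntAlgHom ((n : M) * ((m : M) * x)) =
        (n : M) * ((m : M) * σ x) := by simp
    rwa [e1] at h2
  have h2 := P.integral_le hAV hS hl h1
  rw [P.mul _ hv, P.mul _ hv, P.natCast hv, P.natCast hv] at h2
  have h3 : av (some l) (n : ℚ) = 1 := by
    haveI : Fact l.Prime := ⟨hS l hl⟩
    have h4 : padicNorm l (n : ℚ) = 1 :=
      (padicNorm.nat_eq_one_iff n).2 fun h => hl0 (hn l (hS l hl) h)
    simp [av, h4]
  rw [h3, one_mul] at h2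
  have h6 := (hAV.2.2 S hS).2.2.2.2.2.1 l hl (m : ℤ) (by exact_mod_cast hm)
  rw [Int.cast_natCast, Int.cast_natCast, Nat.abs_cast] at h6
  have h7 : (0 : ℝ) < m := by exact_mod_cast Nat.pos_of_ne_zero hm
  have h8 : 0 ≤ P.nv (some l) (σ x) := P.nn _ _
  calc P.nv (some l) (σ x) = 1 * P.nv (some l) (σ x) := (one_mul _).symm
    _ ≤ (av (some l) (m : ℚ) * m) * P.nv (some l) (σ x) := mul_le_mul_of_nonneg_right h6 h8
    _ = (av (some l) (m : ℚ) * P.nv (some l) (σ x)) * m := by ring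
    _ ≤ 1 * m := mul_le_mul_of_nonneg_right h2 h7.le
    _ = m := one_mul _

/-- the places above `S \ S₀` contribute little -/
theorem lamP_le (hS : ∀ p ∈ S, p.Prime) (P : PF S M) {S₀ : Finset ℕ} (hSS : S₀ ⊆ S) {m : ℕ}
    (hm : m ≠ 0) {x : M} (hx : SI S₀ ((m : M) * x)) :
    LamP P x ≤ LamO P S₀ x +
      ((plc S).card : ℝ) * (Fintype.card (M ≃ₐ[ℚ] M) : ℝ) * Real.log m := by
  classical
  have h1 : LamP P x = ∑ o ∈ plc S, ∑ σ : M ≃ₐ[ℚ] M, Real.log (max 1 (P.nv o (σ x))) := by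
    unfold LamP
    rw [Fintype.sum_prod_type]
    exact Finset.sum_coe_sort (plc S)
      (fun o => ∑ σ : M ≃ₐ[ℚ] M, Real.log (max 1 (P.nv o (σ x))))
  have h2 : plc S₀ ⊆ plc S := by
    intro o ho
    cases o with
    | none => exact mem_none
    | some l => exact mem_some (hSS (of_mem_some ho))
  have hm1 : (1 : ℝ) ≤ m := by exact_mod_cast Nat.one_le_iff_ne_zero.mpr hm
  have hlm : 0 ≤ Real.log m := Real.log_nonneg hm1
  rw [h1, LamO, ← Finset.sum_sdiff h2, add_comm]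
  refine add_le_add le_rfl ?_
  have h3 : ∀ o ∈ plc S \ plc S₀, ∑ σ : M ≃ₐ[ℚ] M, Real.log (max 1 (P.nv o (σ x))) ≤
      (Fintype.card (M ≃ₐ[ℚ] M) : ℝ) * Real.log m := by
    intro o ho
    obtain ⟨ho1, ho2⟩ := Finset.mem_sdiff.1 ho
    have h4 : ∀ σ ∈ (Finset.univ : Finset (M ≃ₐ[ℚ] M)),
        Real.log (max 1 (P.nv o (σ x))) ≤ Real.log m := by
      intro σ _
      refine Real.log_le_log (lt_of_lt_of_le one_pos (le_max_left _ _)) (max_le hm1 ?_)
      cases o with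
      | none => exact absurd mem_none ho2
      | some l =>
        exact nv_le_den hS P hm hx (of_mem_some ho1) (fun h => ho2 (mem_some h)) σ
    refine (Finset.sum_le_sum h4).trans (le_of_eq ?_)
    rw [Finset.sum_const, nsmul_eq_mul, Finset.card_univ]
  refine (Finset.sum_le_sum h3).trans ?_
  rw [Finset.sum_const, nsmul_eq_mul, mul_assoc]
  refine mul_le_mul_of_nonneg_right ?_ (by positivity)
  exact_mod_cast Finset.card_le_card Finset.sdiff_subset

theorem hbz_mono {ψ : M →+* ℂ} {H H' : ℝ} {z : M} (hH : H ≤ H') (h : HBZ ψ H z) :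
    HBZ ψ H' z := by
  obtain ⟨⟨D, h1, h2, h3⟩, h4⟩ := h
  exact ⟨⟨D, h1, le_trans h2 hH, h3⟩, fun σ => le_trans (h4 σ) hH⟩

end

/-- (FINO) -/
theorem FINO (hT1O : ST_T1O) (hSUBO : ST_SUBO) (hHCO : ST_HCO) (hHTT : ST_HTT)
    (hFLDE : ST_FLDE) (hEMB : ST_EMB) : ST_FINO := by
  classical
  intro K _ _ h hh S w hExt Γ t d κ θ B hfg hd3 hθ
  obtain ⟨M, iF, iN, iG, S', P, i, hSS, hS', hw, hΓ, -, -⟩ := hFLDE K S w Γ hExt hfg
  obtain ⟨C, hC1, hh0, hHB, -, hHi⟩ := hHTT K M h i S' P hh hS'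
  obtain ⟨hadd, -, hinv, htay⟩ := hHCO K h hh
  obtain ⟨κ', hκ'0, hκ'⟩ := htay d κ
  set n : ℝ := (Module.finrank ℚ K : ℝ) with hn
  have hn1 : 1 ≤ n := by
    rw [hn]
    exact_mod_cast Module.finrank_pos
  have hn0 : 0 < n := by linarith
  set G : ℝ := (Fintype.card (M ≃ₐ[ℚ] M) : ℝ) with hG
  have hG1 : 1 ≤ G := by
    rw [hG]
    exact_mod_cast Fintype.card_pos
  have hG0 : 0 < G := by linarith
  have hC0 : 0 < C := by linarith
  obtain ⟨N0, hN0⟩ : ∃ N0 : ℝ, N0 = 2 + ((plc S').card : ℝ) * G := ⟨_, rfl⟩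
  have hN00 : 0 ≤ N0 := by rw [hN0]; positivity
  have hκa : 0 ≤ |κ| := abs_nonneg κ
  obtain ⟨A, hA⟩ : ∃ A : ℝ, A = C * N0 + C + |κ| + 1 := ⟨_, rfl⟩
  have hA0 : 0 ≤ A := by rw [hA]; positivity
  obtain ⟨κ₀, hκ₀⟩ : ∃ κ₀ : ℝ, κ₀ = 1 + |κ| + κ' := ⟨_, rfl⟩
  obtain ⟨g, hg⟩ : ∃ g : ℕ, g = (d - 1) / 2 := ⟨_, rfl⟩
  obtain ⟨C₀, hC₀0, hC₀⟩ := hT1O M S' S P t g (C * κ₀) θ (C * (|B| * A)) hS' hSS (by omega) hθ
  refine ⟨C * N0 * C₀ + C + |κ| + 1, C * N0 * C₀ + C + |κ| + 1, by positivity, by positivity, ?_⟩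
  intro F hF hsep x y hxy H hH z c hcase m p q hm hint hpq hmain
  have hH0 : 0 ≤ H := le_trans (hh0 _) (hH 0)
  -- the embeddings
  let τ : (M ≃ₐ[ℚ] M) → (K →+* ℂ) := fun σ => (P.emb.comp (σ : M →+* M)).comp i
  have hpv : ∀ o ∈ plc S, ∀ (σ : M ≃ₐ[ℚ] M) (u : K), P.nv o (σ (i u)) = pv w o (τ σ u) := by
    intro o ho σ u
    cases o with
    | none => exact P.inf _
    | some l => exact hw l (of_mem_some ho) _
  have hEo : ∀ f : Option ℕ → (K →+* ℂ) → ℝ, n * ∑ o ∈ plc S, ∑ σ, f o (τ σ) =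
      G * ∑ o ∈ plc S, ∑ τ, f o τ := by
    intro f
    rw [mul_sum, mul_sum]
    exact sum_congr rfl fun o _ => hEMB K M i P.emb (f o)
  obtain ⟨L, hL⟩ : ∃ L : ℝ, L = LamO P S (i z) := ⟨_, rfl⟩
  have hL0 : 0 ≤ L := by
    rw [hL]
    exact sum_nonneg fun o _ => sum_nonneg fun σ _ => Real.log_nonneg (le_max_left _ _)
  set T1 : ℝ := ∑ o ∈ plc S, ∑ τ : K →+* ℂ,
    Real.log (max 1 (pv w o (τ (z - c * (p o τ / q o τ) ^ 2)))) with hT1
  set T2 : ℝ := ∑ o ∈ plc S, ∑ τ : K →+* ℂ, Real.log (max 1 (pv w o (τ z))) with hT2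
  have hT1n : 0 ≤ T1 :=
    sum_nonneg fun o _ => sum_nonneg fun σ _ => Real.log_nonneg (le_max_left _ _)
  have hT2n : 0 ≤ T2 :=
    sum_nonneg fun o _ => sum_nonneg fun σ _ => Real.log_nonneg (le_max_left _ _)
  have hLe : n * L = G * T2 := by
    rw [hT2, ← hEo fun o τ => Real.log (max 1 (pv w o (τ z))), hL, LamO]
    congr 1
    exact sum_congr rfl fun o ho => sum_congr rfl fun σ _ => by rw [hpv o ho]
  have hlm : 0 ≤ Real.log m := Real.log_nonneg (by exact_mod_cast Nat.one_le_iff_ne_zero.mpr hm)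
  have hmain1 : n * Real.log m + T1 ≤ θ * T2 := hmain
  have hlmL : Real.log m ≤ L := by
    have h1 : θ * T2 ≤ 1 / 2 * T2 := mul_le_mul_of_nonneg_right hθ.le hT2n
    have h2 : T2 ≤ n * L := by
      rw [hLe]
      nlinarith
    have h3 : n * Real.log m ≤ n * L := by linarith
    exact le_of_mul_le_mul_left h3 hn0
  have hintM : SI S ((m : M) * i z) := by
    obtain ⟨k, hk, hk2⟩ := hint
    refine ⟨k, hk, ?_⟩
    have h1 := hk2.map i.toIntAlgHom
    have e1 : i.toIntAlgHom ((k : K) * ((m : K) * z)) = (k : M) * ((m : M) * i z) := by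
      simp
    rwa [e1] at h1
  have hintM' : SI S' ((m : M) * i z) := by
    obtain ⟨k, ⟨hk0, hk⟩, hk2⟩ := hintM
    exact ⟨k, ⟨hk0, fun q hq hqk => hSS (hk q hq hqk)⟩, hk2⟩
  -- heights
  have hhz : h z ≤ C * (N0 * L + 1) := by
    have h1 := hHi z m hm hintM'
    have h2 := lamP_le hS' P hSS hm hintM
    rw [← hL, ← hG] at h2
    refine h1.trans (mul_le_mul_of_nonneg_left ?_ hC0.le)
    have h3 : ((plc S').card : ℝ) * G * Real.log m ≤ ((plc S').card : ℝ) * G * L :=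
      mul_le_mul_of_nonneg_left hlmL (by positivity)
    rw [hN0]
    linarith
  have hhx : h x ≤ h z + |κ| * (H + 1) + 1 := by
    have h0 : 0 ≤ |κ| * (H + 1) := mul_nonneg hκa (by linarith)
    rcases hcase with ⟨_, hxz, _⟩ | ⟨e, he, _, _, hxe, _⟩
    · rw [hxz]
      linarith
    · have h1 := hadd e z⁻¹
      rw [hinv] at h1
      have h2 : κ * (H + 1) ≤ |κ| * (H + 1) :=
        mul_le_mul_of_nonneg_right (le_abs_self κ) (by linarith)
      rw [hxe, one_div]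
      linarith
  have hhx1 : h x ≤ C * N0 * L + C + |κ| * (H + 1) + 1 := by
    have h1 : C * (N0 * L + 1) = C * N0 * L + C := by ring
    linarith
  have hhx2 : h x ≤ A * (L + H + 1) := by
    have e1 : A * (L + H + 1) = C * N0 * L + C * N0 * (H + 1) + (C + C * (L + H)) +
        (|κ| * (H + 1) + |κ| * L) + (1 + (L + H)) := by
      rw [hA]
      ring
    have h1 : 0 ≤ C * N0 * (H + 1) := by positivity
    have h2 : 0 ≤ C * (L + H) := by positivity
    have h3 : 0 ≤ |κ| * L := by positivity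
    linarith
  have hBB : ∀ u : K, h u ≤ B * h x →
      HBZ P.emb (Real.exp (C * (|B| * A) * (L + H + 1))) (i u) := by
    intro u hu
    refine hbz_mono (Real.exp_le_exp.2 ?_) (hHB u)
    have h1 : B * h x ≤ |B| * h x := mul_le_mul_of_nonneg_right (le_abs_self B) (hh0 x)
    have h2 : |B| * h x ≤ |B| * (A * (L + H + 1)) :=
      mul_le_mul_of_nonneg_left hhx2 (abs_nonneg B)
    calc C * h u ≤ C * (|B| * (A * (L + H + 1))) :=
          mul_le_mul_of_nonneg_left (by linarith) hC0.le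
      _ = C * (|B| * A) * (L + H + 1) := by ring
  have hκκ : ∀ u : K, h u ≤ κ₀ * (H + 1) →
      HBZ P.emb (Real.exp (C * κ₀ * (H + 1))) (i u) := by
    intro u hu
    refine hbz_mono (Real.exp_le_exp.2 ?_) (hHB u)
    rw [mul_assoc]
    exact mul_le_mul_of_nonneg_left hu hC0.le
  -- the main inequality over `M`
  have hmain' : G * Real.log m + ∑ o ∈ plc S, ∑ σ : M ≃ₐ[ℚ] M,
      Real.log (max 1 (P.nv o (σ (i (z - c * (p o (τ σ) / q o (τ σ)) ^ 2))))) ≤ θ * L := by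
    have e1 : n * ∑ o ∈ plc S, ∑ σ : M ≃ₐ[ℚ] M,
        Real.log (max 1 (P.nv o (σ (i (z - c * (p o (τ σ) / q o (τ σ)) ^ 2))))) = G * T1 := by
      rw [hT1, ← hEo fun o τ => Real.log (max 1 (pv w o (τ (z - c * (p o τ / q o τ) ^ 2))))]
      congr 1
      exact sum_congr rfl fun o ho => sum_congr rfl fun σ _ => by rw [hpv o ho]
    refine le_of_mul_le_mul_left (a := n) ?_ hn0
    calc n * (G * Real.log m + ∑ o ∈ plc S, ∑ σ : M ≃ₐ[ℚ] M,
          Real.log (max 1 (P.nv o (σ (i (z - c * (p o (τ σ) / q o (τ σ)) ^ 2))))))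
        = G * (n * Real.log m) + n * ∑ o ∈ plc S, ∑ σ : M ≃ₐ[ℚ] M,
          Real.log (max 1 (P.nv o (σ (i (z - c * (p o (τ σ) / q o (τ σ)) ^ 2))))) := by ring
      _ = G * (n * Real.log m + T1) := by rw [e1]; ring
      _ ≤ G * (θ * T2) := mul_le_mul_of_nonneg_left hmain1 hG0.le
      _ = θ * (G * T2) := by ring
      _ = n * (θ * L) := by rw [← hLe]; ring
  -- the sparse numbers
  have hlift : ∀ r : Option ℕ → (K →+* ℂ) → K,
      (∀ o ∈ plc S, ∀ τ, SumOf h Γ t (κ * (H + 1)) (r o τ)) →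
      ∀ (o : Option ℕ) (σ : M ≃ₐ[ℚ] M), ∃ c a : Fin t → M, o ∈ plc S →
        (∀ j, SV S' (a j)) ∧ (∀ j, HBZ P.emb (Real.exp (C * κ₀ * (H + 1))) (c j)) ∧
        ∑ j, c j * a j = i (r o (τ σ)) := by
    intro r hr o σ
    by_cases ho : o ∈ plc S
    · obtain ⟨c', γ, h1, h2, h3⟩ := hr o ho (τ σ)
      refine ⟨fun j => i (c' j), fun j => i (γ j : K), fun _ => ⟨fun j => hΓ _ (h2 j),
        fun j => hκκ _ ?_, ?_⟩⟩
      · refine (h1 j).trans (mul_le_mul_of_nonneg_right ?_ (by linarith))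
        rw [hκ₀]
        linarith [le_abs_self κ]
      · rw [h3, map_sum]
        exact sum_congr rfl fun j _ => (map_mul i _ _).symm
    · exact ⟨0, 0, fun h => absurd h ho⟩
  have hcore : ∀ (F₀ : K[X]) (y₀ : K), F₀.natDegree = 2 * g + 1 → F₀.Separable →
      y₀ ^ 2 = F₀.eval z → F₀.coeff (2 * g + 1) = c →
      (∀ j, h (F₀.coeff j) ≤ κ₀ * (H + 1)) → L ≤ C₀ * (H + 1) := by
    intro F₀ y₀ g1 g2 g3 g4 g5
    choose cc aa hca using hlift p fun o ho τ => (hpq o ho τ).1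
    choose dd bb hdb using hlift q fun o ho τ => (hpq o ho τ).2.1
    rw [hL]
    refine hC₀ (F₀.map i) (i z) (i y₀) H m cc dd aa bb hH0 (by rw [natDegree_map, g1]) g2.map
      (by rw [← map_pow, g3, eval_map, eval₂_hom]) ?_ hm hintM ?_ ?_
    · intro j
      rw [coeff_map]
      exact hκκ _ (g5 j)
    · intro o ho σ
      rw [(hca o σ ho).2.2, (hdb o σ ho).2.2, ← hL]
      refine ⟨(hca o σ ho).1, (hdb o σ ho).1, (hca o σ ho).2.1, (hdb o σ ho).2.1,
        hBB _ (hpq o ho _).2.2.1, hBB _ (hpq o ho _).2.2.2.1, ?_⟩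
      rw [Ne, map_eq_zero]
      exact (hpq o ho (τ σ)).2.2.2.2
    · rw [← hL]
      refine le_trans (le_of_eq ?_) hmain'
      congr 1
      refine sum_congr rfl fun o ho => sum_congr rfl fun σ _ => ?_
      rw [coeff_map, g4, (hca o σ ho).2.2, (hdb o σ ho).2.2, ← map_div₀, ← map_pow, ← map_mul,
        ← map_sub]
  have hLC : L ≤ C₀ * (H + 1) := by
    have hκ₀1 : 1 ≤ κ₀ := by rw [hκ₀]; linarith
    have hHκ : H ≤ κ₀ * (H + 1) := by nlinarith
    rcases hcase with ⟨hodd, hxz, hc⟩ | ⟨e, he, hFe, hz0, hxe, hc⟩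
    · have hdg : d = 2 * g + 1 := by
        obtain ⟨k, hk⟩ := hodd
        omega
      refine hcore F y (by rw [hF, hdg]) hsep (by rw [← hxz]; exact hxy) (by rw [hc, hdg])
        fun j => (hH j).trans hHκ
    · have hdeg : F.natDegree = 2 * g + 2 ∨ F.natDegree = 2 * g + 1 := by
        rw [hF]
        omega
      obtain ⟨G₁, e1, e2, e3, e4, e5⟩ := hSUBO K F g e z x y hdeg (by omega) hsep hFe hz0 hxe hxy
      refine hcore G₁ (y * z ^ (g + 1)) e1 e2 e4 (by rw [e3, hc]) fun j => ?_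
      rcases le_or_gt j (2 * g + 1) with hj | hj
      · rw [e5 j hj]
        refine (hκ' F e H hF.le hH0 hH he _).trans ?_
        refine mul_le_mul_of_nonneg_right ?_ (by linarith)
        rw [hκ₀]
        linarith
      · rw [coeff_eq_zero_of_natDegree_lt (by rw [e1]; exact hj)]
        have h0 := hH (d + 1)
        rw [coeff_eq_zero_of_natDegree_lt (by rw [hF]; omega)] at h0
        exact h0.trans hHκ
  have h1 : C * N0 * L ≤ C * N0 * (C₀ * (H + 1)) :=
    mul_le_mul_of_nonneg_left hLC (by positivity)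
  have h2 : 0 ≤ C * H := by positivity
  calc h x ≤ C * N0 * L + C + |κ| * (H + 1) + 1 := hhx1
    _ ≤ C * N0 * (C₀ * (H + 1)) + (C + C * H) + |κ| * (H + 1) + (1 + H) := by linarith
    _ = (C * N0 * C₀ + C + |κ| + 1) * H + (C * N0 * C₀ + C + |κ| + 1) := by ring

end Pool.Agent.Helper2.HO
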