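import Pool.Agent.Helper77.HE.SheetM
import Pool.Agent.Helper94.SUBW.SLW
import Pool.Agent.Helper2.HN.FINO

/-! Project HM, row FINM: the final theorem (even degree, rational points, in the mean). -/

set_option autoImplicit false

namespace Pool.Agent.Helper2.HM

open Polynomial Filter Finset Pool.Agent.Helper70.SUB Pool.Agent.Helper77.SUBK
  Pool.Agent.Helper70.SUBL Pool.Agent.Helper70.SUBW Pool.Agent.Helper71.JN Pool.Agent.Helper71.HN
  Pool.Agent.Helper71.HZ Pool.Agent.Helper71.HE Pool.Agent.Helper71.HO Pool.Agent.Helper77.HM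

section
variable {M : Type} [Field M] [NumberField M] {S : Finset ℕ}

theorem lamP_eq (P : PF S M) (x : M) :
    LamP P x = ∑ o ∈ plc S, ∑ σ : M ≃ₐ[ℚ] M, Real.log (max 1 (P.nv o (σ x))) := by
  unfold LamP
  rw [Fintype.sum_prod_type]
  exact Finset.sum_coe_sort (plc S)
    (fun o => ∑ σ : M ≃ₐ[ℚ] M, Real.log (max 1 (P.nv o (σ x))))

theorem log_nn (P : PF S M) (x : M) (o : Option ℕ) (σ : M ≃ₐ[ℚ] M) :
    0 ≤ Real.log (max 1 (P.nv o (σ x))) := Real.log_nonneg (le_max_left _ _)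

theorem lamO_le_lamP (P : PF S M) {S₀ : Finset ℕ} (hSS : S₀ ⊆ S) (x : M) :
    LamO P S₀ x ≤ LamP P x := by
  rw [lamP_eq, LamO]
  have h2 : plc S₀ ⊆ plc S := by
    intro o ho
    cases o with
    | none => exact mem_none
    | some l => exact mem_some (hSS (of_mem_some ho))
  exact Finset.sum_le_sum_of_subset_of_nonneg h2
    fun o _ _ => Finset.sum_nonneg fun σ _ => log_nn P x o σ

/-- the size at one place -/
theorem nv_le_lam (P : PF S M) {o : Option ℕ} (ho : o ∈ plc S) (σ : M ≃ₐ[ℚ] M) (x : M) :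
    P.nv o (σ x) ≤ Real.exp (LamP P x) := by
  have h1 : Real.log (max 1 (P.nv o (σ x))) ≤ LamP P x := by
    rw [lamP_eq]
    refine le_trans ?_ (Finset.single_le_sum (f := fun o => ∑ σ : M ≃ₐ[ℚ] M,
      Real.log (max 1 (P.nv o (σ x)))) (fun o _ => Finset.sum_nonneg fun σ _ => log_nn P x o σ) ho)
    exact Finset.single_le_sum (f := fun σ : M ≃ₐ[ℚ] M => Real.log (max 1 (P.nv o (σ x))))
      (fun σ _ => log_nn P x o σ) (Finset.mem_univ σ)
  have h4 : (0 : ℝ) < max 1 (P.nv o (σ x)) := lt_of_lt_of_le one_pos (le_max_left _ _)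
  refine (le_max_right 1 _).trans ?_
  rw [← Real.exp_log h4]
  exact Real.exp_le_exp.2 h1

/-- the sum of the sizes of an element of bounded size -/
theorem lamP_le_hbz (hS : ∀ p ∈ S, p.Prime) (P : PF S M) {E : ℝ} (hE : 0 ≤ E) {x : M}
    (hx : HBZ P.emb (Real.exp E) x) :
    LamP P x ≤ ((plc S).card : ℝ) * (Fintype.card (M ≃ₐ[ℚ] M) : ℝ) * E := by
  rw [lamP_eq]
  have h1 : ∀ o ∈ plc S, ∀ σ ∈ (Finset.univ : Finset (M ≃ₐ[ℚ] M)),
      Real.log (max 1 (P.nv o (σ x))) ≤ E := by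
    intro o ho σ _
    have h2 : P.nv o (σ x) ≤ Real.exp E := by
      refine Pool.Agent.Helper94.SUBW.SP_nv hS (H := Real.exp E) ?_ ho σ
      obtain ⟨⟨D, h1, h2, h3⟩, h4⟩ := hx
      exact ⟨D, h1, h2, h3, fun τ => by rw [P.inf]; exact h4 τ⟩
    have h3 : max 1 (P.nv o (σ x)) ≤ Real.exp E := max_le (Real.one_le_exp hE) h2
    have h4 := Real.log_le_log (lt_of_lt_of_le one_pos (le_max_left _ _)) h3
    rwa [Real.log_exp] at h4
  refine (Finset.sum_le_sum fun o ho => Finset.sum_le_sum (h1 o ho)).trans (le_of_eq ?_)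
  rw [Finset.sum_const, Finset.sum_const, nsmul_eq_mul, nsmul_eq_mul, Finset.card_univ]
  ring

end

/-- (FINM) -/
theorem FINM (hT1M : ST_T1M) (hSUBE : ST_SUBE) (hHCO : ST_HCO) (hHTT : ST_HTT)
    (hFLDE : ST_FLDE) (hEMB : ST_EMB) : ST_FINM := by
  classical
  intro K _ _ h hh S w hExt Γ t d κ δ B hfg hd3 hδ
  obtain ⟨M, iF, iN, iG, S', P, i, hSS, hS', hw, hΓ, hsqr, -⟩ := hFLDE K S w Γ hExt hfg
  obtain ⟨C, hC1, hh0, hHB, hLC, hHi⟩ := hHTT K M h i S' P hh hS'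
  obtain ⟨hadd, hmul, hinv, htay⟩ := hHCO K h hh
  obtain ⟨κ', hκ'0, hκ'⟩ := htay d κ
  set n : ℝ := (Module.finrank ℚ K : ℝ) with hn
  have hn1 : 1 ≤ n := by
    rw [hn]
    exact_mod_cast Module.finrank_pos
  have hn0 : 0 < n := by linarith
  set G : ℝ := (Fintype.card (M ≃ₐ[ℚ] M) : ℝ) with hG
  have hG1 : 1 ≤ G := by
    rw [hG]
    exact_mod_cast Fintype.card_pos
  have hG0 : 0 < G := by linarith
  have hC0 : 0 < C := by linarith
  obtain ⟨N, hN⟩ : ∃ N : ℝ, N = ((plc S').card : ℝ) := ⟨_, rfl⟩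
  have hN0 : 0 ≤ N := by rw [hN]; positivity
  obtain ⟨N', hN'⟩ : ∃ N' : ℝ, N' = ((plc S).card : ℝ) := ⟨_, rfl⟩
  have hN'0 : 0 ≤ N' := by rw [hN']; positivity
  have hκa : 0 ≤ |κ| := abs_nonneg κ
  have hBa : 0 ≤ |B| := abs_nonneg B
  obtain ⟨A, hA⟩ : ∃ A : ℝ, A = |κ| + h (-1) + 1 := ⟨_, rfl⟩
  have hA1 : 1 ≤ A := by
    rw [hA]
    linarith [hh0 (-1)]
  obtain ⟨κ₀, hκ₀⟩ : ∃ κ₀ : ℝ, κ₀ = 1 + |κ| + κ' := ⟨_, rfl⟩
  have hκ₀1 : 1 ≤ κ₀ := by rw [hκ₀]; linarith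
  obtain ⟨g, hg⟩ : ∃ g : ℕ, g = (d - 1) / 2 := ⟨_, rfl⟩
  obtain ⟨B₁, hB₁⟩ : ∃ B₁ : ℝ, B₁ = 2 * C + N' * G * (2 * C) + 4 * C * (1 + N * G) +
      C * |B| := ⟨_, rfl⟩
  have hNG : 0 ≤ N * G := mul_nonneg hN0 hG0.le
  have hN'G : 0 ≤ N' * G := mul_nonneg hN'0 hG0.le
  have hB₁a : 2 * C ≤ B₁ := by
    rw [hB₁]
    have : 0 ≤ N' * G * (2 * C) + 4 * C * (1 + N * G) + C * |B| := by positivity
    linarith
  have hB₁b : 2 * C + N' * G * (2 * C) ≤ B₁ := by
    rw [hB₁]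
    have : 0 ≤ 4 * C * (1 + N * G) + C * |B| := by positivity
    linarith
  have hB₁c : 4 * C * (1 + N * G) ≤ B₁ := by
    rw [hB₁]
    have : 0 ≤ 2 * C + N' * G * (2 * C) + C * |B| := by positivity
    linarith
  have hB₁d : C * |B| ≤ B₁ := by
    rw [hB₁]
    have : 0 ≤ 2 * C + N' * G * (2 * C) + 4 * C * (1 + N * G) := by positivity
    linarith
  have hB₁0 : 0 < B₁ := by linarith
  have hδG : 0 < δ * G / n := by positivity
  choose Cf hCf0 hCf using fun V : Set (Option ℕ × (M ≃ₐ[ℚ] M)) =>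
    hT1M M S' S P V t g (C * κ₀) (δ * G / n) B₁ hS' hSS (by omega) hδG hB₁0
  obtain ⟨C₀, hC₀⟩ : ∃ C₀ : ℝ, C₀ = ∑ V ∈ (plc S ×ˢ (Finset.univ : Finset (M ≃ₐ[ℚ] M))).powerset,
    Cf (V : Set (Option ℕ × (M ≃ₐ[ℚ] M))) := ⟨_, rfl⟩
  have hC₀V : ∀ V ∈ (plc S ×ˢ (Finset.univ : Finset (M ≃ₐ[ℚ] M))).powerset,
      Cf (V : Set (Option ℕ × (M ≃ₐ[ℚ] M))) ≤ C₀ := by
    intro V hV
    rw [hC₀]
    exact Finset.single_le_sum (f := fun V : Finset (Option ℕ × (M ≃ₐ[ℚ] M)) =>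
      Cf (V : Set (Option ℕ × (M ≃ₐ[ℚ] M)))) (fun V _ => (hCf0 _).le) hV
  have hC₀0 : 0 ≤ C₀ := by
    rw [hC₀]
    exact sum_nonneg fun V _ => (hCf0 _).le
  refine ⟨4 * A + 2 * C + C₀, 4 * A + 2 * C + C₀, by positivity, by positivity, ?_⟩
  intro F hF hsep x y hxy H hH z hcase m u hm hint hnear hmain
  have hH0 : 0 ≤ H := le_trans (hh0 _) (hH 0)
  have hgoal : h x ≤ (4 * A + 2 * C + C₀) * (H + 1) →
      h x ≤ (4 * A + 2 * C + C₀) * H + (4 * A + 2 * C + C₀) := fun h1 => by linarith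
  apply hgoal
  by_contra hbig
  rw [not_le] at hbig
  have hbig1 : 4 * (A * (H + 1)) ≤ h x := by
    have h1 : 0 ≤ (2 * C + C₀) * (H + 1) := by positivity
    linarith
  have hbig2 : 2 * C < h x := by
    have h1 : 0 ≤ (4 * A + C₀) * (H + 1) + 2 * C * H := by positivity
    linarith
  have hx0 : 0 < h x := by linarith
  -- the embeddings
  let τ : (M ≃ₐ[ℚ] M) → (K →+* ℂ) := fun σ => (P.emb.comp (σ : M →+* M)).comp i
  have hpv : ∀ o ∈ plc S, ∀ (σ : M ≃ₐ[ℚ] M) (v : K), P.nv o (σ (i v)) = pv w o (τ σ v) := by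
    intro o ho σ v
    cases o with
    | none => exact P.inf _
    | some l => exact hw l (of_mem_some ho) _
  have hEo : ∀ f : Option ℕ → (K →+* ℂ) → ℝ, n * ∑ o ∈ plc S, ∑ σ, f o (τ σ) =
      G * ∑ o ∈ plc S, ∑ τ, f o τ := by
    intro f
    rw [mul_sum, mul_sum]
    exact sum_congr rfl fun o _ => hEMB K M i P.emb (f o)
  have hLe : n * LamO P S (i z) =
      G * ∑ o ∈ plc S, ∑ τ : K →+* ℂ, Real.log (max 1 (pv w o (τ z))) := by
    rw [← hEo fun o τ => Real.log (max 1 (pv w o (τ z))), LamO]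
    congr 1
    exact sum_congr rfl fun o ho => sum_congr rfl fun σ _ => by rw [hpv o ho]
  have hlm : 0 ≤ Real.log m := Real.log_nonneg (by exact_mod_cast Nat.one_le_iff_ne_zero.mpr hm)
  have hintM : SI S ((m : M) * i z) := by
    obtain ⟨k, hk, hk2⟩ := hint
    refine ⟨k, hk, ?_⟩
    have h1 := hk2.map i.toIntAlgHom
    have e1 : i.toIntAlgHom ((k : K) * ((m : K) * z)) = (k : M) * ((m : M) * i z) := by
      simp
    rwa [e1] at h1
  -- heights
  have hneg : ∀ a b : K, h (a - b) ≤ h a + h (-1) + h b + 1 := by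
    intro a b
    have h1 := hadd a (-1 * b)
    have h2 := hmul (-1) b
    have e1 : a - b = a + -1 * b := by ring
    rw [e1]
    linarith
  have hκH : κ * (H + 1) ≤ |κ| * (H + 1) :=
    mul_le_mul_of_nonneg_right (le_abs_self κ) (by linarith)
  have hAH : A * (H + 1) = |κ| * (H + 1) + (h (-1) + 1) * (H + 1) := by
    rw [hA]
    ring
  have hAH1 : h (-1) + 1 ≤ (h (-1) + 1) * (H + 1) := by
    have h1 : 0 ≤ (h (-1) + 1) * H := mul_nonneg (by linarith [hh0 (-1)]) hH0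
    linarith
  have hxz : h x ≤ h z + A * (H + 1) := by
    rcases hcase with ⟨_, _, hxz⟩ | ⟨e, he, _, _, _, hxe⟩
    · rw [hxz]
      have : 0 ≤ A * (H + 1) := by positivity
      linarith
    · have h1 := hadd e z⁻¹
      rw [hinv] at h1
      rw [hxe, one_div]
      linarith [hh0 (-1)]
  have hzx : h z ≤ h x + A * (H + 1) := by
    rcases hcase with ⟨_, _, hxz⟩ | ⟨e, he, _, _, hz0, hxe⟩
    · rw [hxz]
      have : 0 ≤ A * (H + 1) := by positivity
      linarith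
    · have h1 := hneg x e
      have e1 : z = (x - e)⁻¹ := by
        rw [hxe]
        field_simp
        ring
      rw [e1, hinv]
      linarith
  have hz54 : h z ≤ 5 / 4 * h x := by linarith
  have hz34 : 3 / 4 * h x ≤ h z := by linarith
  have hLamP : LamP P (i z) ≤ C * (5 / 4 * h x) :=
    (hLC z).trans (mul_le_mul_of_nonneg_left hz54 hC0.le)
  -- the approximations
  have hr : ∀ (o : Option ℕ) (τ : K →+* ℂ), ∃ r : K, o ∈ plc S → 0 < u o τ ∧
      pv w o (τ (z - r)) ≤ u o τ ∧ (h r ≤ κ * (H + 1) ∨ (1 ≤ u o τ ∧ ∃ p q : K,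
        SumOf h Γ t (κ * (H + 1)) p ∧ SumOf h Γ t (κ * (H + 1)) q ∧ h p ≤ B * h x ∧
        h q ≤ B * h x ∧ q ≠ 0 ∧ r = p / q)) := by
    intro o τ
    by_cases ho : o ∈ plc S
    · obtain ⟨h1, r, h2, h3⟩ := hnear o ho τ
      exact ⟨r, fun _ => ⟨h1, h2, h3⟩⟩
    · exact ⟨0, fun h1 => absurd h1 ho⟩
  choose r hr using hr
  -- Liouville
  have hu : ∀ o ∈ plc S, ∀ σ : M ≃ₐ[ℚ] M, Real.exp (-(2 * C * h x)) ≤ u o (τ σ) := by
    intro o ho σ
    by_contra hlt
    rw [not_le] at hlt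
    obtain ⟨h1, h2, h3⟩ := hr o (τ σ) ho
    have hu1 : u o (τ σ) < 1 := lt_of_lt_of_le hlt (Real.exp_le_one_iff.2 (by
      have : 0 ≤ 2 * C * h x := by positivity
      linarith))
    have h4 : h (r o (τ σ)) ≤ κ * (H + 1) := by
      rcases h3 with h3 | h3
      · exact h3
      · exact absurd h3.1 (not_le.2 hu1)
    by_cases hzr : z = r o (τ σ)
    · rw [← hzr] at h4
      have h5 := hh0 (-1)
      linarith
    · have hne : z - r o (τ σ) ≠ 0 := sub_ne_zero.2 hzr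
      have hne' : i (z - r o (τ σ)) ≠ 0 := by
        rw [Ne, map_eq_zero]
        exact hne
      have hoS' : o ∈ plc S' := by
        cases o with
        | none => exact mem_none
        | some l => exact mem_some (hSS (of_mem_some ho))
      have h5 := nv_le_lam P hoS' σ (i (z - r o (τ σ))⁻¹)
      have h6 := hLC (z - r o (τ σ))⁻¹
      rw [hinv] at h6
      have h7 := hneg z (r o (τ σ))
      have h8 : LamP P (i (z - r o (τ σ))⁻¹) ≤ C * (3 / 2 * h x) := by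
        refine h6.trans (mul_le_mul_of_nonneg_left ?_ hC0.le)
        linarith
      have h9 : P.nv o (σ (i (z - r o (τ σ))⁻¹)) ≤ Real.exp (C * (3 / 2 * h x)) :=
        h5.trans (Real.exp_le_exp.2 h8)
      have h10 : P.nv o (σ (i (z - r o (τ σ)))) ≤ u o (τ σ) := by
        rw [hpv o ho]
        exact h2
      have h11 : P.nv o (σ (i (z - r o (τ σ)))) * P.nv o (σ (i (z - r o (τ σ))⁻¹)) = 1 := by
        rw [← P.mul o hoS', ← map_mul, ← map_mul, mul_inv_cancel₀ hne, map_one, map_one]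
        exact P.one hoS'
      have h12 : (1 : ℝ) < 1 := by
        calc (1 : ℝ) = P.nv o (σ (i (z - r o (τ σ)))) * P.nv o (σ (i (z - r o (τ σ))⁻¹)) :=
              h11.symm
          _ ≤ u o (τ σ) * Real.exp (C * (3 / 2 * h x)) :=
              mul_le_mul h10 h9 (P.nn _ _) h1.le
          _ < Real.exp (-(2 * C * h x)) * Real.exp (C * (3 / 2 * h x)) :=
              mul_lt_mul_of_pos_right hlt (Real.exp_pos _)
          _ = Real.exp (-(1 / 2 * C * h x)) := by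
              rw [← Real.exp_add]
              congr 1
              ring
          _ ≤ 1 := Real.exp_le_one_iff.2 (by
              have : 0 ≤ 1 / 2 * C * h x := by positivity
              linarith)
      exact lt_irrefl _ h12
  have hupos : ∀ o ∈ plc S, ∀ σ : M ≃ₐ[ℚ] M, -(2 * C * h x) ≤ Real.log (u o (τ σ)) := by
    intro o ho σ
    have h1 := Real.log_le_log (Real.exp_pos _) (hu o ho σ)
    rwa [Real.log_exp] at h1
  -- the main inequality over `M`
  have hmain' : 4 * G * Real.log m + ∑ o ∈ plc S, ∑ σ : M ≃ₐ[ℚ] M, Real.log (u o (τ σ)) +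
      δ * G / n * h x ≤ LamO P S (i z) := by
    have e1 := hEo fun o τ => Real.log (u o τ)
    refine le_of_mul_le_mul_left (a := n) ?_ hn0
    calc n * (4 * G * Real.log m + ∑ o ∈ plc S, ∑ σ : M ≃ₐ[ℚ] M, Real.log (u o (τ σ)) +
          δ * G / n * h x)
        = G * (4 * n * Real.log m) + n * ∑ o ∈ plc S, ∑ σ : M ≃ₐ[ℚ] M,
          Real.log (u o (τ σ)) + G * (δ * h x) := by
            field_simp
      _ = G * (4 * n * Real.log m + ∑ o ∈ plc S, ∑ τ : K →+* ℂ, Real.log (u o τ) +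
          δ * h x) := by
            rw [e1]
            ring
      _ ≤ G * ∑ o ∈ plc S, ∑ τ : K →+* ℂ, Real.log (max 1 (pv w o (τ z))) :=
            mul_le_mul_of_nonneg_left hmain hG0.le
      _ = n * LamO P S (i z) := hLe.symm
  have hsumu : -(N' * G * (2 * C * h x)) ≤
      ∑ o ∈ plc S, ∑ σ : M ≃ₐ[ℚ] M, Real.log (u o (τ σ)) := by
    have h1 : ∑ o ∈ plc S, ∑ _σ : M ≃ₐ[ℚ] M, -(2 * C * h x) ≤
        ∑ o ∈ plc S, ∑ σ : M ≃ₐ[ℚ] M, Real.log (u o (τ σ)) :=
      sum_le_sum fun o ho => sum_le_sum fun σ _ => hupos o ho σ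
    refine le_trans (le_of_eq ?_) h1
    rw [sum_const, sum_const, nsmul_eq_mul, nsmul_eq_mul, card_univ, hN', hG]
    ring
  have hlogm : Real.log m ≤ B₁ * h x := by
    have h1 : LamO P S (i z) ≤ C * (5 / 4 * h x) := (lamO_le_lamP P hSS (i z)).trans hLamP
    have h2 : 0 ≤ δ * G / n * h x := by positivity
    have h3 : Real.log m ≤ 4 * G * Real.log m := by nlinarith
    have h4 : (2 * C + N' * G * (2 * C)) * h x ≤ B₁ * h x :=
      mul_le_mul_of_nonneg_right hB₁b hx0.le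
    have h5 : 0 ≤ C * h x := by positivity
    linarith
  have hmexp : (m : ℝ) ≤ Real.exp (B₁ * h x) := by
    have h1 : (0 : ℝ) < m := by exact_mod_cast Nat.pos_of_ne_zero hm
    rw [← Real.exp_log h1]
    exact Real.exp_le_exp.2 hlogm
  have hnvz : ∀ o ∈ plc S', ∀ σ : M ≃ₐ[ℚ] M, P.nv o (σ (i z)) ≤ Real.exp (B₁ * h x) := by
    intro o ho σ
    refine (nv_le_lam P ho σ (i z)).trans (Real.exp_le_exp.2 ?_)
    have h1 : 2 * C * h x ≤ B₁ * h x := mul_le_mul_of_nonneg_right hB₁a hx0.le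
    have h2 : 0 ≤ C * h x := by positivity
    linarith
  have hnslow : ¬ HBZ P.emb (Real.exp (h x / B₁)) (i z) := by
    intro hb
    have hE0 : 0 ≤ h x / B₁ := by positivity
    have h1 := lamP_le_hbz hS' P hE0 hb
    rw [← hN, ← hG] at h1
    obtain ⟨⟨D, hD0, hD1, hD2⟩, -⟩ := hb
    have h2 : SI S' ((D : M) * i z) := ⟨1, ⟨one_ne_zero, fun q hq hq1 => by
      exact absurd (Nat.eq_one_of_dvd_one hq1) hq.one_lt.ne'⟩, by
        rw [Nat.cast_one, one_mul]
        exact hD2⟩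
    have h3 := hHi z D hD0 h2
    have h4 : Real.log D ≤ h x / B₁ := by
      have h5 : (0 : ℝ) < D := by exact_mod_cast Nat.pos_of_ne_zero hD0
      have h6 := Real.log_le_log h5 hD1
      rwa [Real.log_exp] at h6
    have h5 : C * (Real.log D + LamP P (i z) + 1) ≤ C * ((1 + N * G) * (h x / B₁) + 1) := by
      refine mul_le_mul_of_nonneg_left ?_ hC0.le
      linarith
    have h6 : C * ((1 + N * G) * (h x / B₁) + 1) ≤ 1 / 4 * h x + C := by
      have h7 : 4 * C * (1 + N * G) * (h x / B₁) ≤ B₁ * (h x / B₁) :=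
        mul_le_mul_of_nonneg_right hB₁c hE0
      have h8 : B₁ * (h x / B₁) = h x := by field_simp
      rw [h8] at h7
      linarith
    linarith
  have hκκ : ∀ v : K, h v ≤ κ₀ * (H + 1) →
      HBZ P.emb (Real.exp (C * κ₀ * (H + 1))) (i v) := by
    intro v hv
    refine HO.hbz_mono (Real.exp_le_exp.2 ?_) (hHB v)
    rw [mul_assoc]
    exact mul_le_mul_of_nonneg_left hv hC0.le
  have hκκ' : ∀ v : K, h v ≤ κ * (H + 1) →
      HBZ P.emb (Real.exp (C * κ₀ * (H + 1))) (i v) := by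
    intro v hv
    refine hκκ v (hv.trans (mul_le_mul_of_nonneg_right ?_ (by linarith)))
    rw [hκ₀]
    linarith [le_abs_self κ]
  have hBB : ∀ v : K, h v ≤ B * h x → HBZ P.emb (Real.exp (B₁ * h x)) (i v) := by
    intro v hv
    refine HO.hbz_mono (Real.exp_le_exp.2 ?_) (hHB v)
    have h1 : B * h x ≤ |B| * h x := mul_le_mul_of_nonneg_right (le_abs_self B) hx0.le
    calc C * h v ≤ C * (|B| * h x) := mul_le_mul_of_nonneg_left (by linarith) hC0.le
      _ = C * |B| * h x := by ring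
      _ ≤ B₁ * h x := mul_le_mul_of_nonneg_right hB₁d hx0.le
  -- the sparse numbers
  have hlift : ∀ v : K, SumOf h Γ t (κ * (H + 1)) v → ∃ c a : Fin t → M,
      (∀ j, SV S' (a j)) ∧ (∀ j, HBZ P.emb (Real.exp (C * κ₀ * (H + 1))) (c j)) ∧
      ∑ j, c j * a j = i v := by
    intro v hv
    obtain ⟨c', γ, h1, h2, h3⟩ := hv
    refine ⟨fun j => i (c' j), fun j => i (γ j : K), fun j => hΓ _ (h2 j),
      fun j => hκκ' _ (h1 j), ?_⟩
    rw [h3, map_sum]
    exact sum_congr rfl fun j _ => (map_mul i _ _).symm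
  have hsp : ∀ (o : Option ℕ) (σ : M ≃ₐ[ℚ] M), ∃ c d a b : Fin t → M, o ∈ plc S →
      ¬ h (r o (τ σ)) ≤ κ * (H + 1) → 1 ≤ u o (τ σ) ∧
      (∀ j, SV S' (a j)) ∧ (∀ j, SV S' (b j)) ∧
      (∀ j, HBZ P.emb (Real.exp (C * κ₀ * (H + 1))) (c j)) ∧
      (∀ j, HBZ P.emb (Real.exp (C * κ₀ * (H + 1))) (d j)) ∧
      HBZ P.emb (Real.exp (B₁ * h x)) (∑ j, c j * a j) ∧
      HBZ P.emb (Real.exp (B₁ * h x)) (∑ j, d j * b j) ∧ ∑ j, d j * b j ≠ 0 ∧
      i (r o (τ σ)) = (∑ j, c j * a j) / ∑ j, d j * b j := by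
    intro o σ
    by_cases ho : o ∈ plc S
    · by_cases hL : h (r o (τ σ)) ≤ κ * (H + 1)
      · exact ⟨0, 0, 0, 0, fun _ h1 => absurd hL h1⟩
      · obtain ⟨-, -, h3⟩ := hr o (τ σ) ho
        rcases h3 with h3 | ⟨hu1, p, q, hp, hq, hpB, hqB, hq0, hrpq⟩
        · exact absurd h3 hL
        · obtain ⟨c, a, ha, hc, hpa⟩ := hlift p hp
          obtain ⟨d, b, hb, hd, hqb⟩ := hlift q hq
          refine ⟨c, d, a, b, fun _ _ => ⟨hu1, ha, hb, hc, hd, ?_, ?_, ?_, ?_⟩⟩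
          · rw [hpa]
            exact hBB p hpB
          · rw [hqb]
            exact hBB q hqB
          · rw [hqb, Ne, map_eq_zero]
            exact hq0
          · rw [hpa, hqb, hrpq, map_div₀]
    · exact ⟨0, 0, 0, 0, fun h1 => absurd h1 ho⟩
  choose cc dd aa bb hsp using hsp
  let V : Finset (Option ℕ × (M ≃ₐ[ℚ] M)) := (plc S ×ˢ (Finset.univ : Finset (M ≃ₐ[ℚ] M))).filter
    fun oσ => h (r oσ.1 (τ oσ.2)) ≤ κ * (H + 1)
  have hVm : V ∈ (plc S ×ˢ (Finset.univ : Finset (M ≃ₐ[ℚ] M))).powerset :=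
    Finset.mem_powerset.2 (Finset.filter_subset _ _)
  have hcore : ∀ (F₀ : K[X]) (y₀ : K), F₀.natDegree = 2 * g + 2 → F₀.Separable →
      y₀ ^ 2 = F₀.eval z → SqClass Γ (F₀.coeff (2 * g + 2)) →
      (∀ j, h (F₀.coeff j) ≤ κ₀ * (H + 1)) → h x ≤ C₀ * (H + 1) := by
    intro F₀ y₀ g1 g2 g3 g4 g5
    obtain ⟨γ, hγ, b, hb⟩ := g4
    obtain ⟨ρ, hρ⟩ := hsqr γ hγ
    refine le_trans ?_ (mul_le_mul_of_nonneg_right (hC₀V V hVm) (by linarith))
    refine hCf (V : Set (Option ℕ × (M ≃ₐ[ℚ] M))) (F₀.map i) (i z) (i y₀) (ρ * i b) H (h x) m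
      cc dd aa bb (fun o σ => i (r o (τ σ))) (fun o σ => u o (τ σ)) hH0
      (by rw [natDegree_map, g1]) g2.map (by rw [← map_pow, g3, eval_map, eval₂_hom])
      ?_ ?_ hm hintM hmexp hnvz hnslow ?_ hmain'
    · rw [coeff_map, hb, map_mul, map_pow, mul_pow, hρ]
    · intro j
      rw [coeff_map]
      exact hκκ _ (g5 j)
    · intro o ho σ
      refine ⟨?_, ?_, ?_, ?_⟩
      · refine le_trans (Real.exp_le_exp.2 ?_) (hu o ho σ)
        have h1 : 2 * C * h x ≤ B₁ * h x := mul_le_mul_of_nonneg_right hB₁a hx0.le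
        linarith
      · change P.nv o (σ (i z - i (r o (τ σ)))) ≤ u o (τ σ)
        rw [← map_sub i, hpv o ho]
        exact (hr o (τ σ) ho).2.1
      · intro hV
        have h1 : (o, σ) ∈ V := hV
        exact hκκ' _ (Finset.mem_filter.1 h1).2
      · intro hV
        refine hsp o σ ho fun h1 => hV ?_
        change (o, σ) ∈ V
        exact Finset.mem_filter.2 ⟨Finset.mem_product.2 ⟨ho, Finset.mem_univ _⟩, h1⟩
  have hfin : h x ≤ C₀ * (H + 1) := by
    have hHκ : H ≤ κ₀ * (H + 1) := by nlinarith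
    rcases hcase with ⟨heven, hsq, hxz⟩ | ⟨e, he, hFe, hsq, hz0, hxe⟩
    · have hdg : d = 2 * g + 2 := by
        obtain ⟨k, hk⟩ := heven
        omega
      refine hcore F y (by rw [hF, hdg]) hsep (by rw [← hxz]; exact hxy) (by rw [← hdg]; exact hsq)
        fun j => (hH j).trans hHκ
    · have hdeg : F.natDegree = 2 * g + 2 ∨ F.natDegree = 2 * g + 1 := by
        rw [hF]
        omega
      obtain ⟨G₁, e1, e2, e3, e4, e5⟩ := hSUBE K F g e z x y hdeg hsep hFe hz0 hxe hxy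
      refine hcore G₁ (y * z ^ (g + 1)) e1 e2 e4 (by rw [e3]; exact hsq) fun j => ?_
      rcases le_or_gt j (2 * g + 2) with hj | hj
      · rw [e5 j hj]
        refine (hκ' F e H hF.le hH0 hH he _).trans ?_
        refine mul_le_mul_of_nonneg_right ?_ (by linarith)
        rw [hκ₀]
        linarith
      · rw [coeff_eq_zero_of_natDegree_lt (by rw [e1]; exact hj)]
        have h0 := hH (d + 1)
        rw [coeff_eq_zero_of_natDegree_lt (by rw [hF]; omega)] at h0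
        exact h0.trans hHκ
  have h1 : 0 ≤ (4 * A + 2 * C) * (H + 1) := by positivity
  linarith

end Pool.Agent.Helper2.HM
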