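import Pool.Agent.Helper26.HN.Stmts
import Pool.Agent.Helper21.CF.TLS

/-!
# Row DRZ of HN
-/

set_option autoImplicit false

namespace Pool.Agent.Helper2.HN

open MeasureTheory Filter Pool.Agent.Helper95 Pool.Agent.Helper95.PW Pool.Agent.Helper95.LN
  Pool.Agent.Helper26.HN

theorem drz_sq {n : ℕ} (u : Wf n) : 0 ≤ PW.sq u := by
  unfold PW.sq
  exact Finset.sum_nonneg fun s _ => integral_nonneg fun x => sq_nonneg _

theorem drz_kin {n : ℕ} (u : Wf n) : 0 ≤ kin u := by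
  unfold kin
  exact Finset.sum_nonneg fun k _ => Finset.sum_nonneg fun i _ => drz_sq _

theorem DRZ (h1 : ST_TUZ) (h2 : ST_ATZ) (h3 : ST_QHM) (h4 : ST_INTM) : ST_DRZ := by
  intro d hd
  obtain ⟨C1, hC1, H1⟩ := h1 d hd
  obtain ⟨C2, hC2, H2⟩ := h2 d C1 hd hC1
  refine ⟨C1 + C2 + 3 / 2 + 32 / d, by positivity, ?_⟩
  intro n M X Z z E u hz hM hN hZ hS hE hu ha hsq hres
  have k1 := H1 n M X Z z E u hz hM hN hZ hS hE hu ha hsq hres
  have hnz : (n : ℝ) ≤ z * M := by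
    rw [← hN.2]
    calc ∑ j, Z j ≤ ∑ _j : Fin M, z := Finset.sum_le_sum fun j _ => hZ j
      _ = z * M := by
        rw [Finset.sum_const, Finset.card_univ, Fintype.card_fin, nsmul_eq_mul]
        ring
  have k2 := H2 n M X z u hz hnz hS hu ha hsq k1
  have hM1 : (1 : ℝ) ≤ M := by exact_mod_cast hM
  have hzp : z ^ 2 ≤ z ^ (7 / 3 : ℝ) := by
    rw [← Real.rpow_natCast]
    exact Real.rpow_le_rpow_of_exponent_le hz (by norm_num)
  have hz1 : (1 : ℝ) ≤ z ^ (7 / 3 : ℝ) := Real.one_le_rpow hz (by norm_num)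
  obtain ⟨P, hP⟩ : ∃ P : ℝ, P = z ^ (7 / 3 : ℝ) * M := ⟨_, rfl⟩
  have hP1 : 1 ≤ P := by
    rw [hP]
    nlinarith
  have hP2 : z ^ 2 * M ≤ P := by
    rw [hP]
    exact mul_le_mul_of_nonneg_right hzp (by positivity)
  rw [← hP] at k1 k2 ⊢
  have hd3 : 0 ≤ 32 / d := by positivity
  have hsq0 := drz_sq u
  have hkin0 := drz_kin u
  have hQ := Pool.Agent.Helper21.CF.tls_Q h3 h4 X Z E (1 / 2) (by norm_num) u hu
  have hQ2 : QM X Z u + nucR X Z * PW.sq u ≤ 3 / 2 := by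
    have e1 : (E + nucR X Z) * PW.sq u ≤ 0 := mul_nonpos_of_nonpos_of_nonneg hE hsq0
    have e2 : (1 : ℝ) / (4 * (1 / 2)) * resM X Z E u ≤ 1 / 2 := by
      have : (1 : ℝ) / (4 * (1 / 2)) = 1 / 2 := by norm_num
      rw [this]
      linarith
    nlinarith
  have hn2 : 8 * (1 + z) / d * n * PW.sq u ≤ 32 / d * P := by
    have e1 : 8 * (1 + z) / d ≤ 16 * z / d := by
      apply div_le_div_of_nonneg_right _ hd.le
      linarith
    have e2 : (n : ℝ) * PW.sq u ≤ z * M * 2 :=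
      mul_le_mul hnz hsq hsq0 (by positivity)
    have e3 : 8 * (1 + z) / d * n * PW.sq u ≤ 16 * z / d * (z * M * 2) := by
      rw [mul_assoc]
      exact mul_le_mul e1 e2 (by positivity) (by positivity)
    have e4 : 16 * z / d * (z * M * 2) = 32 / d * (z ^ 2 * M) := by
      ring
    rw [e4] at e3
    exact e3.trans (mul_le_mul_of_nonneg_left hP2 hd3)
  have p1 : 0 ≤ C1 * P := by positivity
  have p2 : 0 ≤ C2 * P := by positivity
  have p3 : 0 ≤ 32 / d * P := by positivity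
  have p4 : 3 / 2 ≤ 3 / 2 * P := by linarith
  refine ⟨?_, ?_, ?_⟩
  · nlinarith
  · nlinarith
  · nlinarith

end Pool.Agent.Helper2.HN
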