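import Pool.Agent.Helper71.HN.SheetX

/-! Sheet X, row LOCA: the flag at a pole place. -/

set_option autoImplicit false

namespace Pool.Agent.Helper2.HX

open Polynomial Finset Pool.Agent.Helper71.JN Pool.Agent.Helper71.HN Pool.Agent.Helper77.HE
  Pool.Agent.Helper71.HX

theorem v_sum_le {Ω : Type} [Field Ω] (v : AbsoluteValue Ω ℝ)
    (hu : ∀ a b, v (a + b) ≤ max (v a) (v b)) {ι : Type} (s : Finset ι) (f : ι → Ω) {B : ℝ}
    (hB : 0 ≤ B) (h : ∀ i ∈ s, v (f i) ≤ B) : v (∑ i ∈ s, f i) ≤ B := by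
  classical
  induction s using Finset.induction_on with
  | empty =>
    rw [sum_empty, map_zero]
    exact hB
  | insert a s ha ih =>
    rw [sum_insert ha]
    exact (hu _ _).trans (max_le (h a (mem_insert_self _ _))
      (ih fun i hi => h i (mem_insert_of_mem hi)))

section
variable {k : Type} [Field k]

/-- the polynomial `Ψ u` -/
noncomputable def psiF (g N : ℕ) (φ : k[X]) (u : (Fin (N + g + 1) ⊕ Fin N) → k) : k[X] :=
  ∑ n : Fin (N + g + 1), C (u (Sum.inl n)) * X ^ (N + g - (n : ℕ)) +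
    (∑ j : Fin N, C (u (Sum.inr j)) * X ^ (N - 1 - (j : ℕ))) * φ

theorem psiF_add (g N : ℕ) (φ : k[X]) (u w : (Fin (N + g + 1) ⊕ Fin N) → k) :
    psiF g N φ (u + w) = psiF g N φ u + psiF g N φ w := by
  unfold psiF
  simp only [Pi.add_apply, map_add, add_mul, sum_add_distrib]
  ring

theorem psiF_smul (g N : ℕ) (φ : k[X]) (a : k) (u : (Fin (N + g + 1) ⊕ Fin N) → k) :
    psiF g N φ (a • u) = a • psiF g N φ u := by
  have h1 : ∑ n : Fin (N + g + 1), C ((a • u) (Sum.inl n)) * X ^ (N + g - (n : ℕ)) =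
      C a * ∑ n : Fin (N + g + 1), C (u (Sum.inl n)) * X ^ (N + g - (n : ℕ)) := by
    rw [mul_sum]
    refine sum_congr rfl fun n _ => ?_
    rw [Pi.smul_apply, smul_eq_mul, C_mul, mul_assoc]
  have h2 : ∑ j : Fin N, C ((a • u) (Sum.inr j)) * X ^ (N - 1 - (j : ℕ)) =
      C a * ∑ j : Fin N, C (u (Sum.inr j)) * X ^ (N - 1 - (j : ℕ)) := by
    rw [mul_sum]
    refine sum_congr rfl fun n _ => ?_
    rw [Pi.smul_apply, smul_eq_mul, C_mul, mul_assoc]
  unfold psiF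
  rw [h1, h2, smul_eq_C_mul, mul_add, mul_assoc]

/-- the polynomial `Ψ u` -/
noncomputable def psi (g N : ℕ) (φ : k[X]) : ((Fin (N + g + 1) ⊕ Fin N) → k) →ₗ[k] k[X] where
  toFun := psiF g N φ
  map_add' := psiF_add g N φ
  map_smul' := psiF_smul g N φ

/-- the flag -/
noncomputable def flagW (g N : ℕ) (φ : k[X]) (t : k) (b : ℕ) :
    Submodule k ((Fin (N + g + 1) ⊕ Fin N) → k) :=
  LinearMap.ker ((modByMonicHom ((X - C t) ^ b)).comp (psi g N φ))

theorem flagW_dvd (g N : ℕ) (φ : k[X]) (t : k) (b : ℕ) (u : (Fin (N + g + 1) ⊕ Fin N) → k)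
    (h : u ∈ flagW g N φ t b) : (X - C t) ^ b ∣ psiF g N φ u := by
  have hmon : ((X - C t) ^ b : k[X]).Monic := (monic_X_sub_C t).pow b
  unfold flagW at h
  rw [LinearMap.mem_ker, LinearMap.comp_apply, modByMonicHom_apply] at h
  exact (modByMonic_eq_zero_iff_dvd hmon).1 h

theorem flagW_dim (g N : ℕ) (φ : k[X]) (t : k) (b : ℕ) :
    2 * N + g + 1 ≤ Module.finrank k (flagW g N φ t b) + b := by
  have hmon : ((X - C t) ^ b : k[X]).Monic := (monic_X_sub_C t).pow b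
  have h1 := LinearMap.finrank_range_add_finrank_ker
    ((modByMonicHom ((X - C t) ^ b)).comp (psi g N φ))
  have h2 : Module.finrank k ((Fin (N + g + 1) ⊕ Fin N) → k) = 2 * N + g + 1 := by
    rw [Module.finrank_fintype_fun_eq_card, Fintype.card_sum, Fintype.card_fin, Fintype.card_fin]
    omega
  have h3 : LinearMap.range ((modByMonicHom ((X - C t) ^ b)).comp (psi g N φ)) ≤
      degreeLT k b := by
    rintro P ⟨u, rfl⟩
    rw [LinearMap.comp_apply, modByMonicHom_apply, mem_degreeLT]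
    refine lt_of_lt_of_le (degree_modByMonic_lt _ hmon) ?_
    rw [degree_pow, degree_X_sub_C, nsmul_one]
  have h4 : Module.finrank k (degreeLT k b) = b := by
    rw [(degreeLTEquiv k b).finrank_eq, Module.finrank_fin_fun]
  have : Module.Finite k (degreeLT k b) := Module.Finite.equiv (degreeLTEquiv k b).symm
  have h5 := Submodule.finrank_mono h3
  rw [h4] at h5
  rw [h2] at h1
  unfold flagW
  omega

end

section
variable {F Ω : Type} [Field F] [Field Ω] [Algebra F Ω]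

/-- the integral elements of `K` -/
def vr (K : IntermediateField F Ω) (v : AbsoluteValue Ω ℝ)
    (hu : ∀ a b, v (a + b) ≤ max (v a) (v b)) : Subring K where
  carrier := {a | v (a : Ω) ≤ 1}
  mul_mem' := by
    intro a b ha hb
    change v ((a * b : K) : Ω) ≤ 1
    rw [MulMemClass.coe_mul, map_mul]
    exact mul_le_one₀ ha (v.nonneg _) hb
  one_mem' := by
    change v ((1 : K) : Ω) ≤ 1
    rw [OneMemClass.coe_one, map_one]
  add_mem' := by
    intro a b ha hb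
    change v ((a + b : K) : Ω) ≤ 1
    rw [AddMemClass.coe_add]
    exact (hu _ _).trans (max_le ha hb)
  zero_mem' := by
    change v ((0 : K) : Ω) ≤ 1
    rw [ZeroMemClass.coe_zero, map_zero]
    exact zero_le_one
  neg_mem' := by
    intro a ha
    change v ((-a : K) : Ω) ≤ 1
    rw [NegMemClass.coe_neg, v.map_neg]
    exact ha

theorem ip_iff (K : IntermediateField F Ω) (v : AbsoluteValue Ω ℝ)
    (hu : ∀ a b, v (a + b) ≤ max (v a) (v b)) (P : K[X]) :
    (∀ i, v (P.coeff i : Ω) ≤ 1) ↔ P ∈ lifts (vr K v hu).subtype := by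
  rw [lifts_iff_coeff_lifts]
  refine forall_congr' fun i => ?_
  constructor
  · intro h
    exact ⟨⟨P.coeff i, h⟩, rfl⟩
  · rintro ⟨⟨a, ha⟩, h⟩
    rw [← h]
    exact ha

/-- values of integral polynomials at integral points -/
theorem aeval_ip (K : IntermediateField F Ω) (v : AbsoluteValue Ω ℝ)
    (hu : ∀ a b, v (a + b) ≤ max (v a) (v b)) (P : K[X]) (hP : ∀ i, v (P.coeff i : Ω) ≤ 1)
    {z : Ω} (hz : v z ≤ 1) : v (aeval z P) ≤ 1 := by
  rw [aeval_eq_sum_range]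
  refine v_sum_le v hu _ _ zero_le_one fun i _ => ?_
  rw [Algebra.smul_def, map_mul, map_pow]
  exact mul_le_one₀ (hP i) (by positivity) (pow_le_one₀ (v.nonneg _) hz)

/-- the identity -/
theorem psi_id (K : IntermediateField F Ω) (g N : ℕ) (φ : F[X]) (x y : Ω) (hx : x ≠ 0)
    (u : (Fin (N + g + 1) ⊕ Fin N) → K) :
    ∑ k, (u k : Ω) * eE x y (N + g + 1) N k = x ^ (N + g) *
      (aeval x⁻¹ (psiF g N (φ.map (algebraMap F K)) u) +
        (∑ j : Fin N, (u (Sum.inr j) : Ω) * x⁻¹ ^ (N - 1 - (j : ℕ))) *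
          (y * x⁻¹ ^ (g + 1) - aeval x⁻¹ φ)) := by
  have e1 : aeval x⁻¹ (psiF g N (φ.map (algebraMap F K)) u) =
      ∑ n : Fin (N + g + 1), (u (Sum.inl n) : Ω) * x⁻¹ ^ (N + g - (n : ℕ)) +
        (∑ j : Fin N, (u (Sum.inr j) : Ω) * x⁻¹ ^ (N - 1 - (j : ℕ))) * aeval x⁻¹ φ := by
    rw [psiF, map_add, map_mul, map_sum, map_sum, aeval_map_algebraMap]
    congr 1
    · refine sum_congr rfl fun n _ => ?_
      rw [map_mul, aeval_C, map_pow, aeval_X]
      rfl
    · congr 1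
      refine sum_congr rfl fun n _ => ?_
      rw [map_mul, aeval_C, map_pow, aeval_X]
      rfl
  rw [e1, Fintype.sum_sum_type]
  have e2 : ∑ n : Fin (N + g + 1), (u (Sum.inl n) : Ω) * eE x y (N + g + 1) N (Sum.inl n) =
      x ^ (N + g) * ∑ n : Fin (N + g + 1), (u (Sum.inl n) : Ω) * x⁻¹ ^ (N + g - (n : ℕ)) := by
    rw [mul_sum]
    refine sum_congr rfl fun n _ => ?_
    have h1 : x ^ (N + g) = x ^ (n : ℕ) * x ^ (N + g - (n : ℕ)) := by
      rw [← pow_add]
      congr 1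
      omega
    have h2 : x ^ (N + g - (n : ℕ)) * x⁻¹ ^ (N + g - (n : ℕ)) = 1 := by
      rw [← mul_pow, mul_inv_cancel₀ hx, one_pow]
    change (u (Sum.inl n) : Ω) * x ^ (n : ℕ) = _
    rw [h1]
    linear_combination (-((u (Sum.inl n) : Ω) * x ^ (n : ℕ))) * h2
  have e3 : ∑ j : Fin N, (u (Sum.inr j) : Ω) * eE x y (N + g + 1) N (Sum.inr j) =
      x ^ (N + g) * ((∑ j : Fin N, (u (Sum.inr j) : Ω) * x⁻¹ ^ (N - 1 - (j : ℕ))) *
        (y * x⁻¹ ^ (g + 1))) := by
    rw [sum_mul, mul_sum]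
    refine sum_congr rfl fun n _ => ?_
    have h1 : x ^ (N + g) = x ^ (n : ℕ) * x ^ (N - 1 - (n : ℕ)) * x ^ (g + 1) := by
      rw [← pow_add, ← pow_add]
      congr 1
      have := n.2
      omega
    have h2 : x ^ (N - 1 - (n : ℕ)) * x⁻¹ ^ (N - 1 - (n : ℕ)) = 1 := by
      rw [← mul_pow, mul_inv_cancel₀ hx, one_pow]
    have h3 : x ^ (g + 1) * x⁻¹ ^ (g + 1) = 1 := by
      rw [← mul_pow, mul_inv_cancel₀ hx, one_pow]
    change (u (Sum.inr n) : Ω) * (x ^ (n : ℕ) * y) = _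
    rw [h1]
    have h4 : x ^ (n : ℕ) * x ^ (N - 1 - (n : ℕ)) * x ^ (g + 1) *
        ((u (Sum.inr n) : Ω) * x⁻¹ ^ (N - 1 - (n : ℕ)) * (y * x⁻¹ ^ (g + 1))) =
        (u (Sum.inr n) : Ω) * (x ^ (n : ℕ) * y) *
          ((x ^ (N - 1 - (n : ℕ)) * x⁻¹ ^ (N - 1 - (n : ℕ))) *
            (x ^ (g + 1) * x⁻¹ ^ (g + 1))) := by ring
    rw [h4, h2, h3, mul_one, mul_one]
  rw [e2, e3]
  ring

end

/-- (LOCA) -/
theorem LOCA (hDIV : ST_DIV) (hSQR : ST_SQR) : ST_LOCA := by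
  classical
  intro F Ω _ _ _ _ K v g N f lam c x y t₀ hv hF hfm hfd hcu hlam hx ht₀ hvt hc0 hclam hxt
  have hu := hv.1
  have hx0 : x ≠ 0 := by
    rintro rfl
    rw [map_zero] at hx
    exact (Real.exp_pos lam).ne hx
  have hvi : v x⁻¹ = Real.exp (-lam) := by
    rw [map_inv₀, hx, Real.exp_neg]
  have hvi1 : v x⁻¹ ≤ 1 := by
    rw [hvi]
    exact Real.exp_le_one_iff.2 (by linarith)
  obtain ⟨φ, hφ⟩ := hSQR F Ω v g (2 * (2 * N + g + 1)) f lam x y hv hF hfm hfd hcu hlam hx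
  obtain ⟨t, rfl⟩ : ∃ t : K, (t : Ω) = t₀ := ⟨⟨t₀, ht₀⟩, rfl⟩
  refine ⟨fun b => flagW g N (φ.map (algebraMap F K)) t b, fun b _ => flagW_dim _ _ _ _ _, ?_⟩
  intro b hb u hub huv
  have hmon : ((X - C t) ^ b : K[X]).Monic := (monic_X_sub_C t).pow b
  have hdvd := flagW_dvd g N (φ.map (algebraMap F K)) t b u hub
  have hCm : ∀ a : K, v (a : Ω) ≤ 1 → (C a : K[X]) ∈ lifts (vr K v hu).subtype := by
    intro a ha
    exact C_mem_lifts (vr K v hu).subtype ⟨a, ha⟩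
  have hφm : φ.map (algebraMap F K) ∈ lifts (vr K v hu).subtype := by
    rw [← ip_iff]
    intro i
    rw [coeff_map]
    by_cases h0 : φ.coeff i = 0
    · rw [h0, map_zero, ZeroMemClass.coe_zero, map_zero]
      exact zero_le_one
    · exact (hF _ h0).le
  have hG1 : ∀ i, v (((X - C t) ^ b : K[X]).coeff i : Ω) ≤ 1 := by
    rw [ip_iff K v hu]
    refine pow_mem ?_ b
    rw [sub_eq_add_neg, ← C_neg]
    refine add_mem (X_mem_lifts _) (hCm _ ?_)
    rw [NegMemClass.coe_neg, v.map_neg]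
    exact hvt
  have hP1 : ∀ i, v ((psiF g N (φ.map (algebraMap F K)) u).coeff i : Ω) ≤ 1 := by
    rw [ip_iff K v hu, psiF]
    refine add_mem (sum_mem fun n _ => mul_mem (hCm _ (huv _)) (X_pow_mem_lifts _ _))
      (mul_mem (sum_mem fun n _ => mul_mem (hCm _ (huv _)) (X_pow_mem_lifts _ _)) hφm)
  obtain ⟨Q, hQ, hQ1⟩ := hDIV F Ω K v _ _ hu hmon hG1 hP1 hdvd
  have hA : v (aeval x⁻¹ (psiF g N (φ.map (algebraMap F K)) u)) ≤
      Real.exp (b * (c - 2 * lam)) := by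
    rw [hQ, map_mul, map_mul, map_pow, map_pow, map_sub, aeval_X, aeval_C]
    calc v (x⁻¹ - algebraMap K Ω t) ^ b * v (aeval x⁻¹ Q)
        ≤ Real.exp (c - 2 * lam) ^ b * 1 :=
          mul_le_mul (pow_le_pow_left₀ (v.nonneg _) hxt b) (aeval_ip K v hu Q hQ1 hvi1)
            (v.nonneg _) (by positivity)
      _ = Real.exp (b * (c - 2 * lam)) := by rw [mul_one, ← Real.exp_nat_mul]
  have hB : v ((∑ j : Fin N, (u (Sum.inr j) : Ω) * x⁻¹ ^ (N - 1 - (j : ℕ))) *
      (y * x⁻¹ ^ (g + 1) - aeval x⁻¹ φ)) ≤ Real.exp (b * (c - 2 * lam)) := by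
    rw [map_mul]
    calc v (∑ j : Fin N, (u (Sum.inr j) : Ω) * x⁻¹ ^ (N - 1 - (j : ℕ))) *
          v (y * x⁻¹ ^ (g + 1) - aeval x⁻¹ φ)
        ≤ 1 * Real.exp (-((2 * (2 * N + g + 1) : ℕ) * lam)) := by
          refine mul_le_mul ?_ hφ (v.nonneg _) zero_le_one
          refine v_sum_le v hu _ _ zero_le_one fun j _ => ?_
          rw [map_mul, map_pow]
          exact mul_le_one₀ (huv _) (by positivity) (pow_le_one₀ (v.nonneg _) hvi1)
      _ = Real.exp (-((2 * (2 * N + g + 1) : ℕ) * lam)) := one_mul _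
      _ ≤ Real.exp (b * (c - 2 * lam)) := by
          refine Real.exp_le_exp.2 ?_
          have h1 : (b : ℝ) ≤ 2 * N + g + 1 := by exact_mod_cast hb.le
          have h2 : (b : ℝ) * lam ≤ (2 * N + g + 1) * lam :=
            mul_le_mul_of_nonneg_right h1 hlam.le
          have h3 : 0 ≤ (b : ℝ) * c := by positivity
          push_cast
          linarith
  rw [psi_id K g N φ x y hx0 u, map_mul, map_pow, hx, ← Real.exp_nat_mul, Real.exp_add]
  push_cast
  exact mul_le_mul_of_nonneg_left ((hu _ _).trans (max_le hA hB)) (Real.exp_pos _).le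

end Pool.Agent.Helper2.HX
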