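import Pool.Agent.Helper71.HN.SheetP
import Pool.Agent.Helper2.HN.LOCA

/-! Sheet P, row LOCO: the flag at a pole place, odd degree. -/

set_option autoImplicit false

namespace Pool.Agent.Helper2.HP

open Polynomial Finset Pool.Agent.Helper71.JN Pool.Agent.Helper71.HN Pool.Agent.Helper77.HE
  Pool.Agent.Helper71.HX Pool.Agent.Helper71.HP Pool.Agent.Helper2.HX

section
variable {k : Type} [Field k] {κ : Type} [Fintype κ]

/-- the flag of a linear map to polynomials -/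
noncomputable def flagL (L : (κ → k) →ₗ[k] k[X]) (t : k) (b : ℕ) : Submodule k (κ → k) :=
  LinearMap.ker ((modByMonicHom ((X - C t) ^ b)).comp L)

theorem flagL_dvd (L : (κ → k) →ₗ[k] k[X]) (t : k) (b : ℕ) (u : κ → k)
    (h : u ∈ flagL L t b) : (X - C t) ^ b ∣ L u := by
  have hmon : ((X - C t) ^ b : k[X]).Monic := (monic_X_sub_C t).pow b
  unfold flagL at h
  rw [LinearMap.mem_ker, LinearMap.comp_apply, modByMonicHom_apply] at h
  exact (modByMonic_eq_zero_iff_dvd hmon).1 h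

theorem flagL_dim (L : (κ → k) →ₗ[k] k[X]) (t : k) (b : ℕ) :
    Fintype.card κ ≤ Module.finrank k (flagL L t b) + b := by
  have hmon : ((X - C t) ^ b : k[X]).Monic := (monic_X_sub_C t).pow b
  have h1 := LinearMap.finrank_range_add_finrank_ker ((modByMonicHom ((X - C t) ^ b)).comp L)
  have h2 : Module.finrank k (κ → k) = Fintype.card κ := Module.finrank_fintype_fun_eq_card k
  have h3 : LinearMap.range ((modByMonicHom ((X - C t) ^ b)).comp L) ≤ degreeLT k b := by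
    rintro P ⟨u, rfl⟩
    rw [LinearMap.comp_apply, modByMonicHom_apply, mem_degreeLT]
    refine lt_of_lt_of_le (degree_modByMonic_lt _ hmon) ?_
    rw [degree_pow, degree_X_sub_C, nsmul_one]
  have h4 : Module.finrank k (degreeLT k b) = b := by
    rw [(degreeLTEquiv k b).finrank_eq, Module.finrank_fin_fun]
  have : Module.Finite k (degreeLT k b) := Module.Finite.equiv (degreeLTEquiv k b).symm
  have h5 := Submodule.finrank_mono h3
  rw [h4] at h5
  rw [h2] at h1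
  unfold flagL
  omega

/-- the polynomial `Ψ u` -/
noncomputable def psoF (g N : ℕ) (φ : k[X]) (u : (Fin (N + g + 1) ⊕ Fin N) → k) : k[X] :=
  ∑ n : Fin (N + g + 1), C (u (Sum.inl n)) * X ^ (2 * (N + g - (n : ℕ))) +
    (∑ j : Fin N, C (u (Sum.inr j)) * X ^ (2 * (N - 1 - (j : ℕ)) + 1)) * φ

theorem psoF_add (g N : ℕ) (φ : k[X]) (u w : (Fin (N + g + 1) ⊕ Fin N) → k) :
    psoF g N φ (u + w) = psoF g N φ u + psoF g N φ w := by
  unfold psoF
  simp only [Pi.add_apply, map_add, add_mul, sum_add_distrib]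
  ring

theorem psoF_smul (g N : ℕ) (φ : k[X]) (a : k) (u : (Fin (N + g + 1) ⊕ Fin N) → k) :
    psoF g N φ (a • u) = a • psoF g N φ u := by
  have h1 : ∑ n : Fin (N + g + 1), C ((a • u) (Sum.inl n)) * X ^ (2 * (N + g - (n : ℕ))) =
      C a * ∑ n : Fin (N + g + 1), C (u (Sum.inl n)) * X ^ (2 * (N + g - (n : ℕ))) := by
    rw [mul_sum]
    refine sum_congr rfl fun n _ => ?_
    rw [Pi.smul_apply, smul_eq_mul, C_mul, mul_assoc]
  have h2 : ∑ j : Fin N, C ((a • u) (Sum.inr j)) * X ^ (2 * (N - 1 - (j : ℕ)) + 1) =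
      C a * ∑ j : Fin N, C (u (Sum.inr j)) * X ^ (2 * (N - 1 - (j : ℕ)) + 1) := by
    rw [mul_sum]
    refine sum_congr rfl fun n _ => ?_
    rw [Pi.smul_apply, smul_eq_mul, C_mul, mul_assoc]
  unfold psoF
  rw [h1, h2, smul_eq_C_mul, mul_add, mul_assoc]

/-- the polynomial `Ψ u` -/
noncomputable def pso (g N : ℕ) (φ : k[X]) : ((Fin (N + g + 1) ⊕ Fin N) → k) →ₗ[k] k[X] where
  toFun := psoF g N φ
  map_add' := psoF_add g N φ
  map_smul' := psoF_smul g N φ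

end

section
variable {F Ω : Type} [Field F] [Field Ω] [Algebra F Ω]

theorem pso_aeval (K : IntermediateField F Ω) (g N : ℕ) (φ : F[X]) (T : Ω)
    (u : (Fin (N + g + 1) ⊕ Fin N) → K) :
    aeval T (psoF g N ((φ.comp (X ^ 2)).map (algebraMap F K)) u) =
      ∑ n : Fin (N + g + 1), (u (Sum.inl n) : Ω) * T ^ (2 * (N + g - (n : ℕ))) +
        (∑ j : Fin N, (u (Sum.inr j) : Ω) * T ^ (2 * (N - 1 - (j : ℕ)) + 1)) *
          aeval (T ^ 2) φ := by
  rw [psoF, map_add, map_mul, map_sum, map_sum, aeval_map_algebraMap, aeval_comp, map_pow, aeval_X]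
  congr 1
  · refine sum_congr rfl fun n _ => ?_
    rw [map_mul, aeval_C, map_pow, aeval_X]
    rfl
  · congr 1
    refine sum_congr rfl fun n _ => ?_
    rw [map_mul, aeval_C, map_pow, aeval_X]
    rfl

/-- the identity -/
theorem pso_id (K : IntermediateField F Ω) (g N : ℕ) (φ : F[X]) (x y T : Ω)
    (u : (Fin (N + g + 1) ⊕ Fin N) → K) :
    T ^ (2 * (N + g)) * ∑ k, (u k : Ω) * eE x y (N + g + 1) N k =
      aeval T (psoF g N ((φ.comp (X ^ 2)).map (algebraMap F K)) u) +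
        (∑ n : Fin (N + g + 1), (u (Sum.inl n) : Ω) * (T ^ (2 * (N + g - (n : ℕ))) *
          ((x * T ^ 2) ^ (n : ℕ) - 1)) +
        ∑ j : Fin N, (u (Sum.inr j) : Ω) * (T ^ (2 * (N - 1 - (j : ℕ)) + 1) *
          ((x * T ^ 2) ^ (j : ℕ) * (y * T ^ (2 * g + 1) - aeval (T ^ 2) φ) +
            ((x * T ^ 2) ^ (j : ℕ) - 1) * aeval (T ^ 2) φ))) := by
  rw [pso_aeval, Fintype.sum_sum_type, mul_add, mul_sum, mul_sum]
  have e1 : ∀ n : Fin (N + g + 1), T ^ (2 * (N + g)) *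
      ((u (Sum.inl n) : Ω) * eE x y (N + g + 1) N (Sum.inl n)) =
      (u (Sum.inl n) : Ω) * T ^ (2 * (N + g - (n : ℕ))) +
        (u (Sum.inl n) : Ω) * (T ^ (2 * (N + g - (n : ℕ))) * ((x * T ^ 2) ^ (n : ℕ) - 1)) := by
    intro n
    have h1 : T ^ (2 * (N + g)) = T ^ (2 * (N + g - (n : ℕ))) * T ^ (2 * (n : ℕ)) := by
      rw [← pow_add]
      congr 1
      omega
    change T ^ (2 * (N + g)) * ((u (Sum.inl n) : Ω) * x ^ (n : ℕ)) = _
    rw [h1, mul_pow, ← pow_mul]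
    ring
  have e2 : ∀ j : Fin N, T ^ (2 * (N + g)) *
      ((u (Sum.inr j) : Ω) * eE x y (N + g + 1) N (Sum.inr j)) =
      (u (Sum.inr j) : Ω) * T ^ (2 * (N - 1 - (j : ℕ)) + 1) * aeval (T ^ 2) φ +
        (u (Sum.inr j) : Ω) * (T ^ (2 * (N - 1 - (j : ℕ)) + 1) *
          ((x * T ^ 2) ^ (j : ℕ) * (y * T ^ (2 * g + 1) - aeval (T ^ 2) φ) +
            ((x * T ^ 2) ^ (j : ℕ) - 1) * aeval (T ^ 2) φ)) := by
    intro j
    have h1 : T ^ (2 * (N + g)) =
        T ^ (2 * (N - 1 - (j : ℕ)) + 1) * T ^ (2 * (j : ℕ)) * T ^ (2 * g + 1) := by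
      rw [← pow_add, ← pow_add]
      congr 1
      have := j.2
      omega
    change T ^ (2 * (N + g)) * ((u (Sum.inr j) : Ω) * (x ^ (j : ℕ) * y)) = _
    rw [h1, mul_pow, ← pow_mul T 2 (j : ℕ)]
    ring
  rw [sum_congr rfl fun n _ => e1 n, sum_congr rfl fun j _ => e2 j, sum_add_distrib,
    sum_add_distrib, sum_mul]
  ring

theorem v_pow_sub_one_le (v : AbsoluteValue Ω ℝ) (hu : ∀ a b, v (a + b) ≤ max (v a) (v b))
    {z : Ω} (hz : v z ≤ 1) (n : ℕ) : v (z ^ n - 1) ≤ v (z - 1) := by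
  induction n with
  | zero =>
    rw [pow_zero, sub_self, map_zero]
    exact v.nonneg _
  | succ n ih =>
    have e : z ^ (n + 1) - 1 = z ^ n * (z - 1) + (z ^ n - 1) := by ring
    rw [e]
    refine (hu _ _).trans (max_le ?_ ih)
    rw [map_mul, map_pow]
    exact mul_le_of_le_one_left (v.nonneg _) (pow_le_one₀ (v.nonneg _) hz)

end

/-- (LOCO) -/
theorem LOCO (hDIV : ST_DIV) : ST_LOCO := by
  classical
  intro F Ω _ _ _ _ K v g N J φ lam c x y t₀ T₁ hv hF hlam hx hT hJ hxT hyT ht₀ hvt hc0 hclam hTt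
  have hu := hv.1
  have hT1 : v T₁ ≤ 1 := by
    rw [hT]
    exact Real.exp_le_one_iff.2 (by linarith)
  have hT0 : T₁ ≠ 0 := by
    rintro rfl
    rw [map_zero] at hT
    exact (Real.exp_pos _).ne hT
  have hE1 : Real.exp (-(J * lam)) ≤ 1 := Real.exp_le_one_iff.2 (by
    have : 0 ≤ (J : ℝ) * lam := by positivity
    linarith)
  have hxT1 : v (x * T₁ ^ 2) ≤ 1 := by
    have e : x * T₁ ^ 2 = (x * T₁ ^ 2 - 1) + 1 := by ring
    rw [e]
    exact (hu _ _).trans (max_le (hxT.trans hE1) (by rw [map_one]))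
  have hφ1 : v (aeval (T₁ ^ 2) φ) ≤ 1 := by
    refine aeval_le1 v hu hF _ ?_ φ
    rw [map_pow]
    exact pow_le_one₀ (v.nonneg _) hT1
  obtain ⟨t, rfl⟩ : ∃ t : K, (t : Ω) = t₀ := ⟨⟨t₀, ht₀⟩, rfl⟩
  refine ⟨fun b => flagL (pso g N ((φ.comp (X ^ 2)).map (algebraMap F K))) t b, fun b _ => ?_, ?_⟩
  · have h1 := flagL_dim (pso g N ((φ.comp (X ^ 2)).map (algebraMap F K))) t b
    rw [Fintype.card_sum, Fintype.card_fin, Fintype.card_fin] at h1
    have h2 : 2 * N + g + 1 = N + g + 1 + N := by omega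
    rw [h2]
    exact h1
  intro b hb u hub huv
  have hmon : ((X - C t) ^ b : K[X]).Monic := (monic_X_sub_C t).pow b
  have hdvd : (X - C t) ^ b ∣ psoF g N ((φ.comp (X ^ 2)).map (algebraMap F K)) u :=
    flagL_dvd (pso g N ((φ.comp (X ^ 2)).map (algebraMap F K))) t b u hub
  have hCm : ∀ a : K, v (a : Ω) ≤ 1 → (C a : K[X]) ∈ lifts (vr K v hu).subtype := by
    intro a ha
    exact C_mem_lifts (vr K v hu).subtype ⟨a, ha⟩
  have hφm : (φ.comp (X ^ 2)).map (algebraMap F K) ∈ lifts (vr K v hu).subtype := by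
    rw [← ip_iff]
    intro i
    rw [coeff_map]
    by_cases h0 : (φ.comp (X ^ 2)).coeff i = 0
    · rw [h0, map_zero, ZeroMemClass.coe_zero, map_zero]
      exact zero_le_one
    · exact (hF _ h0).le
  have hG1 : ∀ i, v (((X - C t) ^ b : K[X]).coeff i : Ω) ≤ 1 := by
    rw [ip_iff K v hu]
    refine pow_mem ?_ b
    rw [sub_eq_add_neg, ← C_neg]
    refine add_mem (X_mem_lifts _) (hCm _ ?_)
    rw [NegMemClass.coe_neg, v.map_neg]
    exact hvt
  have hP1 : ∀ i, v ((psoF g N ((φ.comp (X ^ 2)).map (algebraMap F K)) u).coeff i : Ω) ≤ 1 := by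
    rw [ip_iff K v hu, psoF]
    refine add_mem (sum_mem fun n _ => mul_mem (hCm _ (huv _)) (X_pow_mem_lifts _ _))
      (mul_mem (sum_mem fun n _ => mul_mem (hCm _ (huv _)) (X_pow_mem_lifts _ _)) hφm)
  obtain ⟨Q, hQ, hQ1⟩ := hDIV F Ω K v _ _ hu hmon hG1 hP1 hdvd
  have hA : v (aeval T₁ (psoF g N ((φ.comp (X ^ 2)).map (algebraMap F K)) u)) ≤
      Real.exp (b * (c - 3 * lam)) := by
    rw [hQ, map_mul, map_mul, map_pow, map_pow, map_sub, aeval_X, aeval_C]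
    calc v (T₁ - algebraMap K Ω t) ^ b * v (aeval T₁ Q)
        ≤ Real.exp (c - 3 * lam) ^ b * 1 :=
          mul_le_mul (pow_le_pow_left₀ (v.nonneg _) hTt b) (aeval_ip K v hu Q hQ1 hT1)
            (v.nonneg _) (by positivity)
      _ = Real.exp (b * (c - 3 * lam)) := by rw [mul_one, ← Real.exp_nat_mul]
  have hJb : Real.exp (-(J * lam)) ≤ Real.exp (b * (c - 3 * lam)) := by
    refine Real.exp_le_exp.2 ?_
    have h0 : 3 * (b : ℝ) ≤ J := by exact_mod_cast (by omega : 3 * b ≤ J)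
    have h2 : 3 * (b : ℝ) * lam ≤ J * lam := mul_le_mul_of_nonneg_right h0 hlam.le
    have h3 : 0 ≤ (b : ℝ) * c := by positivity
    linarith
  have hm1 : ∀ a b : Ω, v a ≤ 1 → v (a * b) ≤ v b := by
    intro a b ha
    rw [map_mul]
    exact mul_le_of_le_one_left (v.nonneg _) ha
  have hpT : ∀ n : ℕ, v (T₁ ^ n) ≤ 1 := fun n => by
    rw [map_pow]
    exact pow_le_one₀ (v.nonneg _) hT1
  have hpx : ∀ n : ℕ, v ((x * T₁ ^ 2) ^ n) ≤ 1 := fun n => by
    rw [map_pow]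
    exact pow_le_one₀ (v.nonneg _) hxT1
  have hpm : ∀ n : ℕ, v ((x * T₁ ^ 2) ^ n - 1) ≤ Real.exp (-(J * lam)) := fun n =>
    (v_pow_sub_one_le v hu hxT1 n).trans hxT
  have hB : v (∑ n : Fin (N + g + 1), (u (Sum.inl n) : Ω) * (T₁ ^ (2 * (N + g - (n : ℕ))) *
      ((x * T₁ ^ 2) ^ (n : ℕ) - 1)) +
      ∑ j : Fin N, (u (Sum.inr j) : Ω) * (T₁ ^ (2 * (N - 1 - (j : ℕ)) + 1) *
        ((x * T₁ ^ 2) ^ (j : ℕ) * (y * T₁ ^ (2 * g + 1) - aeval (T₁ ^ 2) φ) +
          ((x * T₁ ^ 2) ^ (j : ℕ) - 1) * aeval (T₁ ^ 2) φ))) ≤ Real.exp (-(J * lam)) := by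
    refine (hu _ _).trans (max_le ?_ ?_)
    · refine v_sum_le v hu _ _ (Real.exp_pos _).le fun n _ => ?_
      exact ((hm1 _ _ (huv _)).trans (hm1 _ _ (hpT _))).trans (hpm _)
    · refine v_sum_le v hu _ _ (Real.exp_pos _).le fun n _ => ?_
      refine ((hm1 _ _ (huv _)).trans (hm1 _ _ (hpT _))).trans ?_
      refine (hu _ _).trans (max_le ((hm1 _ _ (hpx _)).trans hyT) ?_)
      rw [mul_comm]
      exact (hm1 _ _ hφ1).trans (hpm _)
  have hC := pso_id K g N φ x y T₁ u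
  have hD : v (T₁ ^ (2 * (N + g)) * ∑ k, (u k : Ω) * eE x y (N + g + 1) N k) ≤
      Real.exp (b * (c - 3 * lam)) := by
    rw [hC]
    exact (hu _ _).trans (max_le hA (hB.trans hJb))
  rw [map_mul, map_pow, hT, ← Real.exp_nat_mul] at hD
  have h9 : Real.exp (2 * (N + g) * lam + b * (c - 3 * lam)) =
      Real.exp (2 * (N + g) * lam) * Real.exp (b * (c - 3 * lam)) := Real.exp_add _ _
  have h8 : Real.exp (2 * (N + g) * lam) * Real.exp (((2 * (N + g) : ℕ) : ℝ) * -lam) = 1 := by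
    rw [← Real.exp_add]
    push_cast
    rw [← Real.exp_zero]
    congr 1
    ring
  rw [h9]
  calc v (∑ k, (u k : Ω) * eE x y (N + g + 1) N k)
      = Real.exp (2 * (N + g) * lam) * (Real.exp (((2 * (N + g) : ℕ) : ℝ) * -lam) *
          v (∑ k, (u k : Ω) * eE x y (N + g + 1) N k)) := by
        rw [← mul_assoc, h8, one_mul]
    _ ≤ Real.exp (2 * (N + g) * lam) * Real.exp (b * (c - 3 * lam)) :=
        mul_le_mul_of_nonneg_left hD (Real.exp_pos _).le

end Pool.Agent.Helper2.HP
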