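import Pool.Agent.Helper2.HN.LOCO
import Pool.Agent.Helper2.HN.SQO

/-! Sheet P2: the flag at a pole place, odd degree, without `0 ≤ c`. -/

set_option autoImplicit false

namespace Pool.Agent.Helper2.HP

open Polynomial Finset Pool.Agent.Helper71.JN Pool.Agent.Helper71.HN Pool.Agent.Helper77.HE
  Pool.Agent.Helper71.HX Pool.Agent.Helper71.HP Pool.Agent.Helper2.HX

/-- (LOCO2) -/
def LOC2 : Prop := ∀ (F Ω : Type) [Field F] [Field Ω] [CharZero Ω] [Algebra F Ω]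
  (K : IntermediateField F Ω) (v : AbsoluteValue Ω ℝ) (g N J : ℕ) (φ : F[X]) (lam c : ℝ)
  (x y t₀ T₁ : Ω), Ul v → (∀ c : F, c ≠ 0 → v (algebraMap F Ω c) = 1) → 0 < lam →
  v x = Real.exp (2 * lam) → v T₁ = Real.exp (-lam) →
  (2 * N + g + 1) * (3 * lam - c) ≤ J * lam →
  v (x * T₁ ^ 2 - 1) ≤ Real.exp (-(J * lam)) →
  v (y * T₁ ^ (2 * g + 1) - aeval (T₁ ^ 2) φ) ≤ Real.exp (-(J * lam)) → t₀ ∈ K →
  v t₀ ≤ 1 → c ≤ 2 * lam → v (T₁ - t₀) ≤ Real.exp (c - 3 * lam) →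
  ∃ W : ℕ → Submodule K ((Fin (N + g + 1) ⊕ Fin N) → K),
    (∀ b, b < 2 * N + g + 1 → 2 * N + g + 1 ≤ Module.finrank K (W b) + b) ∧
    ∀ b, b < 2 * N + g + 1 → ∀ u ∈ W b, (∀ k, v (u k : Ω) ≤ 1) →
      v (∑ k, (u k : Ω) * eE x y (N + g + 1) N k) ≤
        Real.exp (2 * (N + g) * lam + b * (c - 3 * lam))

/-- (LOCO2) -/
theorem LOC2_proof (hDIV : ST_DIV) : LOC2 := by
  classical
  intro F Ω _ _ _ _ K v g N J φ lam c x y t₀ T₁ hv hF hlam hx hT hJ hxT hyT ht₀ hvt hclam hTt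
  have hu := hv.1
  have hT1 : v T₁ ≤ 1 := by
    rw [hT]
    exact Real.exp_le_one_iff.2 (by linarith)
  have hT0 : T₁ ≠ 0 := by
    rintro rfl
    rw [map_zero] at hT
    exact (Real.exp_pos _).ne hT
  have hE1 : Real.exp (-(J * lam)) ≤ 1 := Real.exp_le_one_iff.2 (by
    have : 0 ≤ (J : ℝ) * lam := by positivity
    linarith)
  have hxT1 : v (x * T₁ ^ 2) ≤ 1 := by
    have e : x * T₁ ^ 2 = (x * T₁ ^ 2 - 1) + 1 := by ring
    rw [e]
    exact (hu _ _).trans (max_le (hxT.trans hE1) (by rw [map_one]))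
  have hφ1 : v (aeval (T₁ ^ 2) φ) ≤ 1 := by
    refine aeval_le1 v hu hF _ ?_ φ
    rw [map_pow]
    exact pow_le_one₀ (v.nonneg _) hT1
  obtain ⟨t, rfl⟩ : ∃ t : K, (t : Ω) = t₀ := ⟨⟨t₀, ht₀⟩, rfl⟩
  refine ⟨fun b => flagL (pso g N ((φ.comp (X ^ 2)).map (algebraMap F K))) t b, fun b _ => ?_, ?_⟩
  · have h1 := flagL_dim (pso g N ((φ.comp (X ^ 2)).map (algebraMap F K))) t b
    rw [Fintype.card_sum, Fintype.card_fin, Fintype.card_fin] at h1
    have h2 : 2 * N + g + 1 = N + g + 1 + N := by omega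
    rw [h2]
    exact h1
  intro b hb u hub huv
  have hmon : ((X - C t) ^ b : K[X]).Monic := (monic_X_sub_C t).pow b
  have hdvd : (X - C t) ^ b ∣ psoF g N ((φ.comp (X ^ 2)).map (algebraMap F K)) u :=
    flagL_dvd (pso g N ((φ.comp (X ^ 2)).map (algebraMap F K))) t b u hub
  have hCm : ∀ a : K, v (a : Ω) ≤ 1 → (C a : K[X]) ∈ lifts (vr K v hu).subtype := by
    intro a ha
    exact C_mem_lifts (vr K v hu).subtype ⟨a, ha⟩
  have hφm : (φ.comp (X ^ 2)).map (algebraMap F K) ∈ lifts (vr K v hu).subtype := by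
    rw [← ip_iff]
    intro i
    rw [coeff_map]
    by_cases h0 : (φ.comp (X ^ 2)).coeff i = 0
    · rw [h0, map_zero, ZeroMemClass.coe_zero, map_zero]
      exact zero_le_one
    · exact (hF _ h0).le
  have hG1 : ∀ i, v (((X - C t) ^ b : K[X]).coeff i : Ω) ≤ 1 := by
    rw [ip_iff K v hu]
    refine pow_mem ?_ b
    rw [sub_eq_add_neg, ← C_neg]
    refine add_mem (X_mem_lifts _) (hCm _ ?_)
    rw [NegMemClass.coe_neg, v.map_neg]
    exact hvt
  have hP1 : ∀ i, v ((psoF g N ((φ.comp (X ^ 2)).map (algebraMap F K)) u).coeff i : Ω) ≤ 1 := by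
    rw [ip_iff K v hu, psoF]
    refine add_mem (sum_mem fun n _ => mul_mem (hCm _ (huv _)) (X_pow_mem_lifts _ _))
      (mul_mem (sum_mem fun n _ => mul_mem (hCm _ (huv _)) (X_pow_mem_lifts _ _)) hφm)
  obtain ⟨Q, hQ, hQ1⟩ := hDIV F Ω K v _ _ hu hmon hG1 hP1 hdvd
  have hA : v (aeval T₁ (psoF g N ((φ.comp (X ^ 2)).map (algebraMap F K)) u)) ≤
      Real.exp (b * (c - 3 * lam)) := by
    rw [hQ, map_mul, map_mul, map_pow, map_pow, map_sub, aeval_X, aeval_C]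
    calc v (T₁ - algebraMap K Ω t) ^ b * v (aeval T₁ Q)
        ≤ Real.exp (c - 3 * lam) ^ b * 1 :=
          mul_le_mul (pow_le_pow_left₀ (v.nonneg _) hTt b) (aeval_ip K v hu Q hQ1 hT1)
            (v.nonneg _) (by positivity)
      _ = Real.exp (b * (c - 3 * lam)) := by rw [mul_one, ← Real.exp_nat_mul]
  have hJb : Real.exp (-(J * lam)) ≤ Real.exp (b * (c - 3 * lam)) := by
    refine Real.exp_le_exp.2 ?_
    have h0 : (b : ℝ) ≤ 2 * N + g + 1 := by exact_mod_cast hb.le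
    have h2 : (b : ℝ) * (3 * lam - c) ≤ (2 * N + g + 1) * (3 * lam - c) :=
      mul_le_mul_of_nonneg_right h0 (by linarith)
    linarith
  have hm1 : ∀ a b : Ω, v a ≤ 1 → v (a * b) ≤ v b := by
    intro a b ha
    rw [map_mul]
    exact mul_le_of_le_one_left (v.nonneg _) ha
  have hpT : ∀ n : ℕ, v (T₁ ^ n) ≤ 1 := fun n => by
    rw [map_pow]
    exact pow_le_one₀ (v.nonneg _) hT1
  have hpx : ∀ n : ℕ, v ((x * T₁ ^ 2) ^ n) ≤ 1 := fun n => by
    rw [map_pow]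
    exact pow_le_one₀ (v.nonneg _) hxT1
  have hpm : ∀ n : ℕ, v ((x * T₁ ^ 2) ^ n - 1) ≤ Real.exp (-(J * lam)) := fun n =>
    (v_pow_sub_one_le v hu hxT1 n).trans hxT
  have hB : v (∑ n : Fin (N + g + 1), (u (Sum.inl n) : Ω) * (T₁ ^ (2 * (N + g - (n : ℕ))) *
      ((x * T₁ ^ 2) ^ (n : ℕ) - 1)) +
      ∑ j : Fin N, (u (Sum.inr j) : Ω) * (T₁ ^ (2 * (N - 1 - (j : ℕ)) + 1) *
        ((x * T₁ ^ 2) ^ (j : ℕ) * (y * T₁ ^ (2 * g + 1) - aeval (T₁ ^ 2) φ) +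
          ((x * T₁ ^ 2) ^ (j : ℕ) - 1) * aeval (T₁ ^ 2) φ))) ≤ Real.exp (-(J * lam)) := by
    refine (hu _ _).trans (max_le ?_ ?_)
    · refine v_sum_le v hu _ _ (Real.exp_pos _).le fun n _ => ?_
      exact ((hm1 _ _ (huv _)).trans (hm1 _ _ (hpT _))).trans (hpm _)
    · refine v_sum_le v hu _ _ (Real.exp_pos _).le fun n _ => ?_
      refine ((hm1 _ _ (huv _)).trans (hm1 _ _ (hpT _))).trans ?_
      refine (hu _ _).trans (max_le ((hm1 _ _ (hpx _)).trans hyT) ?_)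
      rw [mul_comm]
      exact (hm1 _ _ hφ1).trans (hpm _)
  have hC := pso_id K g N φ x y T₁ u
  have hD : v (T₁ ^ (2 * (N + g)) * ∑ k, (u k : Ω) * eE x y (N + g + 1) N k) ≤
      Real.exp (b * (c - 3 * lam)) := by
    rw [hC]
    exact (hu _ _).trans (max_le hA (hB.trans hJb))
  rw [map_mul, map_pow, hT, ← Real.exp_nat_mul] at hD
  have h9 : Real.exp (2 * (N + g) * lam + b * (c - 3 * lam)) =
      Real.exp (2 * (N + g) * lam) * Real.exp (b * (c - 3 * lam)) := Real.exp_add _ _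
  have h8 : Real.exp (2 * (N + g) * lam) * Real.exp (((2 * (N + g) : ℕ) : ℝ) * -lam) = 1 := by
    rw [← Real.exp_add]
    push_cast
    rw [← Real.exp_zero]
    congr 1
    ring
  rw [h9]
  calc v (∑ k, (u k : Ω) * eE x y (N + g + 1) N k)
      = Real.exp (2 * (N + g) * lam) * (Real.exp (((2 * (N + g) : ℕ) : ℝ) * -lam) *
          v (∑ k, (u k : Ω) * eE x y (N + g + 1) N k)) := by
        rw [← mul_assoc, h8, one_mul]
    _ ≤ Real.exp (2 * (N + g) * lam) * Real.exp (b * (c - 3 * lam)) :=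
        mul_le_mul_of_nonneg_left hD (Real.exp_pos _).le

end Pool.Agent.Helper2.HP
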