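import Pool.Agent.Helper2.HN.SQO

/-! Sheet P2: the local parameter at a pole place, odd degree, without `0 ≤ c`. -/

set_option autoImplicit false

namespace Pool.Agent.Helper2.HP

open Polynomial Finset Pool.Agent.Helper71.JN Pool.Agent.Helper71.HN Pool.Agent.Helper77.HE
  Pool.Agent.Helper71.HX Pool.Agent.Helper71.HP Pool.Agent.Helper2.HX

/-- (SQO2) -/
def SQ2 : Prop := ∀ (F Ω : Type) [Field F] [Field Ω] [CharZero Ω] [Algebra F Ω]
  (v : AbsoluteValue Ω ℝ) (g J : ℕ) (f : F[X]) (lam : ℝ) (x y : Ω), Ul v →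
  (∀ c : F, c ≠ 0 → v (algebraMap F Ω c) = 1) → f.Monic → f.natDegree = 2 * g + 1 →
  y ^ 2 = aeval x f → 0 < lam → v x = Real.exp (2 * lam) → 2 ≤ J →
  ∃ (φ : F[X]) (T₁ : Ω), v T₁ = Real.exp (-lam) ∧ v (x * T₁ ^ 2 - 1) ≤ Real.exp (-(J * lam)) ∧
    v (y * T₁ ^ (2 * g + 1) - aeval (T₁ ^ 2) φ) ≤ Real.exp (-(J * lam)) ∧
    ∀ (R : Ω) (c : ℝ), 2 * lam - c ≤ J * lam → c < 2 * lam → v R = Real.exp lam →
      v (x - R ^ 2) ≤ Real.exp c → v (y - R ^ (2 * g + 1)) < Real.exp ((2 * g + 1) * lam) →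
      v (T₁ - R⁻¹) ≤ Real.exp (c - 3 * lam)

/-- (SQO2) -/
theorem SQ2_proof : SQ2 := by
  intro F Ω _ _ _ _ v g J f lam x y hv hF hfm hfd hcu hl hx hJ
  obtain ⟨hu, hq⟩ := hv
  have hF0 : CharZero F := by
    refine ⟨fun a b hab => ?_⟩
    have h1 := congrArg (algebraMap F Ω) hab
    rw [map_natCast, map_natCast] at h1
    exact_mod_cast h1
  have hx0 : x ≠ 0 := by
    intro h0
    rw [h0, map_zero] at hx
    exact (Real.exp_pos _).ne hx
  obtain ⟨z, hz⟩ : ∃ z : Ω, z = x⁻¹ := ⟨_, rfl⟩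
  have hz0 : z ≠ 0 := by
    rw [hz]
    exact inv_ne_zero hx0
  have hzx : z⁻¹ = x := by rw [hz, inv_inv]
  have hxz : x * z = 1 := by rw [hz, mul_inv_cancel₀ hx0]
  have hvz : v z = Real.exp (-(2 * lam)) := by
    rw [hz, map_inv₀, hx, Real.exp_neg]
  have hz1 : v z < 1 := by
    rw [hvz]
    exact Real.exp_lt_one_iff.2 (by linarith)
  obtain ⟨R, hR⟩ : ∃ R : F[X], R = reflect (2 * g + 1) f := ⟨_, rfl⟩
  have hR0 : R.coeff 0 = 1 := by
    rw [hR, coeff_reflect, revAt_le (Nat.zero_le _), Nat.sub_zero, ← hfd]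
    exact hfm
  obtain ⟨S, hS0, hS⟩ := sqrt_poly F R hR0 J (by omega)
  have hRz : aeval z R = z ^ (2 * g + 1) * y ^ 2 := by
    rw [hR, aeval_refl f (2 * g + 1) hfd.le z hz0, hzx, hcu]
  have hone : ∀ P : F[X], P.coeff 0 = 1 → v (aeval z P - 1) < 1 := by
    intro P hP
    have h1 : (X ^ 1 : F[X]) ∣ P - 1 := by
      rw [pow_one, X_dvd_iff, coeff_sub, hP, coeff_one_zero, sub_self]
    have h2 := aeval_le_pow v hu hF z hz1.le _ 1 h1
    rw [map_sub, map_one, pow_one] at h2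
    exact lt_of_le_of_lt h2 hz1
  have hs1 := hone S hS0
  have hr1 := hone R hR0
  have hvs := v_one_of hu hs1
  have hvr := v_one_of hu hr1
  have hr0 : aeval z R ≠ 0 := by
    intro h
    rw [h, map_zero] at hvr
    exact zero_ne_one hvr
  have hy0 : y ≠ 0 := by
    rintro rfl
    rw [zero_pow two_ne_zero, mul_zero] at hRz
    exact hr0 hRz
  have hvy : v y = Real.exp ((2 * g + 1) * lam) := by
    have h1 : v y ^ 2 = Real.exp ((2 * g + 1) * lam) ^ 2 := by
      have h2 := hvr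
      rw [hRz, map_mul, map_pow, map_pow, hvz, ← Real.exp_nat_mul] at h2
      have h3 : Real.exp ((2 * g + 1) * lam) ^ 2 *
          Real.exp (((2 * g + 1 : ℕ) : ℝ) * -(2 * lam)) = 1 := by
        rw [← Real.exp_nat_mul, ← Real.exp_add, Real.exp_eq_one_iff]
        push_cast
        ring
      have h4 : Real.exp (((2 * g + 1 : ℕ) : ℝ) * -(2 * lam)) ≠ 0 := (Real.exp_pos _).ne'
      refine mul_left_cancel₀ h4 ?_
      rw [h2, mul_comm, h3]
    exact (pow_left_inj₀ (v.nonneg _) (Real.exp_pos _).le two_ne_zero).1 h1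
  obtain ⟨T, hT⟩ : ∃ T : Ω, T = x ^ g * aeval z S * y⁻¹ := ⟨_, rfl⟩
  have hyT : y * T = x ^ g * aeval z S := by
    rw [hT]
    field_simp
  have hvT : v T = Real.exp (-lam) := by
    rw [hT, map_mul, map_mul, map_pow, hx, hvs, map_inv₀, hvy, mul_one, ← Real.exp_nat_mul,
      ← Real.exp_neg, ← Real.exp_add]
    congr 1
    ring
  have hT1 : v T ≤ 1 := by
    rw [hvT]
    exact Real.exp_le_one_iff.2 (by linarith)
  have hxT : (x * T ^ 2) * aeval z R = aeval z S ^ 2 := by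
    rw [hRz]
    have e1 : x * T ^ 2 * (z ^ (2 * g + 1) * y ^ 2) = x * (y * T) ^ 2 * z ^ (2 * g + 1) := by ring
    rw [e1, hyT]
    have e2 : x * (x ^ g * aeval z S) ^ 2 * z ^ (2 * g + 1) =
        (x * z) ^ (2 * g + 1) * aeval z S ^ 2 := by ring
    rw [e2, hxz, one_pow, one_mul]
  have hxT1 : v (x * T ^ 2 - 1) ≤ Real.exp (-(J * (2 * lam))) := by
    have h1 : v ((x * T ^ 2 - 1) * aeval z R) ≤ Real.exp (-(J * (2 * lam))) := by
      have e : (x * T ^ 2 - 1) * aeval z R = aeval z (S ^ 2 - R) := by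
        rw [sub_mul, hxT, one_mul, map_sub, map_pow]
      rw [e]
      refine (aeval_le_pow v hu hF z hz1.le _ _ hS).trans (le_of_eq ?_)
      rw [hvz, ← Real.exp_nat_mul]
      congr 1
      ring
    rwa [map_mul, hvr, mul_one] at h1
  have hJ0 : 0 ≤ (J : ℝ) * lam := by positivity
  have hJJ : Real.exp (-(J * (2 * lam))) ≤ Real.exp (-(J * lam)) :=
    Real.exp_le_exp.2 (by linarith)
  have hJ2 : (2 : ℝ) ≤ J := by exact_mod_cast hJ
  have hJl : 2 * lam ≤ J * lam := mul_le_mul_of_nonneg_right hJ2 hl.le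
  have hlt : v (x * T ^ 2 - 1) < 1 := lt_of_le_of_lt hxT1 (Real.exp_lt_one_iff.2 (by linarith))
  have hvxT := v_one_of hu hlt
  refine ⟨S, T, hvT, hxT1.trans hJJ, ?_, ?_⟩
  · have e : y * T ^ (2 * g + 1) - aeval (T ^ 2) S =
        aeval z S * ((x * T ^ 2) ^ g - 1) + (aeval z S - aeval (T ^ 2) S) := by
      have e1 : y * T ^ (2 * g + 1) = (y * T) * T ^ (2 * g) := by ring
      rw [e1, hyT]
      ring
    rw [e]
    refine (hu _ _).trans (max_le ?_ ?_)
    · rw [map_mul, hvs, one_mul]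
      exact (v_pow_sub_one_le v hu hvxT.le g).trans (hxT1.trans hJJ)
    · refine (aeval_sub_le v hu hF hz1.le (by
        rw [map_pow]
        exact pow_le_one₀ (v.nonneg _) hT1) S).trans ?_
      have e1 : z - T ^ 2 = z * (-(x * T ^ 2 - 1)) := by
        linear_combination (T ^ 2) * hxz
      rw [e1, map_mul, v.map_neg]
      exact (mul_le_of_le_one_left (v.nonneg _) hz1.le).trans (hxT1.trans hJJ)
  · intro Q c hc0 hc hQ hxQ hyQ
    have hQ0 : Q ≠ 0 := by
      rintro rfl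
      rw [map_zero] at hQ
      exact (Real.exp_pos _).ne hQ
    have ha : v (x * (Q ^ 2)⁻¹ - 1) < 1 := by
      have e : x * (Q ^ 2)⁻¹ - 1 = (x - Q ^ 2) * (Q ^ 2)⁻¹ := by
        field_simp
      rw [e, map_mul, map_inv₀, map_pow, hQ, ← Real.exp_nat_mul, ← Real.exp_neg]
      calc v (x - Q ^ 2) * Real.exp (-((2 : ℕ) * lam))
          ≤ Real.exp c * Real.exp (-((2 : ℕ) * lam)) :=
            mul_le_mul_of_nonneg_right hxQ (Real.exp_pos _).le
        _ = Real.exp (c - 2 * lam) := by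
            rw [← Real.exp_add]
            congr 1
        _ < 1 := Real.exp_lt_one_iff.2 (by linarith)
    have hb : v (y * (Q ^ (2 * g + 1))⁻¹ - 1) < 1 := by
      have e : y * (Q ^ (2 * g + 1))⁻¹ - 1 = (y - Q ^ (2 * g + 1)) * (Q ^ (2 * g + 1))⁻¹ := by
        field_simp
      have e2 : v ((Q ^ (2 * g + 1))⁻¹) = (Real.exp ((2 * g + 1) * lam))⁻¹ := by
        rw [map_inv₀, map_pow, hQ, ← Real.exp_nat_mul]
        push_cast
        rfl
      rw [e, map_mul, e2]
      calc v (y - Q ^ (2 * g + 1)) * (Real.exp ((2 * g + 1) * lam))⁻¹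
          < Real.exp ((2 * g + 1) * lam) * (Real.exp ((2 * g + 1) * lam))⁻¹ :=
            mul_lt_mul_of_pos_right hyQ (inv_pos.2 (Real.exp_pos _))
        _ = 1 := mul_inv_cancel₀ (Real.exp_pos _).ne'
    have hag : v ((x * (Q ^ 2)⁻¹) ^ g - 1) < 1 :=
      lt_of_le_of_lt (v_pow_sub_one_le v hu (v_one_of hu ha).le g) ha
    have hTQ : v (T * Q - 1) < 1 := by
      have e : T * Q = ((x * (Q ^ 2)⁻¹) ^ g * aeval z S) * (y * (Q ^ (2 * g + 1))⁻¹)⁻¹ := by
        rw [hT, mul_pow, inv_pow, ← pow_mul, mul_inv, inv_inv]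
        have h1 : Q ^ (2 * g + 1) = Q ^ (2 * g) * Q := pow_succ _ _
        rw [h1]
        field_simp
      rw [e]
      exact v_mul_sub hu (v_mul_sub hu hag hs1) (v_inv_sub hu hb)
    have h2 : v (2 : Ω) = 1 := by
      have h3 := hq 2 two_ne_zero
      exact_mod_cast h3
    have hTQ2 : v (T * Q + 1) = 1 := by
      have h3 : v (T * Q + 1) ≤ 1 := by
        refine (hu _ _).trans (max_le (v_one_of hu hTQ).le ?_)
        rw [map_one]
      have h4 : (1 : ℝ) ≤ max (v (T * Q + 1)) (v (T * Q - 1)) := by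
        have h5 := hu (T * Q + 1) (-(T * Q - 1))
        rw [v.map_neg] at h5
        have e : T * Q + 1 + -(T * Q - 1) = 2 := by ring
        rwa [e, h2] at h5
      rcases le_max_iff.1 h4 with h5 | h5
      · exact le_antisymm h3 h5
      · exact absurd h5 (not_le.2 hTQ)
    have hplus : v (T + Q⁻¹) = Real.exp (-lam) := by
      have e : T + Q⁻¹ = Q⁻¹ * (T * Q + 1) := by
        field_simp
      rw [e, map_mul, hTQ2, mul_one, map_inv₀, hQ, Real.exp_neg]
    have hprod : v ((T - Q⁻¹) * (T + Q⁻¹)) ≤ Real.exp (c - 4 * lam) := by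
      have e : (T - Q⁻¹) * (T + Q⁻¹) = z * (x * T ^ 2 - 1) + -(z * ((Q ^ 2)⁻¹ * (x - Q ^ 2))) := by
        have h3 : z * ((Q ^ 2)⁻¹ * (x - Q ^ 2)) = (Q ^ 2)⁻¹ - z := by
          rw [mul_sub, inv_mul_cancel₀ (pow_ne_zero 2 hQ0)]
          linear_combination (Q ^ 2)⁻¹ * hxz
        rw [h3, ← inv_pow]
        linear_combination (-(T ^ 2)) * hxz
      rw [e]
      refine (hu _ _).trans (max_le ?_ ?_)
      · rw [map_mul, hvz]
        calc Real.exp (-(2 * lam)) * v (x * T ^ 2 - 1)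
            ≤ Real.exp (-(2 * lam)) * Real.exp (-(J * lam)) :=
              mul_le_mul_of_nonneg_left (hxT1.trans hJJ) (Real.exp_pos _).le
          _ ≤ Real.exp (c - 4 * lam) := by
              rw [← Real.exp_add]
              exact Real.exp_le_exp.2 (by linarith)
      · rw [v.map_neg, map_mul, map_mul, hvz, map_inv₀, map_pow, hQ, ← Real.exp_nat_mul,
          ← Real.exp_neg]
        calc Real.exp (-(2 * lam)) * (Real.exp (-((2 : ℕ) * lam)) * v (x - Q ^ 2))
            ≤ Real.exp (-(2 * lam)) * (Real.exp (-((2 : ℕ) * lam)) * Real.exp c) := by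
              refine mul_le_mul_of_nonneg_left ?_ (Real.exp_pos _).le
              exact mul_le_mul_of_nonneg_left hxQ (Real.exp_pos _).le
          _ = Real.exp (c - 4 * lam) := by
              rw [← Real.exp_add, ← Real.exp_add]
              congr 1
              push_cast
              ring
    rw [map_mul, hplus] at hprod
    have h9 : Real.exp (c - 4 * lam) = Real.exp (c - 3 * lam) * Real.exp (-lam) := by
      rw [← Real.exp_add]
      congr 1
      ring
    rw [h9] at hprod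
    exact le_of_mul_le_mul_right hprod (Real.exp_pos _)

end Pool.Agent.Helper2.HP
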