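import Pool.Agent.Helper77.HE.SheetP2
import Pool.Agent.Helper2.HN.LOCO2
import Pool.Agent.Helper2.HN.SQO2

/-! Sheet P2, rows SQO2 and LOCO2. -/

set_option autoImplicit false

namespace Pool.Agent.Helper2.HP

open Polynomial Finset Pool.Agent.Helper71.JN Pool.Agent.Helper71.HN Pool.Agent.Helper77.HE
  Pool.Agent.Helper71.HX Pool.Agent.Helper71.HP Pool.Agent.Helper77.HP2

theorem SQO2 : ST_SQO2 := SQ2_proof

theorem LOCO2 (hDIV : ST_DIV) : ST_LOCO2 := by
  intro F Ω _ _ _ _ K v g N J φ lam c x y t₀ T₁ hv hF hlam hx hT hJ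
  refine LOC2_proof hDIV F Ω K v g N J φ lam c x y t₀ T₁ hv hF hlam hx hT ?_
  push_cast at hJ
  exact hJ

end Pool.Agent.Helper2.HP
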