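import Pool.Agent.Helper71.HN.SheetH

set_option autoImplicit false

namespace Pool.Agent.Helper2.HN

open Polynomial Pool.Agent.Helper71.JN Pool.Agent.Helper71.HN

theorem PRQ (hP : ST_PRIM) (hR : ST_RK) : ST_PRQ := by
  intro F Ω _ _ _ I _ r D z hq hz i k
  obtain ⟨q, hqR, hq0, hqO⟩ := hq
  obtain ⟨-, -, -, -, -, -, hRK, -⟩ := hR F Ω I r D
  have hqK : q ∈ D.K := hRK q hqR
  set c : D.K := ⟨q, hqK⟩ with hc
  have hc0 : c ≠ 0 := fun h => hq0 (by simpa [hc] using congrArg Subtype.val h)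
  have hsm : c • z = q * z := by rw [Algebra.smul_def]; rfl
  have hzi : IsIntegral D.K (q * z) := by rw [← hsm]; exact hz.smul c
  have hmin : minpoly D.K (q * z) = (minpoly D.K z).scaleRoots c := by
    rw [← hsm]; exact IsIntegrallyClosed.minpoly_smul hc0 hz
  have h1 := (hP F Ω I r D (q * z) hqO hzi k).2 i
  rw [hmin, natDegree_scaleRoots, coeff_scaleRoots, MulMemClass.coe_mul, SubmonoidClass.coe_pow,
    map_mul, map_mul, map_pow, mul_pow] at h1
  have hpos : 0 < D.nu i q ^ ((minpoly D.K z).natDegree - k) := pow_pos ((D.nu i).pos hq0) _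
  rw [mul_comm] at h1
  exact le_of_mul_le_mul_left h1 hpos

end Pool.Agent.Helper2.HN
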