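import Pool.Agent.Helper71.HN.SheetE
import Pool.Agent.Helper94.SUBW.SLW

/-! Project HE, row T1E: the theorem over a Galois number field, even degree. -/

set_option autoImplicit false

namespace Pool.Agent.Helper2.HE

open Polynomial Filter Finset Pool.Agent.Helper70.SUB Pool.Agent.Helper77.SUBK
  Pool.Agent.Helper70.SUBL Pool.Agent.Helper70.SUBW Pool.Agent.Helper71.JN Pool.Agent.Helper71.HN
  Pool.Agent.Helper71.HZ Pool.Agent.Helper71.HE

section
variable {M : Type} [Field M]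

theorem lead_ne {g : ℕ} {F : M[X]} (hF : F.natDegree = 2 * g + 2) : F.coeff (2 * g + 2) ≠ 0 := by
  rw [← hF]
  refine leadingCoeff_ne_zero.2 fun h => ?_
  rw [h, natDegree_zero] at hF
  omega

theorem pol_eq {g : ℕ} {F : M[X]} (hF : F.natDegree = 2 * g + 2) :
    polD M (2 * g + 2) (fun i => F.coeff i * (F.coeff (2 * g + 2))⁻¹) =
      C (F.coeff (2 * g + 2))⁻¹ * F := by
  have h0 := lead_ne hF
  set l := F.coeff (2 * g + 2) with hl
  have h1 : F = ∑ i ∈ range (2 * g + 3), C (F.coeff i) * X ^ i := by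
    conv_lhs => rw [F.as_sum_range_C_mul_X_pow, hF]
  have h2 : C l⁻¹ * F = C l⁻¹ * ∑ i ∈ range (2 * g + 3), C (F.coeff i) * X ^ i :=
    congrArg (fun z => C l⁻¹ * z) h1
  rw [h2, sum_range_succ, ← hl, mul_add, mul_sum, polD, add_comm]
  congr 1
  · refine sum_congr rfl fun i _ => ?_
    rw [← mul_assoc, ← C_mul, mul_comm (F.coeff i)]
  · rw [← mul_assoc, ← C_mul, inv_mul_cancel₀ h0, C_1, one_mul]

theorem pol_sep {g : ℕ} {F : M[X]} (hF : F.natDegree = 2 * g + 2) (hs : F.Separable) :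
    (polD M (2 * g + 2) (fun i => F.coeff i * (F.coeff (2 * g + 2))⁻¹)).Separable := by
  have h0 := lead_ne hF
  rw [pol_eq hF]
  have hu : IsUnit (C (F.coeff (2 * g + 2))⁻¹ : M[X]) :=
    isUnit_C.2 (IsUnit.mk0 _ (inv_ne_zero h0))
  rw [Separable, derivative_C_mul, isCoprime_mul_unit_left_left hu,
    isCoprime_mul_unit_left_right hu]
  exact hs

theorem pol_ev {g : ℕ} {F : M[X]} {x y s : M} (hF : F.natDegree = 2 * g + 2)
    (h : y ^ 2 = F.eval x) (hs : F.coeff (2 * g + 2) = s ^ 2) : (y * s⁻¹) ^ 2 =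
      (polD M (2 * g + 2) (fun i => F.coeff i * (F.coeff (2 * g + 2))⁻¹)).eval x := by
  rw [pol_eq hF, eval_mul, eval_C, ← h, hs, mul_pow, inv_pow, mul_comm]

end

/-- the data of one point -/
structure Dat (M : Type) [Field M] [NumberField M] (t : ℕ) where
  /-- the polynomial -/
  F : M[X]
  /-- the first coordinate -/
  x : M
  /-- the second coordinate -/
  y : M
  /-- a square root of the leading coefficient -/
  sq : M
  /-- the height of the polynomial -/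
  H : ℝ
  /-- a denominator -/
  m : ℕ
  /-- the place of the rational numbers -/
  v : Option ℕ
  /-- the conjugation -/
  σ : M ≃ₐ[ℚ] M
  /-- coefficients of the numerator -/
  c : Fin t → M
  /-- coefficients of the denominator -/
  d : Fin t → M
  /-- terms of the numerator -/
  a : Fin t → M
  /-- terms of the denominator -/
  b : Fin t → M

theorem T1E (hSLW : ST_SLW) (hSPW : ST_SPW) (hSPH : ST_SPH) (hBRGE : ST_BRGE) : ST_T1E := by
  classical
  intro M _ _ _ S P t g κ δ B hS hg hδ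
  by_contra hcon
  have hex : ∀ j : ℕ, ∃ s : Dat M t, (0 ≤ s.H ∧ s.F.natDegree = 2 * g + 2 ∧ s.F.Separable ∧
      s.y ^ 2 = s.F.eval s.x ∧ s.F.coeff (2 * g + 2) = s.sq ^ 2 ∧
      (∀ i, HBZ P.emb (Real.exp (κ * (s.H + 1))) (s.F.coeff i)) ∧ s.m ≠ 0 ∧
      (s.m : ℝ) ≤ Real.exp (κ * (s.H + 1)) ∧ SI S ((s.m : M) * s.x) ∧ s.v ∈ plc S ∧
      (∀ i, SV S (s.a i)) ∧ (∀ i, SV S (s.b i)) ∧
      (∀ i, HBZ P.emb (Real.exp (κ * (s.H + 1))) (s.c i)) ∧
      (∀ i, HBZ P.emb (Real.exp (κ * (s.H + 1))) (s.d i)) ∧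
      HBZ P.emb (Real.exp (B * (LamP P s.x + s.H + 1))) (∑ i, s.c i * s.a i) ∧
      HBZ P.emb (Real.exp (B * (LamP P s.x + s.H + 1))) (∑ i, s.d i * s.b i) ∧
      ∑ i, s.d i * s.b i ≠ 0 ∧
      max 1 (P.nv s.v (s.σ (s.x - (∑ i, s.c i * s.a i) / ∑ i, s.d i * s.b i))) *
        Real.exp (δ * LamP P s.x) ≤ P.nv s.v (s.σ s.x)) ∧
      ((j : ℝ) + 1) * (s.H + 1) < LamP P s.x := by
    intro j
    by_contra h
    apply hcon
    refine ⟨(j : ℝ) + 1, by positivity, fun F x y sq H m v σ c d a b h0 h1 h2 h3 h4 h5 h6 h7 h8 h9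
      h10 h11 h12 h13 h14 h15 h16 h17 => ?_⟩
    by_contra h'
    exact h ⟨⟨F, x, y, sq, H, m, v, σ, c, d, a, b⟩,
      ⟨h0, h1, h2, h3, h4, h5, h6, h7, h8, h9, h10, h11, h12, h13, h14, h15, h16, h17⟩,
      not_le.1 h'⟩
  choose s hs hlt using hex
  obtain ⟨φ, hφ⟩ : ∃ φ : Ultrafilter ℕ, (φ : Filter ℕ) ≤ atTop := by
    refine ⟨hyperfilter ℕ, ?_⟩
    rw [← Nat.cofinite_eq_atTop]
    exact hyperfilter_le_cofinite
  set F : ℕ → M[X] := fun j => (s j).F with hF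
  set x : ℕ → M := fun j => (s j).x with hx
  set y : ℕ → M := fun j => (s j).y with hy
  set sq : ℕ → M := fun j => (s j).sq with hsq
  set H : ℕ → ℝ := fun j => (s j).H with hH
  set m : ℕ → ℕ := fun j => (s j).m with hm
  set c : Fin t → ℕ → M := fun i j => (s j).c i with hc
  set d : Fin t → ℕ → M := fun i j => (s j).d i with hd
  set a : Fin t → ℕ → M := fun i j => (s j).a i with ha
  set b : Fin t → ℕ → M := fun i j => (s j).b i with hb
  set p : ℕ → M := fun j => ∑ i, c i j * a i j with hp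
  set q : ℕ → M := fun j => ∑ i, d i j * b i j with hq
  set L : ℕ → ℝ := fun j => LamP P (x j) with hL
  set l : ℕ → M := fun j => (F j).coeff (2 * g + 2) with hl
  have f0 : ∀ j, 0 ≤ H j := fun j => (hs j).1
  have f1 : ∀ j, (F j).natDegree = 2 * g + 2 := fun j => (hs j).2.1
  have f2 : ∀ j, (F j).Separable := fun j => (hs j).2.2.1
  have f3 : ∀ j, y j ^ 2 = (F j).eval (x j) := fun j => (hs j).2.2.2.1
  have f4 : ∀ j, (F j).coeff (2 * g + 2) = sq j ^ 2 := fun j => (hs j).2.2.2.2.1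
  have f5 : ∀ j i, HBZ P.emb (Real.exp (κ * (H j + 1))) ((F j).coeff i) :=
    fun j => (hs j).2.2.2.2.2.1
  have f6 : ∀ j, m j ≠ 0 := fun j => (hs j).2.2.2.2.2.2.1
  have f7 : ∀ j, (m j : ℝ) ≤ Real.exp (κ * (H j + 1)) := fun j => (hs j).2.2.2.2.2.2.2.1
  have f8 : ∀ j, SI S ((m j : M) * x j) := fun j => (hs j).2.2.2.2.2.2.2.2.1
  have f9 : ∀ j, (s j).v ∈ plc S := fun j => (hs j).2.2.2.2.2.2.2.2.2.1
  have haS : ∀ i j, SV S (a i j) := fun i j => (hs j).2.2.2.2.2.2.2.2.2.2.1 i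
  have hbS : ∀ i j, SV S (b i j) := fun i j => (hs j).2.2.2.2.2.2.2.2.2.2.2.1 i
  have hcB : ∀ i j, HBZ P.emb (Real.exp (κ * (H j + 1))) (c i j) :=
    fun i j => (hs j).2.2.2.2.2.2.2.2.2.2.2.2.1 i
  have hdB : ∀ i j, HBZ P.emb (Real.exp (κ * (H j + 1))) (d i j) :=
    fun i j => (hs j).2.2.2.2.2.2.2.2.2.2.2.2.2.1 i
  have hpB : ∀ j, HBZ P.emb (Real.exp (B * (L j + H j + 1))) (p j) :=
    fun j => (hs j).2.2.2.2.2.2.2.2.2.2.2.2.2.2.1
  have hqB : ∀ j, HBZ P.emb (Real.exp (B * (L j + H j + 1))) (q j) :=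
    fun j => (hs j).2.2.2.2.2.2.2.2.2.2.2.2.2.2.2.1
  have hq0 : ∀ j, q j ≠ 0 := fun j => (hs j).2.2.2.2.2.2.2.2.2.2.2.2.2.2.2.2.1
  have hmain : ∀ j, max 1 (P.nv (s j).v ((s j).σ (x j - p j / q j))) * Real.exp (δ * L j) ≤
      P.nv (s j).v ((s j).σ (x j)) := fun j => (hs j).2.2.2.2.2.2.2.2.2.2.2.2.2.2.2.2.2
  have hlt' : ∀ j : ℕ, ((j : ℝ) + 1) * (H j + 1) < L j := hlt
  have hl0 : ∀ j, l j ≠ 0 := fun j => lead_ne (f1 j)
  have hHL : ∀ j : ℕ, H j + 1 ≤ L j := fun j => by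
    have h1 := hlt' j
    have h2 : 0 ≤ (j : ℝ) * (H j + 1) := mul_nonneg (Nat.cast_nonneg _) (by linarith [f0 j])
    linarith
  have hLj : ∀ j : ℕ, (j : ℝ) + 1 ≤ L j := fun j => by
    have h1 := hlt' j
    have h2 := f0 j
    have h3 : ((j : ℝ) + 1) * 1 ≤ ((j : ℝ) + 1) * (H j + 1) :=
      mul_le_mul_of_nonneg_left (by linarith) (by positivity)
    linarith
  have hL0 : ∀ j, 0 ≤ L j := fun j => by
    have h1 := hLj j
    have h2 : (0 : ℝ) ≤ j := Nat.cast_nonneg j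
    linarith
  -- the scale
  set X : ℕ → ℝ := fun j => Real.exp (L j) with hX
  have hXr : ∀ (j : ℕ) (e : ℝ), X j ^ e = Real.exp (e * L j) := fun j e => by
    rw [hX, mul_comm]
    exact (Real.exp_mul _ _).symm
  have hXX : Tendsto X (φ : Filter ℕ) atTop := by
    refine Tendsto.mono_left ?_ hφ
    refine Real.tendsto_exp_atTop.comp ?_
    refine tendsto_atTop_mono hLj ?_
    exact tendsto_natCast_atTop_atTop.atTop_add tendsto_const_nhds
  have hE : ∀ K ε : ℝ, 0 < ε → ∀ᶠ j in (φ : Filter ℕ), Real.exp (K * (H j + 1)) ≤ X j ^ ε := by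
    intro K ε hε
    obtain ⟨N, hN⟩ := exists_nat_ge (K / ε)
    filter_upwards [hφ (eventually_ge_atTop N)] with j h2
    have h4 : K / ε ≤ (j : ℝ) + 1 := by
      have : (N : ℝ) ≤ j := by exact_mod_cast h2
      linarith
    rw [div_le_iff₀ hε] at h4
    rw [hXr]
    refine Real.exp_le_exp.2 ?_
    have h5 : K * (H j + 1) ≤ ((j : ℝ) + 1) * ε * (H j + 1) :=
      mul_le_mul_of_nonneg_right h4 (by linarith [f0 j])
    have h6 : ε * (((j : ℝ) + 1) * (H j + 1)) ≤ ε * L j :=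
      mul_le_mul_of_nonneg_left (hlt' j).le hε.le
    linarith
  -- slow sequences
  obtain ⟨_, hops, hinv, _⟩ := hSLW M S P φ X hS hXX
  have hslH : ∀ z : ℕ → M, (∀ j, HBZ P.emb (Real.exp (κ * (H j + 1))) (z j)) →
      Slw P φ X z := by
    intro z hz ε hε
    filter_upwards [hE κ ε hε] with j hj
    obtain ⟨⟨D, h1, h2, h3⟩, h4⟩ := hz j
    exact ⟨D, h1, h2.trans hj, h3, fun σ => by rw [P.inf]; exact (h4 σ).trans hj⟩
  have hslF : ∀ i, Slw P φ X (fun j => (F j).coeff i) := fun i => hslH _ fun j => f5 j i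
  have hsli : Slw P φ X (fun j => (l j)⁻¹) := hinv _ (hslF (2 * g + 2))
  have hsla : ∀ i, Slw P φ X (fun j => (F j).coeff i * (l j)⁻¹) := fun i =>
    (hops _ _ (hslF i) hsli).2
  -- moderate sums
  have hHB : ∀ z : ℕ → M, (∀ j, HBZ P.emb (Real.exp (B * (L j + H j + 1))) (z j)) →
      ∀ᶠ j in (φ : Filter ℕ), HB P (X j ^ (2 * |B|)) (z j) := by
    intro z hz
    refine Eventually.of_forall fun j v hv σ => ?_
    have h5 : Real.exp (B * (L j + H j + 1)) ≤ X j ^ (2 * |B|) := by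
      rw [hXr]
      refine Real.exp_le_exp.2 ?_
      have h6 : 0 ≤ L j + H j + 1 := by linarith [hL0 j, f0 j]
      have h7 : B * (L j + H j + 1) ≤ |B| * (L j + H j + 1) :=
        mul_le_mul_of_nonneg_right (le_abs_self B) h6
      have h8 : |B| * (L j + H j + 1) ≤ |B| * (2 * L j) :=
        mul_le_mul_of_nonneg_left (by linarith [hHL j]) (abs_nonneg B)
      linarith
    refine (Pool.Agent.Helper94.SUBW.SP_nv hS (H := Real.exp (B * (L j + H j + 1))) ?_ hv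
      σ).trans h5
    obtain ⟨⟨D, h1, h2, h3⟩, h4⟩ := hz j
    exact ⟨D, h1, h2, h3, fun τ => by rw [P.inf]; exact h4 τ⟩
  obtain ⟨_, _, _, _, _, _, _, _, _, _, _, _, hSpa⟩ := hSPW M S P φ X hS hXX
  have hpM : SpM P φ X p := by
    refine hSPH M S P φ X p (2 * |B|) hS hXX ?_ (hHB p hpB)
    exact hSpa (Fin t) c a (fun i => hslH _ (hcB i)) fun i => Eventually.of_forall (haS i)
  have hqM : SpM P φ X q := by
    refine hSPH M S P φ X q (2 * |B|) hS hXX ?_ (hHB q hqB)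
    exact hSpa (Fin t) d b (fun i => hslH _ (hdB i)) fun i => Eventually.of_forall (hbS i)
  -- the first coordinate
  have hnv0 : ∀ (j : ℕ) (v : Option ℕ) (hv : v ∈ plc S) (σ : M ≃ₐ[ℚ] M),
      P.nv v (σ (x j)) ≤ X j := by
    intro j v hv σ
    have h3 : Real.log (max 1 (P.nv v (σ (x j)))) ≤ L j := by
      rw [hL]
      exact single_le_sum (f := fun i : Pl S M => Real.log (max 1 (P.nv i.1 (i.2 (x j)))))
        (fun τ _ => Real.log_nonneg (le_max_left _ _)) (mem_univ (⟨v, hv⟩, σ))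
    have h4 : (0 : ℝ) < max 1 (P.nv v (σ (x j))) := lt_of_lt_of_le one_pos (le_max_left _ _)
    refine (le_max_right 1 _).trans ?_
    rw [← Real.exp_log h4]
    exact Real.exp_le_exp.2 h3
  have hOS : OS P φ X x := by
    refine ⟨fun ε hε => ?_, 1, one_pos, Eventually.of_forall fun j v hv σ => ?_⟩
    · filter_upwards [hE κ ε hε] with j h1
      exact ⟨m j, f6 j, (f7 j).trans h1, f8 j⟩
    · rw [Real.rpow_one]
      exact hnv0 j v hv σ
  -- the place
  obtain ⟨⟨v₀, σ₀⟩, hpl⟩ : ∃ i : Pl S M, ∀ᶠ j in (φ : Filter ℕ),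
      ((i.1 : Option ℕ) = (s j).v ∧ i.2 = (s j).σ) := by
    rw [← Ultrafilter.eventually_exists_iff]
    exact Eventually.of_forall fun j => ⟨(⟨(s j).v, f9 j⟩, (s j).σ), rfl, rfl⟩
  refine hBRGE M S P φ g (fun i j => (F j).coeff i * (l j)⁻¹) x (fun j => y j * (sq j)⁻¹) X v₀ σ₀
    p q δ hS hg hδ hXX v₀.2 hpM hqM (fun i _ => hsla i) hOS ?_
  filter_upwards [hpl] with j hj
  have h1 := hmain j
  rw [← hj.1, ← hj.2] at h1
  have h2 : (0 : ℝ) < Real.exp (δ * L j) := Real.exp_pos _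
  refine ⟨pol_sep (f1 j) (f2 j), pol_ev (f1 j) (f3 j) (f4 j), hq0 j, ?_, ?_⟩
  · rw [hXr]
    refine le_trans ?_ h1
    exact le_mul_of_one_le_left h2.le (le_max_left _ _)
  · rw [hXr, neg_mul, Real.exp_neg, inv_mul_eq_div, le_div_iff₀ h2]
    refine le_trans ?_ h1
    exact mul_le_mul_of_nonneg_right (le_max_right _ _) h2.le

end Pool.Agent.Helper2.HE
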