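import Mathlib

/-! Project HN, row T1H: the sign of the square root. -/

set_option autoImplicit false

namespace Pool.Agent.Helper2.HN

open Finset

theorem pow_diff {n : ℕ} {K δ : ℝ} {u v : ℂ} (hu : ‖u‖ ≤ K) (hv : ‖v‖ ≤ K)
    (h : ‖u - v‖ ≤ δ) : ‖u ^ n - v ^ n‖ ≤ n * K ^ (n - 1) * δ := by
  have hK : 0 ≤ K := (norm_nonneg _).trans hu
  rw [← geom_sum₂_mul, norm_mul]
  refine mul_le_mul ?_ h (norm_nonneg _) (by positivity)
  refine (norm_sum_le _ _).trans ?_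
  have h1 : ∀ i ∈ range n, ‖u ^ i * v ^ (n - 1 - i)‖ ≤ K ^ (n - 1) := by
    intro i hi
    rw [norm_mul, norm_pow, norm_pow]
    have h2 : K ^ (n - 1) = K ^ i * K ^ (n - 1 - i) := by
      rw [← pow_add, Nat.add_sub_cancel' (by have := mem_range.1 hi; omega)]
    rw [h2]
    exact mul_le_mul (pow_le_pow_left₀ (norm_nonneg _) hu _)
      (pow_le_pow_left₀ (norm_nonneg _) hv _) (by positivity) (by positivity)
  refine (sum_le_sum h1).trans ?_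
  rw [sum_const, card_range, nsmul_eq_mul]

theorem pickH {g : ℕ} {X A : ℝ} (hX : 2 ≤ X) (hA : 2 * ((2 * g + 1 : ℕ) : ℝ) * A ≤ X)
    (hX2 : 2 * ((2 * g + 1 : ℕ) : ℝ) * 4 ^ g ≤ X ^ (1 / 2 : ℝ)) {x y r : ℂ} {a : ℕ → ℂ}
    (hx : ‖x‖ = X ^ 2) (ha : ∀ i, i < 2 * g + 1 → ‖a i‖ ≤ A)
    (hy : y ^ 2 = x ^ (2 * g + 1) + ∑ i ∈ range (2 * g + 1), a i * x ^ i)
    (hr : ‖x - r ^ 2‖ ≤ X) :
    ‖y - r ^ (2 * g + 1)‖ ≤ X ^ (((2 * g + 1 : ℕ) : ℝ) - 1 / 4) ∨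
      ‖y + r ^ (2 * g + 1)‖ ≤ X ^ (((2 * g + 1 : ℕ) : ℝ) - 1 / 4) := by
  have X0 : 0 < X := by linarith
  set n : ℕ := 2 * g + 1 with hn
  have hn1 : n - 1 = 2 * g := by omega
  have hR : ‖r ^ 2‖ ≤ 2 * X ^ 2 := by
    have h1 : r ^ 2 = x - (x - r ^ 2) := by ring
    rw [h1]
    refine (norm_sub_le _ _).trans ?_
    rw [hx]
    nlinarith
  have h1 : ‖x ^ n - (r ^ 2) ^ n‖ ≤ n * (2 * X ^ 2) ^ (n - 1) * X :=
    pow_diff (by rw [hx]; nlinarith [sq_nonneg X]) hR hr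
  have h2 : ‖∑ i ∈ range n, a i * x ^ i‖ ≤ n * (A * X ^ (4 * g)) := by
    refine (norm_sum_le _ _).trans ?_
    have h3 : ∀ i ∈ range n, ‖a i * x ^ i‖ ≤ A * X ^ (4 * g) := by
      intro i hi
      have hi' := mem_range.1 hi
      rw [norm_mul, norm_pow, hx, ← pow_mul]
      refine mul_le_mul (ha i hi') (pow_le_pow_right₀ (by linarith) (by omega)) (by positivity) ?_
      exact (norm_nonneg _).trans (ha i hi')
    refine (sum_le_sum h3).trans ?_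
    rw [sum_const, card_range, nsmul_eq_mul]
  have h4 : (2 * X ^ 2) ^ (n - 1) = 4 ^ g * X ^ (4 * g) := by
    have e1 : (2 : ℝ) ^ (2 * g) = 4 ^ g := by
      rw [pow_mul]
      norm_num
    have e2 : (X ^ 2) ^ (2 * g) = X ^ (4 * g) := by
      rw [← pow_mul]
      congr 1
      ring
    rw [hn1, mul_pow, e1, e2]
  have h5 : ‖y - r ^ n‖ * ‖y + r ^ n‖ ≤ X ^ (4 * g) * (X * X ^ (1 / 2 : ℝ)) := by
    rw [← norm_mul]
    have h6 : (y - r ^ n) * (y + r ^ n) = (x ^ n - (r ^ 2) ^ n) + ∑ i ∈ range n, a i * x ^ i := by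
      have : (r ^ 2) ^ n = (r ^ n) ^ 2 := by ring
      rw [this]
      linear_combination hy
    rw [h6]
    refine (norm_add_le _ _).trans ((add_le_add h1 h2).trans ?_)
    rw [h4]
    have h7 : (0 : ℝ) < X ^ (4 * g) := by positivity
    have h8 : 1 ≤ X ^ (1 / 2 : ℝ) := Real.one_le_rpow (by linarith) (by norm_num)
    have h9 : (n : ℝ) * 4 ^ g * X + n * A ≤ X * X ^ (1 / 2 : ℝ) := by
      have h10 := mul_le_mul_of_nonneg_right hX2 X0.le
      have h11 : X * 1 ≤ X * X ^ (1 / 2 : ℝ) := mul_le_mul_of_nonneg_left h8 X0.le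
      nlinarith
    calc (n : ℝ) * (4 ^ g * X ^ (4 * g)) * X + n * (A * X ^ (4 * g))
        = X ^ (4 * g) * (n * 4 ^ g * X + n * A) := by ring
      _ ≤ _ := mul_le_mul_of_nonneg_left h9 h7.le
  have h6 : X ^ ((n : ℝ) - 1 / 4) * X ^ ((n : ℝ) - 1 / 4) = X ^ (4 * g) * (X * X ^ (1 / 2 : ℝ)) := by
    have h7 : X * X ^ (1 / 2 : ℝ) = X ^ (3 / 2 : ℝ) := by
      conv_lhs => rw [← Real.rpow_one X]
      rw [← Real.rpow_mul X0.le, ← Real.rpow_add X0]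
      norm_num
    rw [h7, ← Real.rpow_natCast X (4 * g), ← Real.rpow_add X0, ← Real.rpow_add X0]
    congr 1
    rw [hn]
    push_cast
    ring
  by_contra hcon
  rw [not_or, not_le, not_le] at hcon
  have h7 := mul_lt_mul'' hcon.1 hcon.2 (by positivity) (by positivity)
  rw [h6] at h7
  linarith

end Pool.Agent.Helper2.HN
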