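import Pool.Agent.Helper2.HN.T1Ha
import Pool.Agent.Helper2.HN.T1Hb
import Pool.Agent.Helper94.SUBW.SLW

/-! Project HN, row T1H: the theorem over a number field. -/

set_option autoImplicit false

namespace Pool.Agent.Helper2.HN

open Polynomial Filter Finset Pool.Agent.Helper70.SUB Pool.Agent.Helper77.SUBK
  Pool.Agent.Helper70.SUBL Pool.Agent.Helper70.SUBW Pool.Agent.Helper71.JN Pool.Agent.Helper71.HN

/-- the data of one point -/
structure Dat (M : Type) (t : ℕ) where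
  /-- the polynomial -/
  F : ℚ[X]
  /-- the first coordinate -/
  x : ℚ
  /-- the second coordinate -/
  y : ℚ
  /-- the height of the polynomial -/
  H : ℝ
  /-- coefficients of the numerator -/
  c : Fin t → ℤ
  /-- coefficients of the denominator -/
  d : Fin t → ℤ
  /-- terms of the numerator -/
  a : Fin t → M
  /-- terms of the denominator -/
  b : Fin t → M

theorem T1H (hPFE : ST_PFE) (hSLW : ST_SLW) (hSPW : ST_SPW) (hSPH : ST_SPH)
    (hBRGH : ST_BRGH) : ST_T1H := by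
  classical
  intro M _ _ _ S ψ t g κ θ B hS hg hθ0 hθ
  obtain ⟨P, hP⟩ := hPFE M S ψ hS
  by_contra hcon
  have hex : ∀ j : ℕ, ∃ s : Dat M t, (s.F.natDegree = 2 * g + 1 ∧ s.F.Separable ∧
      s.y ^ 2 = s.F.eval s.x ∧ (∀ i, ht (s.F.coeff i) ≤ s.H) ∧ (∀ i, SV S (s.a i)) ∧
      (∀ i, SV S (s.b i)) ∧ (∀ i, |(s.c i : ℝ)| ≤ Real.exp (κ * (s.H + 1))) ∧
      (∀ i, |(s.d i : ℝ)| ≤ Real.exp (κ * (s.H + 1))) ∧
      HBZ ψ (|(s.x : ℝ)| ^ B) (∑ i, (s.c i : M) * s.a i) ∧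
      HBZ ψ (|(s.x : ℝ)| ^ B) (∑ i, (s.d i : M) * s.b i) ∧
      ∑ i, (s.d i : M) * s.b i ≠ 0 ∧
      (s.x.den : ℝ) * max 1 ‖(s.x : ℂ) - (s.F.coeff (2 * g + 1) : ℂ) *
        ψ ((∑ i, (s.c i : M) * s.a i) / ∑ i, (s.d i : M) * s.b i) ^ 2‖ ≤ |(s.x : ℝ)| ^ θ) ∧
      ((j : ℝ) + 1) * (s.H + 1) < ht s.x := by
    intro j
    by_contra h
    apply hcon
    refine ⟨(j : ℝ) + 1, by positivity, fun F x y H c d a b h1 h2 h3 h4 h5 h6 h7 h8 h9 h10 h11
      h12 => ?_⟩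
    by_contra h'
    exact h ⟨⟨F, x, y, H, c, d, a, b⟩, ⟨h1, h2, h3, h4, h5, h6, h7, h8, h9, h10, h11, h12⟩,
      not_le.1 h'⟩
  choose s hs hlt using hex
  obtain ⟨φ, hφ⟩ : ∃ φ : Ultrafilter ℕ, (φ : Filter ℕ) ≤ atTop := by
    refine ⟨hyperfilter ℕ, ?_⟩
    rw [← Nat.cofinite_eq_atTop]
    exact hyperfilter_le_cofinite
  set F : ℕ → ℚ[X] := fun j => (s j).F with hF
  set x : ℕ → ℚ := fun j => (s j).x with hx
  set y : ℕ → ℚ := fun j => (s j).y with hy
  set H : ℕ → ℝ := fun j => (s j).H with hH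
  set c : Fin t → ℕ → ℤ := fun i j => (s j).c i with hc
  set d : Fin t → ℕ → ℤ := fun i j => (s j).d i with hd
  set a : Fin t → ℕ → M := fun i j => (s j).a i with ha
  set b : Fin t → ℕ → M := fun i j => (s j).b i with hb
  set p : ℕ → M := fun j => ∑ i, (c i j : M) * a i j with hp
  set q : ℕ → M := fun j => ∑ i, (d i j : M) * b i j with hq
  have f1 : ∀ j, (F j).natDegree = 2 * g + 1 := fun j => (hs j).1
  have f2 : ∀ j, (F j).Separable := fun j => (hs j).2.1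
  have f3 : ∀ j, y j ^ 2 = (F j).eval (x j) := fun j => (hs j).2.2.1
  have f4 : ∀ j i, ht ((F j).coeff i) ≤ H j := fun j => (hs j).2.2.2.1
  have haS : ∀ i j, SV S (a i j) := fun i j => (hs j).2.2.2.2.1 i
  have hbS : ∀ i j, SV S (b i j) := fun i j => (hs j).2.2.2.2.2.1 i
  have hcB : ∀ i j, |(c i j : ℝ)| ≤ Real.exp (κ * (H j + 1)) :=
    fun i j => (hs j).2.2.2.2.2.2.1 i
  have hdB : ∀ i j, |(d i j : ℝ)| ≤ Real.exp (κ * (H j + 1)) :=
    fun i j => (hs j).2.2.2.2.2.2.2.1 i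
  have hpB : ∀ j, HBZ ψ (|(x j : ℝ)| ^ B) (p j) := fun j => (hs j).2.2.2.2.2.2.2.2.1
  have hqB : ∀ j, HBZ ψ (|(x j : ℝ)| ^ B) (q j) := fun j => (hs j).2.2.2.2.2.2.2.2.2.1
  have hq0 : ∀ j, q j ≠ 0 := fun j => (hs j).2.2.2.2.2.2.2.2.2.2.1
  set l : ℕ → ℚ := fun j => (F j).coeff (2 * g + 1) with hl
  have hmain : ∀ j, ((x j).den : ℝ) * max 1 ‖(x j : ℂ) - (l j : ℂ) * ψ (p j / q j) ^ 2‖ ≤
      |(x j : ℝ)| ^ θ := fun j => (hs j).2.2.2.2.2.2.2.2.2.2.2
  have hlt' : ∀ j : ℕ, ((j : ℝ) + 1) * (H j + 1) < ht (x j) := hlt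
  have hH0 : ∀ j, 0 ≤ H j := fun j => (ht_nonneg _).trans (f4 j 0)
  have hden1 : ∀ j, (1 : ℝ) ≤ (x j).den := fun j => by exact_mod_cast (x j).den_pos
  have hdenx : ∀ j, ((x j).den : ℝ) ≤ |(x j : ℝ)| ^ θ := fun j => by
    refine le_trans ?_ (hmain j)
    exact le_mul_of_one_le_right (by linarith [hden1 j]) (le_max_left _ _)
  have hxx : ∀ j, 1 ≤ |(x j : ℝ)| ∧ ht (x j) ≤ 3 / 2 * Real.log |(x j : ℝ)| := fun j => by
    refine ht_x hθ0 hθ ?_ (hdenx j)
    refine lt_of_le_of_lt ?_ (hlt' j)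
    have := hH0 j
    positivity
  have hx0 : ∀ j, 0 < |(x j : ℝ)| := fun j => by linarith [(hxx j).1]
  set L : ℕ → ℝ := fun j => Real.log |(x j : ℝ)| with hL
  have hL0 : ∀ j, 0 ≤ L j := fun j => Real.log_nonneg (hxx j).1
  have hHL : ∀ j : ℕ, ((j : ℝ) + 1) * (H j + 1) ≤ 3 / 2 * L j := fun j =>
    ((hlt' j).le).trans (hxx j).2
  have hl0 : ∀ j, l j ≠ 0 := fun j => lead_ne (f1 j)
  have hlr0 : ∀ j, 0 < |(l j : ℝ)| := fun j => abs_pos.2 (by exact_mod_cast hl0 j)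
  have hl1 : ∀ j, |(l j : ℝ)| ≤ Real.exp (H j) := fun j => ht_abs (f4 j _)
  have hl2 : ∀ j, |(l j : ℝ)|⁻¹ ≤ Real.exp (H j) := fun j => ht_inv (hl0 j) (f4 j _)
  -- the scale
  set x' : ℕ → ℚ := fun j => x j / l j with hx'
  have hx'r : ∀ j, |(x' j : ℝ)| = |(x j : ℝ)| / |(l j : ℝ)| := fun j => by
    rw [hx']
    push_cast
    rw [abs_div]
  set X : ℕ → ℝ := fun j => Real.sqrt |(x' j : ℝ)| with hXdef
  have hX2 : ∀ j, X j ^ 2 = |(x' j : ℝ)| := fun j => Real.sq_sqrt (abs_nonneg _)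
  have hX0 : ∀ j, 0 < X j := fun j => by
    refine Real.sqrt_pos.2 ?_
    rw [hx'r]
    exact div_pos (hx0 j) (hlr0 j)
  have hXL : ∀ j : ℕ, 2 ≤ j → Real.exp (L j / 4) ≤ X j := by
    intro j hj
    have hj' : (2 : ℝ) ≤ j := by exact_mod_cast hj
    have h1 := hHL j
    have h2 := hH0 j
    have h3 : H j ≤ L j / 2 := by nlinarith
    refine le_of_sq_le_sq ?_ (hX0 j).le
    rw [hX2, hx'r, ← Real.exp_nat_mul, div_eq_mul_inv]
    have h4 : Real.exp (-H j) ≤ |(l j : ℝ)|⁻¹ := by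
      rw [Real.exp_neg]
      exact inv_anti₀ (hlr0 j) (hl1 j)
    calc Real.exp ((2 : ℕ) * (L j / 4)) ≤ Real.exp (L j) * Real.exp (-H j) := by
          rw [← Real.exp_add]
          refine Real.exp_le_exp.2 ?_
          push_cast
          linarith
      _ ≤ _ := by
          rw [Real.exp_log (hx0 j)]
          exact mul_le_mul_of_nonneg_left h4 (hx0 j).le
  have hev : ∀ N : ℕ, ∀ᶠ j in (φ : Filter ℕ), N ≤ j := fun N => hφ (eventually_ge_atTop N)
  have hXX : Tendsto X (φ : Filter ℕ) atTop := by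
    refine Tendsto.mono_left ?_ hφ
    have h1 : Tendsto (fun j : ℕ => ((j : ℝ) + 1) / 6) atTop atTop :=
      (tendsto_natCast_atTop_atTop.atTop_add tendsto_const_nhds).atTop_div_const (by norm_num)
    refine tendsto_atTop_mono' _ ?_ h1
    filter_upwards [eventually_ge_atTop 2] with j hj
    have h2 := hXL j hj
    have h3 := Real.add_one_le_exp (L j / 4)
    have h4 := hHL j
    have h5 : ((j : ℝ) + 1) * 1 ≤ ((j : ℝ) + 1) * (H j + 1) :=
      mul_le_mul_of_nonneg_left (by linarith [hH0 j]) (by positivity)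
    linarith
  have hbig : ∀ a B : ℝ, 0 < a → ∀ᶠ j in (φ : Filter ℕ), B ≤ X j ^ a := fun a B ha =>
    ((tendsto_rpow_atTop ha).comp hXX).eventually_ge_atTop B
  have hX1 : ∀ᶠ j in (φ : Filter ℕ), (2 : ℝ) ≤ X j := hXX.eventually_ge_atTop _
  have hE : ∀ K ε : ℝ, 0 < ε → ∀ᶠ j in (φ : Filter ℕ), Real.exp (K * (H j + 1)) ≤ X j ^ ε := by
    intro K ε hε
    obtain ⟨N, hN⟩ := exists_nat_ge (6 * |K| / ε)
    filter_upwards [hev 2, hev N] with j h1 h2
    have h3 := hXL j h1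
    have h4 : 6 * |K| / ε ≤ (j : ℝ) + 1 := by
      have : (N : ℝ) ≤ j := by exact_mod_cast h2
      linarith
    rw [div_le_iff₀ hε] at h4
    have h5 := hHL j
    have h6 := hH0 j
    have h7 : K * (H j + 1) ≤ ε * (L j / 4) := by
      have h8 : K * (H j + 1) ≤ |K| * (H j + 1) :=
        mul_le_mul_of_nonneg_right (le_abs_self K) (by linarith)
      have h9 : 6 * |K| * (H j + 1) ≤ ((j : ℝ) + 1) * ε * (H j + 1) :=
        mul_le_mul_of_nonneg_right h4 (by linarith)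
      nlinarith
    calc Real.exp (K * (H j + 1)) ≤ Real.exp (ε * (L j / 4)) := Real.exp_le_exp.2 h7
      _ = Real.exp (L j / 4) ^ ε := by
          rw [← Real.exp_mul, mul_comm]
      _ ≤ _ := Real.rpow_le_rpow (Real.exp_pos _).le h3 hε.le
  have hxX : ∀ ε : ℝ, 0 < ε → ∀ᶠ j in (φ : Filter ℕ), |(x j : ℝ)| ≤ X j ^ (2 + ε) := by
    intro ε hε
    filter_upwards [hE 1 ε hε] with j h1
    have h2 : |(x j : ℝ)| = X j ^ 2 * |(l j : ℝ)| := by
      rw [hX2, hx'r, div_mul_cancel₀ _ (hlr0 j).ne']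
    rw [h2, Real.rpow_add (hX0 j), Real.rpow_two]
    refine mul_le_mul_of_nonneg_left ?_ (by positivity)
    refine (hl1 j).trans ((Real.exp_le_exp.2 ?_).trans h1)
    linarith
  -- slow coefficients
  obtain ⟨hconst, hops, hinv, _, _, _, _, _, _, hint, hsums, _⟩ := hSLW M S P φ X hS hXX
  have hslI : ∀ (K : ℝ) (e : ℕ → ℤ), (∀ j, |(e j : ℝ)| ≤ Real.exp (K * (H j + 1))) →
      Slw P φ X (fun j => (e j : M)) := by
    intro K e he
    refine hint e fun δ hδ => ?_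
    filter_upwards [hE K δ hδ] with j hj
    exact (he j).trans hj
  have hslQ : ∀ z : ℕ → ℚ, (∀ j, ht (z j) ≤ H j) → Slw P φ X (fun j => ((z j : ℚ) : M)) := by
    intro z hz
    have h1 : Slw P φ X (fun j => (((z j).num : ℤ) : M)) :=
      hslI 1 _ fun j => ((ht_le (hz j)).1).trans (Real.exp_le_exp.2 (by linarith))
    have h2 : Slw P φ X (fun j => ((((z j).den : ℕ) : ℤ) : M)) := by
      refine hslI 1 _ fun j => ?_
      rw [Int.cast_natCast, Nat.abs_cast]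
      exact ((ht_le (hz j)).2).trans (Real.exp_le_exp.2 (by linarith))
    have h3 := (hops _ _ h1 (hinv _ h2)).2
    have h4 : (fun j => (((z j).num : ℤ) : M) * ((((z j).den : ℕ) : ℤ) : M)⁻¹) =
        fun j => ((z j : ℚ) : M) := by
      funext j
      rw [Int.cast_natCast, ← div_eq_mul_inv]
      exact (Rat.cast_def (z j)).symm
    rw [← h4]
    exact h3
  have hslpow : ∀ (z : ℕ → M) (n : ℕ), Slw P φ X z → Slw P φ X (fun j => z j ^ n) := by
    intro z n hz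
    induction n with
    | zero => simpa using hconst 1
    | succ n ih => simpa [pow_succ] using (hops _ _ ih hz).2
  have hsla : ∀ i, Slw P φ X (fun j => ((co g (F j) i : ℚ) : M)) := by
    intro i
    have h1 := hslQ (fun j => (F j).coeff i) fun j => f4 j i
    have h2 := hslQ l fun j => f4 j _
    have h3 := (hops _ _ (hops _ _ h1 (hslpow _ i h2)).2 (hinv _ (hslpow _ (2 * g + 2) h2))).2
    have h4 : (fun j => ((co g (F j) i : ℚ) : M)) = fun j => (((F j).coeff i : ℚ) : M) *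
        ((l j : ℚ) : M) ^ i * (((l j : ℚ) : M) ^ (2 * g + 2))⁻¹ := by
      funext j
      rw [co, div_eq_mul_inv]
      push_cast
      rfl
    rw [h4]
    exact h3
  -- moderate sums
  have hHB : ∀ z : ℕ → M, (∀ j, HBZ ψ (|(x j : ℝ)| ^ B) (z j)) →
      ∀ᶠ j in (φ : Filter ℕ), HB P (X j ^ (3 * |B|)) (z j) := by
    intro z hz
    filter_upwards [hxX 1 one_pos, hX1] with j h0 h01 v hv σ
    have h5 : |(x j : ℝ)| ^ B ≤ X j ^ (3 * |B|) := by
      calc |(x j : ℝ)| ^ B ≤ |(x j : ℝ)| ^ |B| :=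
            Real.rpow_le_rpow_of_exponent_le (hxx j).1 (le_abs_self B)
        _ ≤ (X j ^ ((2 : ℝ) + 1)) ^ |B| := Real.rpow_le_rpow (abs_nonneg _) h0 (abs_nonneg _)
        _ = _ := by
            rw [← Real.rpow_mul (hX0 j).le]
            norm_num
    refine (Pool.Agent.Helper94.SUBW.SP_nv hS (H := |(x j : ℝ)| ^ B) ?_ hv σ).trans h5
    obtain ⟨⟨D, h1, h2, h3⟩, h4⟩ := hz j
    exact ⟨D, h1, h2, h3, fun τ => by rw [hP]; exact h4 τ⟩
  have hpM : SpM P φ X p := by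
    refine hSPH M S P φ X p (3 * |B|) hS hXX ?_ (hHB p hpB)
    exact ⟨t, fun i j => (c i j : M), a, fun i => hslI κ _ (hcB i),
      fun i => Eventually.of_forall (haS i), Eventually.of_forall fun j => rfl⟩
  have hqM : SpM P φ X q := by
    refine hSPH M S P φ X q (3 * |B|) hS hXX ?_ (hHB q hqB)
    exact ⟨t, fun i j => (d i j : M), b, fun i => hslI κ _ (hdB i),
      fun i => Eventually.of_forall (hbS i), Eventually.of_forall fun j => rfl⟩
  obtain ⟨_, _, _, _, _, hslSp, _, hSpop, _, _, _, _, _⟩ := hSPW M S P φ X hS hXX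
  have hmulc : ∀ (e : M) (z : ℕ → M), SpM P φ X z → SpM P φ X (fun j => e * z j) :=
    fun e z hz => (hSpop (fun _ => e) z (hslSp _ (hconst e)) hz).2
  -- denominators
  set m : ℕ → ℕ := fun j => (x j).den with hm
  set y' : ℕ → ℚ := fun j => y j / l j ^ (g + 1) with hy'
  have hSx : SlI φ X (fun j => (m j : ℚ) * x' j) := by
    intro ε hε
    filter_upwards [hE 1 ε hε] with j h1
    obtain ⟨D, h2, h3, h4⟩ := int_x (x := x j) (f1 j) (f4 j)
    refine ⟨D, h2, h3.trans ((Real.exp_le_exp.2 ?_).trans h1), h4⟩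
    linarith
  have hSy : SlI φ X (fun j => (m j : ℚ) ^ (g + 1) * y' j) := by
    intro ε hε
    filter_upwards [hE ((3 * g + 3 : ℕ) : ℝ) ε hε] with j h1
    obtain ⟨D, h2, h3, h4⟩ := int_y (f1 j) (f4 j) (f3 j)
    refine ⟨D, h2, h3.trans ((Real.exp_le_exp.2 ?_).trans h1), h4⟩
    exact mul_le_mul_of_nonneg_left (by linarith) (Nat.cast_nonneg _)
  -- the exponent of the denominator
  obtain ⟨δ, hδ⟩ : ∃ δ : ℝ, δ = (1 - 2 * θ) / 4 := ⟨_, rfl⟩
  have hδ0 : 0 < δ := by rw [hδ]; linarith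
  obtain ⟨lim, hlim0, hlim1, hlim2⟩ : ∃ lim : ℝ, 0 ≤ lim ∧
      (∀ᶠ j in (φ : Filter ℕ), (m j : ℝ) ≤ X j ^ (lim + δ)) ∧
      (∀ᶠ j in (φ : Filter ℕ), X j ^ (lim - δ) ≤ (m j : ℝ)) := by
    set f : ℕ → ℝ := fun j => Real.log (m j) / Real.log (X j) with hf
    have h1 : ∀ᶠ j in (φ : Filter ℕ), f j ∈ Set.Icc (0 : ℝ) 2 := by
      filter_upwards [hX1, hev 2] with j h2 h3
      have h4 : 0 < Real.log (X j) := Real.log_pos (by linarith)
      have h5 : L j / 4 ≤ Real.log (X j) := by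
        rw [← Real.log_exp (L j / 4)]
        exact Real.log_le_log (Real.exp_pos _) (hXL j h3)
      have h6 : Real.log (m j) ≤ θ * L j := by
        rw [hL, ← Real.log_rpow (hx0 j)]
        exact Real.log_le_log (by linarith [hden1 j]) (hdenx j)
      refine ⟨div_nonneg (Real.log_nonneg (hden1 j)) h4.le, ?_⟩
      rw [div_le_iff₀ h4]
      nlinarith [hL0 j]
    obtain ⟨lim, h2, h3⟩ := isCompact_Icc.ultrafilter_le_nhds (φ.map f)
      (by rw [Ultrafilter.coe_map, le_principal_iff]; exact h1)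
    have h4 : Tendsto f (φ : Filter ℕ) (nhds lim) := h3
    refine ⟨lim, h2.1, ?_, ?_⟩
    · filter_upwards [h4.eventually (gt_mem_nhds (show lim < lim + δ by linarith)), hX1]
        with j h5 h6
      have h7 : 0 < Real.log (X j) := Real.log_pos (by linarith)
      rw [hf, div_lt_iff₀ h7] at h5
      rw [← Real.log_le_log_iff (by linarith [hden1 j]) (Real.rpow_pos_of_pos (hX0 j) _),
        Real.log_rpow (hX0 j)]
      exact h5.le
    · filter_upwards [h4.eventually (lt_mem_nhds (show lim - δ < lim by linarith)), hX1]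
        with j h5 h6
      have h7 : 0 < Real.log (X j) := Real.log_pos (by linarith)
      rw [hf, lt_div_iff₀ h7] at h5
      rw [← Real.log_le_log_iff (Real.rpow_pos_of_pos (hX0 j) _) (by linarith [hden1 j]),
        Real.log_rpow (hX0 j)]
      exact h5.le
  -- `x'` is close to the square
  have hlc0 : ∀ j, (l j : ℂ) ≠ 0 := fun j => by exact_mod_cast hl0 j
  have hb1 : ∀ᶠ j in (φ : Filter ℕ), ‖(x' j : ℂ) - ψ (p j / q j) ^ 2‖ ≤
      X j ^ (2 * θ + 2 * δ - lim) := by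
    filter_upwards [hxX δ hδ0, hE 1 (δ / 2) (by linarith), hlim2, hX1] with j h1 h2 h3 h4
    have h5 : (x' j : ℂ) - ψ (p j / q j) ^ 2 =
        ((x j : ℂ) - (l j : ℂ) * ψ (p j / q j) ^ 2) / (l j : ℂ) := by
      rw [hx']
      push_cast
      field_simp [hlc0 j]
    have h6 : ‖(l j : ℂ)‖ = |(l j : ℝ)| := by
      have : (l j : ℂ) = ((l j : ℝ) : ℂ) := by push_cast; rfl
      rw [this, Complex.norm_real, Real.norm_eq_abs]
    have h7 : ‖(x j : ℂ) - (l j : ℂ) * ψ (p j / q j) ^ 2‖ ≤ |(x j : ℝ)| ^ θ / (m j : ℝ) := by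
      rw [le_div_iff₀ (by linarith [hden1 j]), mul_comm]
      refine le_trans ?_ (hmain j)
      exact mul_le_mul_of_nonneg_left (le_max_right _ _) (by linarith [hden1 j])
    rw [h5, norm_div, h6, div_eq_mul_inv]
    have h8 : |(l j : ℝ)|⁻¹ ≤ X j ^ (δ / 2) :=
      (hl2 j).trans ((Real.exp_le_exp.2 (by linarith)).trans h2)
    have h9 : |(x j : ℝ)| ^ θ ≤ X j ^ (2 * θ + δ / 2) := by
      calc |(x j : ℝ)| ^ θ ≤ (X j ^ (2 + δ)) ^ θ :=
            Real.rpow_le_rpow (abs_nonneg _) h1 hθ0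
        _ = X j ^ ((2 + δ) * θ) := by rw [← Real.rpow_mul (hX0 j).le]
        _ ≤ _ := Real.rpow_le_rpow_of_exponent_le (by linarith) (by nlinarith)
    have h10 : |(x j : ℝ)| ^ θ / (m j : ℝ) ≤ X j ^ (2 * θ + δ / 2) / X j ^ (lim - δ) :=
      div_le_div₀ (Real.rpow_nonneg (hX0 j).le _) h9 (Real.rpow_pos_of_pos (hX0 j) _) h3
    calc ‖(x j : ℂ) - (l j : ℂ) * ψ (p j / q j) ^ 2‖ * |(l j : ℝ)|⁻¹
        ≤ X j ^ (2 * θ + δ / 2) / X j ^ (lim - δ) * X j ^ (δ / 2) :=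
          mul_le_mul (h7.trans h10) h8 (by positivity)
            (div_nonneg (Real.rpow_nonneg (hX0 j).le _) (Real.rpow_nonneg (hX0 j).le _))
      _ = _ := by
          rw [← Real.rpow_sub (hX0 j), ← Real.rpow_add (hX0 j)]
          congr 1
          ring
  have hb2 : ∀ᶠ j in (φ : Filter ℕ), ‖(x' j : ℂ) - ψ (p j / q j) ^ 2‖ ≤ X j := by
    filter_upwards [hb1, hX1] with j h1 h2
    refine h1.trans ?_
    calc X j ^ (2 * θ + 2 * δ - lim) ≤ X j ^ (1 : ℝ) :=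
          Real.rpow_le_rpow_of_exponent_le (by linarith) (by rw [hδ]; linarith)
      _ = X j := Real.rpow_one _
  -- the sign
  have hor : ∀ᶠ j in (φ : Filter ℕ),
      ‖(y' j : ℂ) - ψ (p j / q j) ^ (2 * g + 1)‖ ≤ X j ^ (((2 * g + 1 : ℕ) : ℝ) - 1 / 4) ∨
        ‖(y' j : ℂ) + ψ (p j / q j) ^ (2 * g + 1)‖ ≤ X j ^ (((2 * g + 1 : ℕ) : ℝ) - 1 / 4) := by
    have hco : ∀ i j, |((co g (F j) i : ℚ) : ℝ)| ≤
        Real.exp (((i : ℝ) + 2 * g + 3) * (H j + 1)) := by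
      intro i j
      rw [co]
      push_cast
      rw [abs_div, abs_mul, abs_pow, abs_pow, div_eq_mul_inv, ← inv_pow]
      have h1 : |(((F j).coeff i : ℚ) : ℝ)| ≤ Real.exp (H j) := ht_abs (f4 j i)
      calc |(((F j).coeff i : ℚ) : ℝ)| * |(l j : ℝ)| ^ i * |(l j : ℝ)|⁻¹ ^ (2 * g + 2)
          ≤ Real.exp (H j) * Real.exp (H j) ^ i * Real.exp (H j) ^ (2 * g + 2) := by
            refine mul_le_mul (mul_le_mul h1 (pow_le_pow_left₀ (abs_nonneg _) (hl1 j) _)
              (by positivity) (by positivity)) (pow_le_pow_left₀ (by positivity) (hl2 j) _)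
              (by positivity) (by positivity)
        _ = Real.exp (((i : ℝ) + 2 * g + 3) * H j) := by
            rw [← Real.exp_nat_mul, ← Real.exp_nat_mul, ← Real.exp_add, ← Real.exp_add]
            congr 1
            push_cast
            ring
        _ ≤ _ := Real.exp_le_exp.2 (mul_le_mul_of_nonneg_left (by linarith) (by positivity))
    have hbg := hbig (1 / 2) (2 * ((2 * g + 1 : ℕ) : ℝ) * 4 ^ g) (by norm_num)
    filter_upwards [hX1, hb2, hbg, hE ((4 : ℝ) * g + 4) (1 / 2) (by norm_num)] with j h1 h2 h3 h4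
    have h5 : ((2 * g + 1 : ℕ) : ℝ) * 2 ≤ X j ^ (1 / 2 : ℝ) := by
      refine le_trans ?_ h3
      have : (1 : ℝ) ≤ 4 ^ g := one_le_pow₀ (by norm_num)
      have h6 : (0 : ℝ) ≤ ((2 * g + 1 : ℕ) : ℝ) := Nat.cast_nonneg _
      nlinarith
    refine pickH (A := X j ^ (1 / 2 : ℝ)) (a := fun i => ((co g (F j) i : ℚ) : ℂ)) h1 ?_ h3
      ?_ ?_ ?_ h2
    · have h6 : X j ^ (1 / 2 : ℝ) * X j ^ (1 / 2 : ℝ) = X j := by
        rw [← Real.rpow_add (hX0 j)]
        norm_num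
      have h7 : (0 : ℝ) ≤ X j ^ (1 / 2 : ℝ) := Real.rpow_nonneg (hX0 j).le _
      nlinarith
    · have : (x' j : ℂ) = ((x' j : ℝ) : ℂ) := by push_cast; rfl
      rw [this, Complex.norm_real, Real.norm_eq_abs, hX2]
    · intro i hi
      have : ((co g (F j) i : ℚ) : ℂ) = (((co g (F j) i : ℚ) : ℝ) : ℂ) := by push_cast; rfl
      rw [this, Complex.norm_real, Real.norm_eq_abs]
      refine (hco i j).trans ((Real.exp_le_exp.2 ?_).trans h4)
      refine mul_le_mul_of_nonneg_right ?_ (by linarith [hH0 j])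
      have h6 : (i : ℝ) ≤ 2 * g + 1 := by exact_mod_cast hi.le
      linarith
    · have h6 := pol_ev (f1 j) (f3 j)
      have h7 : (y' j : ℚ) ^ 2 = (pol g (co g (F j))).eval (x' j) := h6
      rw [pol, eval_add, eval_pow, eval_X, eval_finsetSum] at h7
      have h8 := congrArg (fun z : ℚ => (z : ℂ)) h7
      simp only [eval_mul, eval_C, eval_pow, eval_X] at h8
      push_cast at h8
      exact h8
  -- conclusion
  have hPx : ∀ j (r : M), P.nv none ((x' j : M) - r ^ 2) = ‖(x' j : ℂ) - ψ r ^ 2‖ := fun j r => by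
    rw [hP, map_sub, map_pow, map_ratCast]
  have hPy : ∀ j (r : M), P.nv none ((y' j : M) - r ^ (2 * g + 1)) =
      ‖(y' j : ℂ) - ψ r ^ (2 * g + 1)‖ := fun j r => by
    rw [hP, map_sub, map_pow, map_ratCast]
  have hsum : (lim + δ) + (2 * θ + 2 * δ - lim) < 1 := by rw [hδ]; linarith
  rcases Ultrafilter.eventually_or.1 hor with h1 | h1
  · refine hBRGH M S P φ g (fun i j => co g (F j) i) m x' y' X p q (lim + δ)
      (2 * θ + 2 * δ - lim) (1 / 4) hS hg (by linarith) hsum (by norm_num) hXX hpM hqM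
      (fun i _ => hsla i) hSx hSy ?_
    filter_upwards [h1, hb1, hlim1] with j h2 h3 h4
    refine ⟨pol_sep (f1 j) (f2 j), pol_ev (f1 j) (f3 j), (x j).den_nz, h4, hX2 j, hq0 j, ?_, ?_⟩
    · rw [hPx]
      exact h3
    · rw [hPy]
      exact h2
  · refine hBRGH M S P φ g (fun i j => co g (F j) i) m x' y' X (fun j => -1 * p j) q (lim + δ)
      (2 * θ + 2 * δ - lim) (1 / 4) hS hg (by linarith) hsum (by norm_num) hXX
      (hmulc _ p hpM) hqM (fun i _ => hsla i) hSx hSy ?_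
    filter_upwards [h1, hb1, hlim1] with j h2 h3 h4
    have h5 : -1 * p j / q j = -(p j / q j) := by ring
    have h6 : Odd (2 * g + 1) := ⟨g, rfl⟩
    refine ⟨pol_sep (f1 j) (f2 j), pol_ev (f1 j) (f3 j), (x j).den_nz, h4, hX2 j, hq0 j, ?_, ?_⟩
    · rw [hPx, h5, map_neg, neg_sq]
      exact h3
    · rw [hPy, h5, map_neg, h6.neg_pow, sub_neg_eq_add]
      exact h2

end Pool.Agent.Helper2.HN
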