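import Pool.Agent.Helper71.HN.SheetH

/-! Project HN, row T1H: the arithmetic of one point. -/

set_option autoImplicit false

namespace Pool.Agent.Helper2.HN

open Polynomial Finset Pool.Agent.Helper71.JN Pool.Agent.Helper71.HN

theorem ht_le {x : ℚ} {H : ℝ} (h : ht x ≤ H) :
    |(x.num : ℝ)| ≤ Real.exp H ∧ (x.den : ℝ) ≤ Real.exp H := by
  have h1 : (1 : ℝ) ≤ x.den := by exact_mod_cast x.den_pos
  have h2 : (0 : ℝ) < max |(x.num : ℝ)| (x.den : ℝ) := lt_of_lt_of_le one_pos (le_max_of_le_right h1)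
  have h3 : max |(x.num : ℝ)| (x.den : ℝ) ≤ Real.exp H := by
    rw [← Real.exp_log h2]
    exact Real.exp_le_exp.2 h
  exact ⟨(le_max_left _ _).trans h3, (le_max_right _ _).trans h3⟩

theorem ht_nonneg (x : ℚ) : 0 ≤ ht x := by
  have h1 : (1 : ℝ) ≤ x.den := by exact_mod_cast x.den_pos
  exact Real.log_nonneg (le_max_of_le_right h1)

theorem ht_abs {x : ℚ} {H : ℝ} (h : ht x ≤ H) : |(x : ℝ)| ≤ Real.exp H := by
  have h1 : (1 : ℝ) ≤ x.den := by exact_mod_cast x.den_pos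
  have h2 : (x : ℝ) = (x.num : ℝ) / (x.den : ℝ) := by
    exact_mod_cast (Rat.num_div_den x).symm
  rw [h2, abs_div, abs_of_pos (by linarith : (0 : ℝ) < x.den)]
  refine (div_le_self (abs_nonneg _) h1).trans (ht_le h).1

theorem ht_inv {x : ℚ} {H : ℝ} (hx : x ≠ 0) (h : ht x ≤ H) : |(x : ℝ)|⁻¹ ≤ Real.exp H := by
  have h1 : (1 : ℝ) ≤ x.den := by exact_mod_cast x.den_pos
  have h2 : (x : ℝ) = (x.num : ℝ) / (x.den : ℝ) := by
    exact_mod_cast (Rat.num_div_den x).symm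
  have h3 : (1 : ℝ) ≤ |(x.num : ℝ)| := by
    rw [← Int.cast_abs]
    exact_mod_cast Int.one_le_abs (Rat.num_ne_zero.2 hx)
  rw [h2, abs_div, abs_of_pos (by linarith : (0 : ℝ) < x.den), inv_div]
  exact (div_le_self (by linarith) h3).trans (ht_le h).2

/-- the monic form -/
noncomputable def co (g : ℕ) (F : ℚ[X]) (i : ℕ) : ℚ :=
  F.coeff i * F.coeff (2 * g + 1) ^ i / F.coeff (2 * g + 1) ^ (2 * g + 2)

theorem pol_eq {g : ℕ} {F : ℚ[X]} (hF : F.natDegree = 2 * g + 1) :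
    pol g (co g F) = C (F.coeff (2 * g + 1) ^ (2 * g + 2))⁻¹ *
      F.comp (C (F.coeff (2 * g + 1)) * X) := by
  have h0 : F.coeff (2 * g + 1) ≠ 0 := by
    rw [← hF]
    refine leadingCoeff_ne_zero.2 fun h => ?_
    rw [h, natDegree_zero] at hF
    omega
  set l := F.coeff (2 * g + 1) with hl
  have h1 : F.comp (C l * X) = ∑ i ∈ range (2 * g + 2), C (F.coeff i * l ^ i) * X ^ i := by
    conv_lhs => rw [F.as_sum_range_C_mul_X_pow, hF]
    rw [Polynomial.sum_comp]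
    refine sum_congr rfl fun i _ => ?_
    rw [mul_comp, C_comp, X_pow_comp, mul_pow, ← C_pow, C_mul]
    ring
  rw [h1, sum_range_succ, mul_add, mul_sum, pol, add_comm]
  congr 1
  · refine sum_congr rfl fun i _ => ?_
    rw [← mul_assoc, ← C_mul, co, ← hl]
    congr 2
    rw [div_eq_mul_inv]
    ring
  · rw [← hl, ← mul_assoc, ← C_mul]
    have : (l ^ (2 * g + 2))⁻¹ * (l * l ^ (2 * g + 1)) = 1 := by
      rw [← pow_succ', inv_mul_cancel₀ (pow_ne_zero _ h0)]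
    rw [this, C_1, one_mul]

theorem lead_ne {g : ℕ} {F : ℚ[X]} (hF : F.natDegree = 2 * g + 1) : F.coeff (2 * g + 1) ≠ 0 := by
  rw [← hF]
  refine leadingCoeff_ne_zero.2 fun h => ?_
  rw [h, natDegree_zero] at hF
  omega

theorem pol_sep {g : ℕ} {F : ℚ[X]} (hF : F.natDegree = 2 * g + 1) (hs : F.Separable) :
    (pol g (co g F)).Separable := by
  have h0 := lead_ne hF
  rw [pol_eq hF]
  set l := F.coeff (2 * g + 1) with hl
  have hu : IsUnit (C (l ^ (2 * g + 2))⁻¹ : ℚ[X]) :=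
    isUnit_C.2 (IsUnit.mk0 _ (inv_ne_zero (pow_ne_zero _ h0)))
  have hu2 : IsUnit (C l : ℚ[X]) := isUnit_C.2 (IsUnit.mk0 _ h0)
  have h1 : IsCoprime (F.comp (C l * X)) ((derivative F).comp (C l * X)) := by
    have := IsCoprime.map hs (compRingHom (C l * X))
    simpa using this
  rw [Separable, derivative_C_mul, derivative_comp, derivative_C_mul, derivative_X, mul_one]
  rw [isCoprime_mul_unit_left_left hu, isCoprime_mul_unit_left_right hu,
    isCoprime_mul_unit_left_right hu2]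
  exact h1

theorem pol_ev {g : ℕ} {F : ℚ[X]} {x y : ℚ} (hF : F.natDegree = 2 * g + 1)
    (h : y ^ 2 = F.eval x) : (y / F.coeff (2 * g + 1) ^ (g + 1)) ^ 2 =
      (pol g (co g F)).eval (x / F.coeff (2 * g + 1)) := by
  have h0 := lead_ne hF
  rw [pol_eq hF]
  set l := F.coeff (2 * g + 1) with hl
  rw [eval_mul, eval_C, eval_comp, eval_mul, eval_C, eval_X, mul_div_cancel₀ _ h0, ← h, div_pow,
    ← pow_mul]
  have : (g + 1) * 2 = 2 * g + 2 := by ring
  rw [this, div_eq_inv_mul]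

/-- a common denominator of the coefficients -/
theorem den_F {g : ℕ} {F : ℚ[X]} {H : ℝ} (hF : F.natDegree = 2 * g + 1)
    (hH : ∀ i, ht (F.coeff i) ≤ H) : ∃ D : ℕ, D ≠ 0 ∧ (D : ℝ) ≤ Real.exp ((2 * g + 2 : ℕ) * H) ∧
    ∀ i, ∃ n : ℤ, (D : ℚ) * F.coeff i = n := by
  refine ⟨∏ i ∈ range (2 * g + 2), (F.coeff i).den, ?_, ?_, ?_⟩
  · exact prod_ne_zero_iff.2 fun i _ => (F.coeff i).den_nz
  · push_cast
    calc ∏ i ∈ range (2 * g + 2), ((F.coeff i).den : ℝ) ≤ ∏ i ∈ range (2 * g + 2), Real.exp H :=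
          prod_le_prod (fun i _ => Nat.cast_nonneg _) fun i _ => (ht_le (hH i)).2
      _ = _ := by
          rw [prod_const, card_range, ← Real.exp_nat_mul]
          push_cast
          ring_nf
  · intro i
    by_cases hi : i < 2 * g + 2
    · obtain ⟨k, hk⟩ := dvd_prod_of_mem (fun i => (F.coeff i).den) (mem_range.2 hi)
      refine ⟨k * (F.coeff i).num, ?_⟩
      rw [hk]
      push_cast
      have h1 : (F.coeff i).den * F.coeff i = (F.coeff i).num := Rat.den_mul_eq_num _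
      linear_combination (k : ℚ) * h1
    · refine ⟨0, ?_⟩
      rw [coeff_eq_zero_of_natDegree_lt (by rw [hF]; omega)]
      simp

theorem int_eval {n D m : ℕ} {F : ℚ[X]} {x : ℚ} (hF : F.natDegree = n)
    (hD : ∀ i, ∃ k : ℤ, (D : ℚ) * F.coeff i = k) (hm : m = x.den) :
    ∃ k : ℤ, (D : ℚ) * m ^ n * F.eval x = k := by
  choose k hk using hD
  refine ⟨∑ i ∈ range (n + 1), k i * (x.num ^ i * (m : ℤ) ^ (n - i)), ?_⟩
  rw [eval_eq_sum_range, hF, mul_sum]
  push_cast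
  refine sum_congr rfl fun i hi => ?_
  rw [← hk i]
  have h1 : (m : ℚ) * x = x.num := by rw [hm]; exact Rat.den_mul_eq_num x
  have h2 : (m : ℚ) ^ n = m ^ i * m ^ (n - i) := by
    rw [← pow_add, Nat.add_sub_cancel' (by have := mem_range.1 hi; omega)]
  rw [h2, ← h1, mul_pow]
  ring

theorem int_of_sq {z : ℚ} {k : ℤ} (h : z ^ 2 = k) : ∃ n : ℤ, z = n := by
  have h1 : IsIntegral ℤ z := by
    refine IsIntegral.of_pow (n := 2) two_pos ?_
    rw [h]
    exact isIntegral_algebraMap (R := ℤ) (A := ℚ) (x := k)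
  obtain ⟨n, hn⟩ := IsIntegrallyClosed.isIntegral_iff.1 h1
  exact ⟨n, by rw [← hn]; simp⟩

theorem natAbs_e (n : ℤ) : ∃ e : ℤ, (n.natAbs : ℚ) = e * n := by
  rcases Int.natAbs_eq n with h | h
  · refine ⟨1, ?_⟩
    have h2 : ((n.natAbs : ℤ) : ℚ) = (n : ℚ) := by rw [← h]
    rw [Int.cast_one, one_mul, ← h2, Int.cast_natCast]
  · refine ⟨-1, ?_⟩
    have h2 : ((n.natAbs : ℤ) : ℚ) = -(n : ℚ) := by
      have h3 : (n.natAbs : ℤ) = -n := by omega
      rw [h3, Int.cast_neg]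
    rw [Int.cast_neg, Int.cast_one, neg_one_mul, ← h2, Int.cast_natCast]

/-- slow denominators of `m ^ (g + 1) y` -/
theorem int_y {g : ℕ} {F : ℚ[X]} {x y : ℚ} {H : ℝ} (hF : F.natDegree = 2 * g + 1)
    (hH : ∀ i, ht (F.coeff i) ≤ H) (h : y ^ 2 = F.eval x) :
    ∃ D : ℕ, D ≠ 0 ∧ (D : ℝ) ≤ Real.exp ((3 * g + 3 : ℕ) * H) ∧
      ∃ n : ℤ, (D : ℚ) * ((x.den : ℚ) ^ (g + 1) * (y / F.coeff (2 * g + 1) ^ (g + 1))) = n := by
  obtain ⟨D, hD0, hD1, hD2⟩ := den_F hF hH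
  obtain ⟨k, hk⟩ := int_eval hF hD2 rfl
  have h0 := lead_ne hF
  set l := F.coeff (2 * g + 1) with hl
  have h1 : ((D : ℚ) * x.den ^ (g + 1) * y) ^ 2 = ((D * x.den * k : ℤ) : ℚ) := by
    push_cast
    rw [← hk, ← h]
    have : (x.den : ℚ) ^ (g + 1) * x.den ^ (g + 1) = x.den * x.den ^ (2 * g + 1) := by
      rw [← pow_add, ← pow_succ']
      congr 1
      ring
    linear_combination (D : ℚ) ^ 2 * y ^ 2 * this
  obtain ⟨n, hn⟩ := int_of_sq h1
  refine ⟨D * l.num.natAbs ^ (g + 1), ?_, ?_, ?_⟩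
  · exact mul_ne_zero hD0 (pow_ne_zero _ (Int.natAbs_ne_zero.2 (Rat.num_ne_zero.2 h0)))
  · push_cast
    have h2 : ((l.num.natAbs : ℕ) : ℝ) ≤ Real.exp H := by
      rw [Nat.cast_natAbs, Int.cast_abs]
      exact (ht_le (hH _)).1
    calc (D : ℝ) * (l.num.natAbs : ℝ) ^ (g + 1)
        ≤ Real.exp ((2 * g + 2 : ℕ) * H) * Real.exp H ^ (g + 1) :=
          mul_le_mul hD1 (pow_le_pow_left₀ (Nat.cast_nonneg _) h2 _) (by positivity)
            (Real.exp_pos _).le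
      _ = _ := by
          rw [← Real.exp_nat_mul, ← Real.exp_add]
          congr 1
          push_cast
          ring
  · obtain ⟨e, he⟩ := natAbs_e l.num
    refine ⟨n * (e ^ (g + 1) * (l.den : ℤ) ^ (g + 1)), ?_⟩
    push_cast
    rw [← hn, he]
    have h5 : (l.den : ℚ) * l = l.num := Rat.den_mul_eq_num l
    rw [← h5, mul_pow, mul_pow]
    field_simp

/-- slow denominators of `m x` -/
theorem int_x {g : ℕ} {F : ℚ[X]} {x : ℚ} {H : ℝ} (hF : F.natDegree = 2 * g + 1)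
    (hH : ∀ i, ht (F.coeff i) ≤ H) :
    ∃ D : ℕ, D ≠ 0 ∧ (D : ℝ) ≤ Real.exp H ∧
      ∃ n : ℤ, (D : ℚ) * ((x.den : ℚ) * (x / F.coeff (2 * g + 1))) = n := by
  have h0 := lead_ne hF
  set l := F.coeff (2 * g + 1) with hl
  refine ⟨l.num.natAbs, Int.natAbs_ne_zero.2 (Rat.num_ne_zero.2 h0), ?_, ?_⟩
  · rw [Nat.cast_natAbs, Int.cast_abs]
    exact (ht_le (hH _)).1
  · obtain ⟨e, he⟩ := natAbs_e l.num
    refine ⟨e * (l.den * x.num), ?_⟩
    push_cast
    rw [he]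
    have h5 : (l.den : ℚ) * l = l.num := Rat.den_mul_eq_num l
    have h6 : (x.den : ℚ) * x = x.num := Rat.den_mul_eq_num x
    rw [← h5, ← h6]
    field_simp

/-- heights of numbers with a small denominator -/
theorem ht_x {x : ℚ} {θ : ℝ} (hθ0 : 0 ≤ θ) (hθ : θ < 1 / 2) (h0 : 0 < ht x)
    (h : (x.den : ℝ) ≤ |(x : ℝ)| ^ θ) : 1 ≤ |(x : ℝ)| ∧ ht x ≤ 3 / 2 * Real.log |(x : ℝ)| := by
  have h1 : (1 : ℝ) ≤ x.den := by exact_mod_cast x.den_pos
  have hx : x ≠ 0 := by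
    rintro rfl
    simp [ht] at h0
  have hx0 : 0 < |(x : ℝ)| := abs_pos.2 (by exact_mod_cast hx)
  have h2 : |(x : ℝ)| * (x.den : ℝ) = |(x.num : ℝ)| := by
    have : (x : ℝ) * x.den = x.num := by exact_mod_cast Rat.mul_den_eq_num x
    rw [← this, abs_mul, abs_of_pos (by linarith : (0 : ℝ) < x.den)]
  have h3 : (1 : ℝ) ≤ |(x.num : ℝ)| := by
    rw [← Int.cast_abs]
    exact_mod_cast Int.one_le_abs (Rat.num_ne_zero.2 hx)
  have h4 : 1 ≤ |(x : ℝ)| := by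
    by_contra h5
    push Not at h5
    have h7 : |(x : ℝ)| ^ θ ≤ 1 := Real.rpow_le_one hx0.le h5.le hθ0
    have h8 : (x.den : ℝ) = 1 := le_antisymm (h.trans h7) h1
    rw [h8, mul_one] at h2
    linarith
  refine ⟨h4, ?_⟩
  have h5 : ht x = Real.log |(x : ℝ)| + Real.log x.den := by
    rw [ht, max_eq_left, ← h2, Real.log_mul hx0.ne' (by linarith)]
    rw [← h2]
    nlinarith
  have h6 : Real.log x.den ≤ θ * Real.log |(x : ℝ)| := by
    rw [← Real.log_rpow hx0]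
    exact Real.log_le_log (by linarith) h
  have h7 := Real.log_nonneg h4
  rw [h5]
  nlinarith

end Pool.Agent.Helper2.HN
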