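import Pool.Agent.Helper71.HN.SheetZ
import Pool.Agent.Helper94.SUBW.SLW

/-! Project HZ, row T1Z: the theorem over a Galois number field. -/

set_option autoImplicit false

namespace Pool.Agent.Helper2.HZ

open Polynomial Filter Finset Pool.Agent.Helper70.SUB Pool.Agent.Helper77.SUBK
  Pool.Agent.Helper70.SUBL Pool.Agent.Helper70.SUBW Pool.Agent.Helper71.JN Pool.Agent.Helper71.HN
  Pool.Agent.Helper71.HZ

section
variable {M : Type} [Field M]

/-- the coefficients of the monic form -/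
noncomputable def co (g : ℕ) (F : M[X]) (i : ℕ) : M :=
  F.coeff i * F.coeff (2 * g + 1) ^ i * (F.coeff (2 * g + 1) ^ (2 * g + 2))⁻¹

theorem lead_ne {g : ℕ} {F : M[X]} (hF : F.natDegree = 2 * g + 1) : F.coeff (2 * g + 1) ≠ 0 := by
  rw [← hF]
  refine leadingCoeff_ne_zero.2 fun h => ?_
  rw [h, natDegree_zero] at hF
  omega

theorem pol_eq {g : ℕ} {F : M[X]} (hF : F.natDegree = 2 * g + 1) :
    polR M g (co g F) = C (F.coeff (2 * g + 1) ^ (2 * g + 2))⁻¹ *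
      F.comp (C (F.coeff (2 * g + 1)) * X) := by
  have h0 := lead_ne hF
  set l := F.coeff (2 * g + 1) with hl
  have h1 : F.comp (C l * X) = ∑ i ∈ range (2 * g + 2), C (F.coeff i * l ^ i) * X ^ i := by
    conv_lhs => rw [F.as_sum_range_C_mul_X_pow, hF]
    rw [Polynomial.sum_comp]
    refine sum_congr rfl fun i _ => ?_
    rw [mul_comp, C_comp, X_pow_comp, mul_pow, ← C_pow, C_mul]
    ring
  rw [h1, sum_range_succ, mul_add, mul_sum, polR, add_comm]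
  congr 1
  · refine sum_congr rfl fun i _ => ?_
    rw [← mul_assoc, ← C_mul, co, ← hl]
    congr 2
    ring
  · rw [← hl, ← mul_assoc, ← C_mul]
    have : (l ^ (2 * g + 2))⁻¹ * (l * l ^ (2 * g + 1)) = 1 := by
      rw [← pow_succ', inv_mul_cancel₀ (pow_ne_zero _ h0)]
    rw [this, C_1, one_mul]

theorem pol_sep {g : ℕ} {F : M[X]} (hF : F.natDegree = 2 * g + 1) (hs : F.Separable) :
    (polR M g (co g F)).Separable := by
  have h0 := lead_ne hF
  rw [pol_eq hF]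
  set l := F.coeff (2 * g + 1) with hl
  have hu : IsUnit (C (l ^ (2 * g + 2))⁻¹ : M[X]) :=
    isUnit_C.2 (IsUnit.mk0 _ (inv_ne_zero (pow_ne_zero _ h0)))
  have hu2 : IsUnit (C l : M[X]) := isUnit_C.2 (IsUnit.mk0 _ h0)
  have h1 : IsCoprime (F.comp (C l * X)) ((derivative F).comp (C l * X)) := by
    have := IsCoprime.map hs (compRingHom (C l * X))
    simpa using this
  rw [Separable, derivative_C_mul, derivative_comp, derivative_C_mul, derivative_X, mul_one]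
  rw [isCoprime_mul_unit_left_left hu, isCoprime_mul_unit_left_right hu,
    isCoprime_mul_unit_left_right hu2]
  exact h1

theorem pol_ev {g : ℕ} {F : M[X]} {x y : M} (hF : F.natDegree = 2 * g + 1)
    (h : y ^ 2 = F.eval x) : (y * ((F.coeff (2 * g + 1))⁻¹) ^ (g + 1)) ^ 2 =
      (polR M g (co g F)).eval (x * (F.coeff (2 * g + 1))⁻¹) := by
  have h0 := lead_ne hF
  rw [pol_eq hF]
  set l := F.coeff (2 * g + 1) with hl
  have h1 : l * (x * l⁻¹) = x := by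
    rw [mul_comm, mul_assoc, inv_mul_cancel₀ h0, mul_one]
  rw [eval_mul, eval_C, eval_comp, eval_mul, eval_C, eval_X, h1, ← h, mul_pow, ← pow_mul, inv_pow]
  have : (g + 1) * 2 = 2 * g + 2 := by ring
  rw [this, mul_comm]

end

/-- integrality of the second coordinate -/
theorem int_y {M : Type} [Field M] [NumberField M] {g D m : ℕ} {F : M[X]} {x y : M}
    (hF : F.natDegree = 2 * g + 1)
    (hD : ∀ i ∈ range (2 * g + 2), IsIntegral ℤ ((D : M) * F.coeff i))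
    (hx : IsIntegral ℤ ((m : M) * x)) (h : y ^ 2 = F.eval x) :
    IsIntegral ℤ ((D : M) * ((m : M) ^ (g + 1) * y)) := by
  refine IsIntegral.of_pow (n := 2) two_pos ?_
  have h2 : F.eval x = ∑ i ∈ range (2 * g + 2), F.coeff i * x ^ i := by
    rw [eval_eq_sum_range, hF]
  have h1 : ((D : M) * ((m : M) ^ (g + 1) * y)) ^ 2 = (D : M) * m *
      ∑ i ∈ range (2 * g + 2), ((D : M) * F.coeff i) *
        ((m : M) ^ (2 * g + 1 - i) * ((m : M) * x) ^ i) := by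
    calc ((D : M) * ((m : M) ^ (g + 1) * y)) ^ 2
        = (D : M) ^ 2 * (m : M) ^ (2 * g + 2) * y ^ 2 := by ring
      _ = ∑ i ∈ range (2 * g + 2), (D : M) ^ 2 * (m : M) ^ (2 * g + 2) *
          (F.coeff i * x ^ i) := by rw [h, h2, mul_sum]
      _ = _ := by
          rw [mul_sum]
          refine sum_congr rfl fun i hi => ?_
          have h3 : (m : M) ^ (2 * g + 2) = m * (m ^ (2 * g + 1 - i) * m ^ i) := by
            rw [← pow_add, Nat.sub_add_cancel (by have := mem_range.1 hi; omega), ← pow_succ']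
          rw [h3, mul_pow]
          ring
  rw [h1]
  exact ((Pool.Agent.Helper94.SUBW.isInt_natM D).mul (Pool.Agent.Helper94.SUBW.isInt_natM m)).mul
    (IsIntegral.sum _ fun i hi => (hD i hi).mul
      (((Pool.Agent.Helper94.SUBW.isInt_natM m).pow _).mul (hx.pow _)))

theorem log_max_nonneg (a : ℝ) : 0 ≤ Real.log (max 1 a) := Real.log_nonneg (le_max_left _ _)

theorem log_max_mul {a b : ℝ} (hb : 0 ≤ b) :
    Real.log (max 1 (a * b)) ≤ Real.log (max 1 a) + Real.log (max 1 b) := by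
  have h1 : (1 : ℝ) ≤ max 1 a := le_max_left _ _
  have h2 : (1 : ℝ) ≤ max 1 b := le_max_left _ _
  rw [← Real.log_mul (by linarith) (by linarith)]
  refine Real.log_le_log (lt_of_lt_of_le one_pos (le_max_left _ _)) (max_le ?_ ?_)
  · exact one_le_mul_of_one_le_of_one_le h1 h2
  · exact mul_le_mul (le_max_right _ _) (le_max_right _ _) hb (by linarith)

theorem log_max_le {a E : ℝ} (hE : 0 ≤ E) (h : a ≤ Real.exp E) : Real.log (max 1 a) ≤ E := by
  calc Real.log (max 1 a) ≤ Real.log (Real.exp E) :=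
        Real.log_le_log (lt_of_lt_of_le one_pos (le_max_left _ _))
          (max_le (Real.one_le_exp hE) h)
    _ = E := Real.log_exp E

/-- one conjugate: the sizes of `x` and of the difference change by slow factors -/
theorem one_conj {u l r : ℂ} {E : ℝ} (hE : 0 ≤ E) (hl0 : l ≠ 0) (hl : ‖l‖ ≤ Real.exp E)
    (hl' : ‖l⁻¹‖ ≤ Real.exp E) :
    Real.log (max 1 ‖u * l⁻¹ - r‖) ≤ Real.log (max 1 ‖u - l * r‖) + E ∧
      Real.log (max 1 ‖u‖) ≤ Real.log (max 1 ‖u * l⁻¹‖) + E := by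
  constructor
  · have h1 : u * l⁻¹ - r = (u - l * r) * l⁻¹ := by
      rw [sub_mul, mul_comm l r, mul_assoc, mul_inv_cancel₀ hl0, mul_one]
    rw [h1, norm_mul]
    exact (log_max_mul (norm_nonneg _)).trans (add_le_add le_rfl (log_max_le hE hl'))
  · have h1 : ‖u‖ = ‖u * l⁻¹‖ * ‖l‖ := by
      rw [← norm_mul, mul_assoc, inv_mul_cancel₀ hl0, mul_one]
    rw [h1]
    exact (log_max_mul (norm_nonneg _)).trans (add_le_add le_rfl (log_max_le hE hl))

/-- the data of one point -/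
structure Dat (M : Type) [Field M] [NumberField M] (t : ℕ) where
  /-- the polynomial -/
  F : M[X]
  /-- the first coordinate -/
  x : M
  /-- the second coordinate -/
  y : M
  /-- the height of the polynomial -/
  H : ℝ
  /-- a denominator -/
  m : ℕ
  /-- coefficients of the numerators -/
  c : (M ≃ₐ[ℚ] M) → Fin t → ℤ
  /-- coefficients of the denominators -/
  d : (M ≃ₐ[ℚ] M) → Fin t → ℤ
  /-- terms of the numerators -/
  a : (M ≃ₐ[ℚ] M) → Fin t → M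
  /-- terms of the denominators -/
  b : (M ≃ₐ[ℚ] M) → Fin t → M

theorem T1Z (hPFE : ST_PFE) (hSLW : ST_SLW) (hSPW : ST_SPW) (hSPH : ST_SPH)
    (hBRGZ : ST_BRGZ) : ST_T1Z := by
  classical
  have _ := hSPW
  intro M _ _ _ S ψ t g κ θ B hS hg hθ
  obtain ⟨P, hP⟩ := hPFE M S ψ hS
  by_contra hcon
  have hex : ∀ j : ℕ, ∃ s : Dat M t, (0 ≤ s.H ∧ s.F.natDegree = 2 * g + 1 ∧ s.F.Separable ∧
      s.y ^ 2 = s.F.eval s.x ∧
      (∀ i, HBZ ψ (Real.exp (κ * (s.H + 1))) (s.F.coeff i)) ∧ s.m ≠ 0 ∧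
      IsIntegral ℤ ((s.m : M) * s.x) ∧ (∀ σ i, SV S (s.a σ i)) ∧
      (∀ σ i, SV S (s.b σ i)) ∧ (∀ σ i, |(s.c σ i : ℝ)| ≤ Real.exp (κ * (s.H + 1))) ∧
      (∀ σ i, |(s.d σ i : ℝ)| ≤ Real.exp (κ * (s.H + 1))) ∧
      (∀ σ, HBZ ψ (Real.exp (B * Lam ψ s.x)) (∑ i, (s.c σ i : M) * s.a σ i)) ∧
      (∀ σ, HBZ ψ (Real.exp (B * Lam ψ s.x)) (∑ i, (s.d σ i : M) * s.b σ i)) ∧
      (∀ σ, ∑ i, (s.d σ i : M) * s.b σ i ≠ 0) ∧
      (Fintype.card (M ≃ₐ[ℚ] M) : ℝ) * Real.log s.m +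
        ∑ σ : M ≃ₐ[ℚ] M, Real.log (max 1 ‖ψ (σ s.x) - ψ (σ (s.F.coeff (2 * g + 1))) *
          ψ ((∑ i, (s.c σ i : M) * s.a σ i) / ∑ i, (s.d σ i : M) * s.b σ i) ^ 2‖) ≤
        θ * Lam ψ s.x) ∧
      ((j : ℝ) + 1) * (s.H + 1) < Lam ψ s.x := by
    intro j
    by_contra h
    apply hcon
    refine ⟨(j : ℝ) + 1, by positivity, fun F x y H m c d a b h0 h1 h2 h3 h4 h5 h6 h7 h8 h9 h10
      h11 h12 h13 h14 => ?_⟩
    by_contra h'
    exact h ⟨⟨F, x, y, H, m, c, d, a, b⟩,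
      ⟨h0, h1, h2, h3, h4, h5, h6, h7, h8, h9, h10, h11, h12, h13, h14⟩, not_le.1 h'⟩
  choose s hs hlt using hex
  obtain ⟨φ, hφ⟩ : ∃ φ : Ultrafilter ℕ, (φ : Filter ℕ) ≤ atTop := by
    refine ⟨hyperfilter ℕ, ?_⟩
    rw [← Nat.cofinite_eq_atTop]
    exact hyperfilter_le_cofinite
  set F : ℕ → M[X] := fun j => (s j).F with hF
  set x : ℕ → M := fun j => (s j).x with hx
  set y : ℕ → M := fun j => (s j).y with hy
  set H : ℕ → ℝ := fun j => (s j).H with hH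
  set m : ℕ → ℕ := fun j => (s j).m with hm
  set c : (M ≃ₐ[ℚ] M) → Fin t → ℕ → ℤ := fun σ i j => (s j).c σ i with hc
  set d : (M ≃ₐ[ℚ] M) → Fin t → ℕ → ℤ := fun σ i j => (s j).d σ i with hd
  set a : (M ≃ₐ[ℚ] M) → Fin t → ℕ → M := fun σ i j => (s j).a σ i with ha
  set b : (M ≃ₐ[ℚ] M) → Fin t → ℕ → M := fun σ i j => (s j).b σ i with hb
  set p : (M ≃ₐ[ℚ] M) → ℕ → M := fun σ j => ∑ i, (c σ i j : M) * a σ i j with hp
  set q : (M ≃ₐ[ℚ] M) → ℕ → M := fun σ j => ∑ i, (d σ i j : M) * b σ i j with hq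
  set L : ℕ → ℝ := fun j => Lam ψ (x j) with hL
  set l : ℕ → M := fun j => (F j).coeff (2 * g + 1) with hl
  have f0 : ∀ j, 0 ≤ H j := fun j => (hs j).1
  have f1 : ∀ j, (F j).natDegree = 2 * g + 1 := fun j => (hs j).2.1
  have f2 : ∀ j, (F j).Separable := fun j => (hs j).2.2.1
  have f3 : ∀ j, y j ^ 2 = (F j).eval (x j) := fun j => (hs j).2.2.2.1
  have f4 : ∀ j i, HBZ ψ (Real.exp (κ * (H j + 1))) ((F j).coeff i) := fun j => (hs j).2.2.2.2.1
  have f5 : ∀ j, m j ≠ 0 := fun j => (hs j).2.2.2.2.2.1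
  have f6 : ∀ j, IsIntegral ℤ ((m j : M) * x j) := fun j => (hs j).2.2.2.2.2.2.1
  have haS : ∀ σ i j, SV S (a σ i j) := fun σ i j => (hs j).2.2.2.2.2.2.2.1 σ i
  have hbS : ∀ σ i j, SV S (b σ i j) := fun σ i j => (hs j).2.2.2.2.2.2.2.2.1 σ i
  have hcB : ∀ σ i j, |(c σ i j : ℝ)| ≤ Real.exp (κ * (H j + 1)) :=
    fun σ i j => (hs j).2.2.2.2.2.2.2.2.2.1 σ i
  have hdB : ∀ σ i j, |(d σ i j : ℝ)| ≤ Real.exp (κ * (H j + 1)) :=
    fun σ i j => (hs j).2.2.2.2.2.2.2.2.2.2.1 σ i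
  have hpB : ∀ σ j, HBZ ψ (Real.exp (B * L j)) (p σ j) :=
    fun σ j => (hs j).2.2.2.2.2.2.2.2.2.2.2.1 σ
  have hqB : ∀ σ j, HBZ ψ (Real.exp (B * L j)) (q σ j) :=
    fun σ j => (hs j).2.2.2.2.2.2.2.2.2.2.2.2.1 σ
  have hq0 : ∀ σ j, q σ j ≠ 0 := fun σ j => (hs j).2.2.2.2.2.2.2.2.2.2.2.2.2.1 σ
  have hmain : ∀ j, (Fintype.card (M ≃ₐ[ℚ] M) : ℝ) * Real.log (m j) +
      ∑ σ : M ≃ₐ[ℚ] M, Real.log (max 1 ‖ψ (σ (x j)) - ψ (σ (l j)) *
        ψ (p σ j / q σ j) ^ 2‖) ≤ θ * L j := fun j => (hs j).2.2.2.2.2.2.2.2.2.2.2.2.2.2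
  have hlt' : ∀ j : ℕ, ((j : ℝ) + 1) * (H j + 1) < L j := hlt
  have hl0 : ∀ j, l j ≠ 0 := fun j => lead_ne (f1 j)
  have hLj : ∀ j : ℕ, (j : ℝ) + 1 ≤ L j := fun j => by
    have h1 := hlt' j
    have h2 := f0 j
    have h3 : ((j : ℝ) + 1) * 1 ≤ ((j : ℝ) + 1) * (H j + 1) :=
      mul_le_mul_of_nonneg_left (by linarith) (by positivity)
    linarith
  have hL0 : ∀ j, 0 ≤ L j := fun j => by
    have h1 := hLj j
    have h2 : (0 : ℝ) ≤ j := Nat.cast_nonneg j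
    linarith
  -- the scale
  set X : ℕ → ℝ := fun j => Real.exp (L j) with hX
  have hXr : ∀ (j : ℕ) (e : ℝ), X j ^ e = Real.exp (e * L j) := fun j e => by
    rw [hX, mul_comm]
    exact (Real.exp_mul _ _).symm
  have hXlog : ∀ j, Real.log (X j) = L j := fun j => Real.log_exp _
  have hXX : Tendsto X (φ : Filter ℕ) atTop := by
    refine Tendsto.mono_left ?_ hφ
    refine Real.tendsto_exp_atTop.comp ?_
    refine tendsto_atTop_mono hLj ?_
    exact tendsto_natCast_atTop_atTop.atTop_add tendsto_const_nhds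
  have hE : ∀ K ε : ℝ, 0 < ε → ∀ᶠ j in (φ : Filter ℕ), Real.exp (K * (H j + 1)) ≤ X j ^ ε := by
    intro K ε hε
    obtain ⟨N, hN⟩ := exists_nat_ge (K / ε)
    filter_upwards [hφ (eventually_ge_atTop N)] with j h2
    have h4 : K / ε ≤ (j : ℝ) + 1 := by
      have : (N : ℝ) ≤ j := by exact_mod_cast h2
      linarith
    rw [div_le_iff₀ hε] at h4
    rw [hXr]
    refine Real.exp_le_exp.2 ?_
    have h5 : K * (H j + 1) ≤ ((j : ℝ) + 1) * ε * (H j + 1) :=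
      mul_le_mul_of_nonneg_right h4 (by linarith [f0 j])
    have h6 : ε * (((j : ℝ) + 1) * (H j + 1)) ≤ ε * L j :=
      mul_le_mul_of_nonneg_left (hlt' j).le hε.le
    linarith
  -- slow sequences
  obtain ⟨hconst, hops, hinv, _, hsz, _, _, _, _, hint, hsums, hcd, _⟩ := hSLW M S P φ X hS hXX
  have hslI : ∀ e : ℕ → ℤ, (∀ j, |(e j : ℝ)| ≤ Real.exp (κ * (H j + 1))) →
      Slw P φ X (fun j => (e j : M)) := by
    intro e he
    refine hint e fun δ hδ => ?_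
    filter_upwards [hE κ δ hδ] with j hj
    exact (he j).trans hj
  have hslF : ∀ i, Slw P φ X (fun j => (F j).coeff i) := by
    intro i ε hε
    filter_upwards [hE κ ε hε] with j hj
    obtain ⟨⟨D, h1, h2, h3⟩, h4⟩ := f4 j i
    exact ⟨D, h1, h2.trans hj, h3, fun σ => by rw [hP]; exact (h4 σ).trans hj⟩
  have hslpow : ∀ (z : ℕ → M) (n : ℕ), Slw P φ X z → Slw P φ X (fun j => z j ^ n) := by
    intro z n hz
    induction n with
    | zero => simpa using hconst 1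
    | succ n ih => simpa [pow_succ] using (hops _ _ ih hz).2
  have hsll : Slw P φ X l := hslF (2 * g + 1)
  have hsli : Slw P φ X (fun j => (l j)⁻¹) := hinv _ hsll
  have hsla : ∀ i, Slw P φ X (fun j => co g (F j) i) := fun i =>
    (hops _ _ (hops _ _ (hslF i) (hslpow _ i hsll)).2 (hinv _ (hslpow _ (2 * g + 2) hsll))).2
  -- moderate sums
  have hHB : ∀ z : ℕ → M, (∀ j, HBZ ψ (Real.exp (B * L j)) (z j)) →
      ∀ᶠ j in (φ : Filter ℕ), HB P (X j ^ B) (z j) := by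
    intro z hz
    refine Eventually.of_forall fun j v hv σ => ?_
    rw [hXr]
    refine Pool.Agent.Helper94.SUBW.SP_nv hS (H := Real.exp (B * L j)) ?_ hv σ
    obtain ⟨⟨D, h1, h2, h3⟩, h4⟩ := hz j
    exact ⟨D, h1, h2, h3, fun τ => by rw [hP]; exact h4 τ⟩
  have hpM : ∀ σ, SpM P φ X (p σ) := by
    intro σ
    refine hSPH M S P φ X (p σ) B hS hXX ?_ (hHB (p σ) (hpB σ))
    exact ⟨t, fun i j => (c σ i j : M), a σ, fun i => hslI _ (hcB σ i),
      fun i => Eventually.of_forall (haS σ i), Eventually.of_forall fun j => rfl⟩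
  have hqM : ∀ σ, SpM P φ X (q σ) := by
    intro σ
    refine hSPH M S P φ X (q σ) B hS hXX ?_ (hHB (q σ) (hqB σ))
    exact ⟨t, fun i j => (d σ i j : M), b σ, fun i => hslI _ (hdB σ i),
      fun i => Eventually.of_forall (hbS σ i), Eventually.of_forall fun j => rfl⟩
  -- denominators
  set x' : ℕ → M := fun j => x j * (l j)⁻¹ with hx'
  set y' : ℕ → M := fun j => y j * ((l j)⁻¹) ^ (g + 1) with hy'
  have hSx : IntS φ X (fun j => (m j : M) * x' j) := by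
    intro ε hε
    filter_upwards [hsli ε hε] with j h1
    obtain ⟨D, h2, h3, h4, _⟩ := h1
    refine ⟨D, h2, h3, ?_⟩
    have h5 : (D : M) * ((m j : M) * x' j) = ((m j : M) * x j) * ((D : M) * (l j)⁻¹) := by
      rw [hx']
      ring
    rw [h5]
    exact (f6 j).mul h4
  have hSy : IntS φ X (fun j => (m j : M) ^ (g + 1) * y' j) := by
    intro ε hε
    filter_upwards [hcd ℕ (range (2 * g + 2)) (fun i j => (F j).coeff i) (fun i _ => hslF i)
      (ε / 2) (by linarith), hslpow _ (g + 1) hsli (ε / 2) (by linarith)] with j h1 h2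
    obtain ⟨D, h3, h4, h5⟩ := h1
    obtain ⟨D', h6, h7, h8, _⟩ := h2
    refine ⟨D * D', mul_ne_zero h3 h6, ?_, ?_⟩
    · push_cast
      calc (D : ℝ) * D' ≤ X j ^ (ε / 2) * X j ^ (ε / 2) :=
            mul_le_mul h4 h7 (Nat.cast_nonneg _) (Real.rpow_nonneg (Real.exp_pos _).le _)
        _ = X j ^ ε := by
            rw [← Real.rpow_add (Real.exp_pos _)]
            congr 1
            ring
    · have h9 : ((D * D' : ℕ) : M) * ((m j : M) ^ (g + 1) * y' j) =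
          ((D : M) * ((m j : M) ^ (g + 1) * y j)) * ((D' : M) * ((l j)⁻¹) ^ (g + 1)) := by
        rw [hy']
        push_cast
        ring
      rw [h9]
      exact (int_y (f1 j) h5 (f6 j) (f3 j)).mul h8
  -- the numerical part
  set k : ℝ := (Fintype.card (M ≃ₐ[ℚ] M) : ℝ) with hk
  have hk1 : 1 ≤ k := by
    have : 0 < Fintype.card (M ≃ₐ[ℚ] M) := Fintype.card_pos
    rw [hk]
    exact_mod_cast this
  obtain ⟨ε, hε⟩ : ∃ ε : ℝ, ε = (1 / 2 - θ) / (4 * k) := ⟨_, rfl⟩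
  have hε0 : 0 < ε := by
    rw [hε]
    exact div_pos (by linarith) (by linarith)
  have hkε : k * ε = (1 / 2 - θ) / 4 := by
    rw [hε]
    field_simp
  have hszl : ∀ δ : ℝ, 0 < δ → ∀ᶠ j in (φ : Filter ℕ), ∀ σ : M ≃ₐ[ℚ] M,
      ‖ψ (σ (l j))‖ ≤ X j ^ δ ∧ ‖ψ (σ (l j)⁻¹)‖ ≤ X j ^ δ := by
    intro δ hδ
    filter_upwards [hsll δ hδ, hsli δ hδ] with j h1 h2 σ
    obtain ⟨_, _, _, _, h3⟩ := h1
    obtain ⟨_, _, _, _, h4⟩ := h2
    rw [← hP, ← hP]
    exact ⟨h3 σ, h4 σ⟩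
  have hlogm : ∀ j, 0 ≤ Real.log (m j) := fun j => Real.log_natCast_nonneg _
  have hsum0 : ∀ j, 0 ≤ ∑ σ : M ≃ₐ[ℚ] M, Real.log (max 1 ‖ψ (σ (x j)) - ψ (σ (l j)) *
      ψ (p σ j / q σ j) ^ 2‖) := fun j => sum_nonneg fun σ _ => log_max_nonneg _
  refine hBRGZ M S P φ g (fun i j => co g (F j) i) m x' y' X p q 2 ((1 / 2 - θ) / 2) hS hg
    (by linarith) hXX hpM hqM (fun i _ => hsla i) hSx hSy ?_
  filter_upwards [hszl ε hε0, hszl 1 one_pos] with j h1 h2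
  have e1 : ∀ σ : M ≃ₐ[ℚ] M, P.nv none (σ (x' j)) = ‖ψ (σ (x j)) * (ψ (σ (l j)))⁻¹‖ := fun σ => by
    rw [hP, hx', map_mul, map_inv₀, map_mul, map_inv₀]
  have e2 : ∀ σ : M ≃ₐ[ℚ] M, P.nv none (σ (x' j) - (p σ j / q σ j) ^ 2) =
      ‖ψ (σ (x j)) * (ψ (σ (l j)))⁻¹ - ψ (p σ j / q σ j) ^ 2‖ := fun σ => by
    rw [hP, map_sub, map_pow, hx', map_mul, map_inv₀, map_mul, map_inv₀]
  have e3 : ∀ σ : M ≃ₐ[ℚ] M, ψ (σ (l j)⁻¹) = (ψ (σ (l j)))⁻¹ := fun σ => by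
    rw [map_inv₀, map_inv₀]
  have e4 : ∀ σ : M ≃ₐ[ℚ] M, ψ (σ (l j)) ≠ 0 := fun σ => by
    intro h
    have h' : σ (l j) = 0 := (map_eq_zero_iff ψ ψ.injective).1 h
    exact hl0 j ((map_eq_zero_iff σ σ.injective).1 h')
  have hm1 : Real.log (m j) ≤ L j := by
    have h3 := hmain j
    have h4 := hsum0 j
    have h5 := hlogm j
    have h6 := hL0 j
    nlinarith
  have hmX : (m j : ℝ) ≤ X j := by
    have h3 : (0 : ℝ) < m j := by exact_mod_cast Nat.pos_of_ne_zero (f5 j)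
    rw [← Real.exp_log h3]
    exact Real.exp_le_exp.2 hm1
  have hX1 : 1 ≤ X j := Real.one_le_exp (hL0 j)
  have hX2 : X j ^ (2 : ℝ) = X j * X j := by
    rw [Real.rpow_two]
    ring
  refine ⟨pol_sep (f1 j) (f2 j), pol_ev (f1 j) (f3 j), f5 j, ?_, fun σ => ⟨hq0 σ j, ?_⟩, ?_⟩
  · rw [hX2]
    nlinarith
  · rw [e1, hX2, norm_mul]
    refine mul_le_mul ?_ ?_ (norm_nonneg _) (by linarith)
    · have h3 : Real.log (max 1 ‖ψ (σ (x j))‖) ≤ L j := by
        rw [hL]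
        exact single_le_sum (f := fun σ : M ≃ₐ[ℚ] M => Real.log (max 1 ‖ψ (σ (x j))‖))
          (fun τ _ => log_max_nonneg _) (mem_univ σ)
      have h4 : (0 : ℝ) < max 1 ‖ψ (σ (x j))‖ := lt_of_lt_of_le one_pos (le_max_left _ _)
      refine (le_max_right 1 _).trans ?_
      rw [← Real.exp_log h4]
      exact Real.exp_le_exp.2 h3
    · rw [← e3]
      exact ((h2 σ).2).trans (by rw [Real.rpow_one])
  · rw [hXlog]
    have hεL : 0 ≤ ε * L j := mul_nonneg hε0.le (hL0 j)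
    have h3 : ∀ σ : M ≃ₐ[ℚ] M,
        Real.log (max 1 (P.nv none (σ (x' j) - (p σ j / q σ j) ^ 2))) ≤
          Real.log (max 1 ‖ψ (σ (x j)) - ψ (σ (l j)) * ψ (p σ j / q σ j) ^ 2‖) + ε * L j ∧
        Real.log (max 1 ‖ψ (σ (x j))‖) ≤
          Real.log (max 1 (P.nv none (σ (x' j)))) + ε * L j := by
      intro σ
      rw [e1, e2]
      refine one_conj hεL (e4 σ) ?_ ?_
      · rw [← hXr]
        exact (h1 σ).1
      · rw [← hXr, ← e3]
        exact (h1 σ).2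
    have h4 : ∑ σ : M ≃ₐ[ℚ] M,
        Real.log (max 1 (P.nv none (σ (x' j) - (p σ j / q σ j) ^ 2))) ≤
        ∑ σ : M ≃ₐ[ℚ] M, Real.log (max 1 ‖ψ (σ (x j)) - ψ (σ (l j)) *
          ψ (p σ j / q σ j) ^ 2‖) + k * (ε * L j) := by
      refine (sum_le_sum fun σ _ => (h3 σ).1).trans (le_of_eq ?_)
      rw [sum_add_distrib, sum_const, card_univ, nsmul_eq_mul]
    have h5 : L j ≤ ∑ σ : M ≃ₐ[ℚ] M, Real.log (max 1 (P.nv none (σ (x' j)))) +
        k * (ε * L j) := by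
      refine (sum_le_sum fun σ _ => (h3 σ).2).trans (le_of_eq ?_)
      rw [sum_add_distrib, sum_const, card_univ, nsmul_eq_mul]
    have h6 := hmain j
    have h7 : k * (ε * L j) = (1 / 2 - θ) / 4 * L j := by
      rw [← mul_assoc, hkε]
    have h8 : 0 ≤ (1 / 2 - θ) * L j := mul_nonneg (by linarith) (hL0 j)
    rw [h7] at h4 h5
    linarith

end Pool.Agent.Helper2.HZ
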